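import Pool.Agent.Lib.MP_2e4b78_lc.Defs

/-!
# Basic facts on `ω₁` and `ω₂`
-/

open Cardinal Set Order
open scoped Ordinal

universe u

namespace Pool.Agent.MP2e4b78

/-! ### cardinalities and cofinalities -/

theorem mk_W1 : #W1 = ℵ_ 1 := by
  rw [Cardinal.mk_toType, Ordinal.card_omega]

theorem mk_W2 : #W2 = ℵ_ 2 := by
  rw [Cardinal.mk_toType, Ordinal.card_omega]

theorem cof_W1 : Order.cof W1 = ℵ_ 1 := by
  rw [Ordinal.cof_toType]
  exact Cardinal.isRegular_aleph_one.cof_omega_eq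

theorem isRegular_aleph_two : (ℵ_ 2 : Cardinal.{0}).IsRegular := by
  have := Cardinal.isRegular_aleph_add_one (1 : Ordinal.{0})
  rwa [one_add_one_eq_two] at this

theorem cof_W2 : Order.cof W2 = ℵ_ 2 := by
  rw [Ordinal.cof_toType]
  exact isRegular_aleph_two.cof_omega_eq

theorem countable_Iio (x : W1) : (Iio x).Countable := by
  rw [← le_aleph0_iff_set_countable, ← Cardinal.lt_aleph_one_iff]
  have h := Cardinal.mk_Iio_lt (α := W1) x (by
    rw [mk_W1, Ordinal.type_toType, Cardinal.ord_aleph])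
  rwa [mk_W1] at h

theorem countable_Iic (x : W1) : (Iic x).Countable := by
  have : Iic x = insert x (Iio x) := by ext; simp [le_iff_eq_or_lt]
  rw [this]
  exact (countable_Iio x).insert _

theorem mk_Iio_W2 (x : W2) : #(Iio x) ≤ ℵ_ 1 := by
  have h := Cardinal.mk_Iio_lt (α := W2) x (by
    rw [mk_W2, Ordinal.type_toType, Cardinal.ord_aleph])
  rw [mk_W2] at h
  have e : (ℵ_ 2 : Cardinal.{0}) = Order.succ (ℵ_ 1) := by
    rw [Cardinal.succ_aleph, one_add_one_eq_two]
  rw [e] at h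
  exact Order.lt_succ_iff.1 h

theorem exists_gt_of_countable {s : Set W1} (hs : s.Countable) : ∃ b, ∀ x ∈ s, x < b := by
  rw [← not_isCofinal_iff]
  intro h
  have := Order.cof_le h
  rw [cof_W1] at this
  have h2 : #s ≤ ℵ₀ := le_aleph0_iff_set_countable.2 hs
  exact absurd (this.trans h2) (not_le.2 Cardinal.aleph0_lt_aleph_one)

theorem exists_gt_of_mk_le {s : Set W2} (hs : #s ≤ ℵ_ 1) : ∃ b, ∀ x ∈ s, x < b := by
  rw [← not_isCofinal_iff]
  intro h
  have := Order.cof_le h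
  rw [cof_W2] at this
  have h3 : (ℵ_ 1 : Cardinal.{0}) < ℵ_ 2 := Cardinal.aleph_lt_aleph.2 one_lt_two
  exact absurd (this.trans hs) (not_le.2 h3)

theorem exists_gt_range (f : W1 → W2) : ∃ b, ∀ i, f i < b := by
  obtain ⟨b, hb⟩ := exists_gt_of_mk_le (s := range f) (mk_range_le.trans mk_W1.le)
  exact ⟨b, fun i => hb _ ⟨i, rfl⟩⟩

instance : NoMaxOrder W1 := ⟨fun a => by
  obtain ⟨b, hb⟩ := exists_gt_of_countable (Set.countable_singleton a)
  exact ⟨b, hb a rfl⟩⟩

instance : NoMaxOrder W2 := ⟨fun a => by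
  obtain ⟨b, hb⟩ := exists_gt_range (fun _ => a)
  obtain ⟨i⟩ : Nonempty W1 := by
    rw [← Cardinal.mk_ne_zero_iff, mk_W1]
    exact (Cardinal.aleph_pos 1).ne'
  exact ⟨b, hb i⟩⟩

instance : Nonempty W1 := by
  rw [← Cardinal.mk_ne_zero_iff, mk_W1]
  exact (Cardinal.aleph_pos 1).ne'

instance : Nonempty W2 := by
  rw [← Cardinal.mk_ne_zero_iff, mk_W2]
  exact (Cardinal.aleph_pos 2).ne'

noncomputable instance : OrderBot W1 := WellFoundedLT.toOrderBot W1
noncomputable instance : OrderBot W2 := WellFoundedLT.toOrderBot W2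

/-- there is an injection of every proper initial segment of `ω₂` into `ω₁` -/
theorem exists_inj (x : W2) : ∃ e : W2 → W1, InjOn e (Iio x) := by
  have h : #(Iio x) ≤ #W1 := (mk_Iio_W2 x).trans mk_W1.ge
  obtain ⟨g⟩ := Cardinal.le_def _ _ |>.1 h
  classical
  refine ⟨fun y => if h : y ∈ Iio x then g ⟨y, h⟩ else ⊥, ?_⟩
  intro a ha b hb hab
  simp only [ha, hb, dite_true] at hab
  exact congrArg Subtype.val (g.injective hab)

/-! ### limits -/

/-- limit elements: not least, and not immediate successors -/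
def Lim {W : Type*} [LinearOrder W] (i : W) : Prop :=
  (∃ j, j < i) ∧ ∀ j < i, ∃ k, j < k ∧ k < i

theorem lim_or {W : Type*} [LinearOrder W] (i : W) :
    (∀ j, i ≤ j) ∨ (∃ j < i, ∀ k, j < k → i ≤ k) ∨ Lim i := by
  by_cases h : ∃ j, j < i
  · by_cases h2 : ∀ j < i, ∃ k, j < k ∧ k < i
    · exact Or.inr (Or.inr ⟨h, h2⟩)
    · push Not at h2
      obtain ⟨j, hj, hk⟩ := h2
      exact Or.inr (Or.inl ⟨j, hj, hk⟩)
  · push Not at h
    exact Or.inl h

/-! ### closure points -/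

/-- the closure points of a function form a club -/
theorem isClub_closurePoints {W : Type*} [LinearOrder W] [WellFoundedLT W] [NoMaxOrder W]
    (hW : ∀ s : Set W, s.Countable → ∃ b, ∀ x ∈ s, x < b) (f : W → W)
    (hf : ∀ x, ∃ b, ∀ y ≤ x, f y < b) :
    IsClub {δ : W | ∀ x < δ, f x < δ} := by
  refine ⟨?_, ?_⟩
  · intro s hs hne _ a ha x hx
    obtain ⟨y, hy, hxy⟩ := (lt_isLUB_iff ha).1 hx
    exact (hs hy x hxy).trans_le (ha.1 hy)
  · intro a
    choose g hg using hf
    have hg' : ∀ x, ∃ b, x < b ∧ g x < b := fun x => by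
      obtain ⟨b, hb⟩ := hW {x, g x} (by simp)
      exact ⟨b, hb x (by simp), hb _ (by simp)⟩
    choose G hG1 hG2 using hg'
    let x : ℕ → W := fun n => G^[n] a
    have hx : ∀ n, x (n + 1) = G (x n) := fun n => Function.iterate_succ_apply' G n a
    have hmono : StrictMono x := strictMono_nat_of_lt_succ fun n => by rw [hx]; exact hG1 _
    obtain ⟨b, hb⟩ := hW (range x) (countable_range x)
    -- least upper bound of the range
    have hne : {b : W | ∀ n, x n < b}.Nonempty := ⟨b, fun n => hb _ ⟨n, rfl⟩⟩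
    let δ := WellFounded.min (wellFounded_lt (α := W)) _ hne
    have hδ : ∀ n, x n < δ := WellFounded.min_mem (wellFounded_lt (α := W)) _ hne
    refine ⟨δ, ?_, (hδ 0).le⟩
    intro y hy
    have : ¬ (∀ n, x n < y) := fun h =>
      WellFounded.not_lt_min (wellFounded_lt (α := W)) (s := {b : W | ∀ n, x n < b}) h hy
    push Not at this
    obtain ⟨n, hn⟩ := this
    calc f y < g (x n) := hg (x n) y hn
      _ < G (x n) := hG2 _
      _ = x (n + 1) := (hx n).symm
      _ < δ := hδ _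

theorem isClub_closurePoints₁ (f : W1 → W1) : IsClub {δ : W1 | ∀ x < δ, f x < δ} := by
  refine isClub_closurePoints (fun s hs => exists_gt_of_countable hs) f fun x => ?_
  obtain ⟨b, hb⟩ := exists_gt_of_countable ((countable_Iic x).image f)
  exact ⟨b, fun y hy => hb _ ⟨y, hy, rfl⟩⟩

theorem isClub_closurePoints₂ (f : W2 → W2) : IsClub {δ : W2 | ∀ x < δ, f x < δ} := by
  have hc : ∀ s : Set W2, s.Countable → ∃ b, ∀ x ∈ s, x < b := fun s hs =>
    exists_gt_of_mk_le ((le_aleph0_iff_set_countable.2 hs).trans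
      (Cardinal.aleph0_lt_aleph_one.le))
  refine isClub_closurePoints hc f fun x => ?_
  have hI : #(Iic x) ≤ ℵ_ 1 := by
    obtain ⟨b, hb⟩ := exists_gt x
    exact (Cardinal.mk_le_mk_of_subset (fun y hy => lt_of_le_of_lt hy hb)).trans (mk_Iio_W2 b)
  obtain ⟨b, hb⟩ := exists_gt_of_mk_le (s := f '' Iic x) (mk_image_le.trans hI)
  exact ⟨b, fun y hy => hb _ ⟨y, hy, rfl⟩⟩

theorem cof_W1_ne : Order.cof W1 ≠ ℵ₀ := by
  rw [cof_W1]; exact Cardinal.aleph0_lt_aleph_one.ne'

theorem cof_W2_ne : Order.cof W2 ≠ ℵ₀ := by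
  rw [cof_W2]
  exact (Cardinal.aleph0_lt_aleph_one.trans (Cardinal.aleph_lt_aleph.2 one_lt_two)).ne'

/-- an increasing `ω`-sequence cofinal in a limit `< ω₁` -/
theorem exists_seq_W1 {α : W1} (hα : Lim α) :
    ∃ b : ℕ → W1, (∀ n, b n < α) ∧ StrictMono b ∧ ∀ x < α, ∃ n, x < b n := by
  obtain ⟨⟨j0, hj0⟩, hα2⟩ := hα
  have hne : (Iio α).Nonempty := ⟨j0, hj0⟩
  obtain ⟨g, hg⟩ := (countable_Iio α).exists_eq_range hne
  have hg' : ∀ n, g n < α := fun n => by
    have : g n ∈ Iio α := by rw [hg]; exact ⟨n, rfl⟩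
    exact this
  choose! s hs1 hs2 using hα2
  -- `b (n+1)` is above `b n` and `g n`
  let b : ℕ → W1 := fun n => Nat.rec (s j0) (fun n bn => s (max bn (g n))) n
  have hb : ∀ n, b n < α := by
    intro n
    induction n with
    | zero => exact hs2 _ hj0
    | succ n ih => exact hs2 _ (max_lt ih (hg' n))
  have hb1 : ∀ n, max (b n) (g n) < b (n + 1) := fun n => hs1 _ (max_lt (hb n) (hg' n))
  refine ⟨b, hb, strictMono_nat_of_lt_succ fun n => lt_of_le_of_lt (le_max_left _ _) (hb1 n), ?_⟩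
  intro x hx
  have : x ∈ range g := by rw [← hg]; exact hx
  obtain ⟨n, rfl⟩ := this
  exact ⟨n + 1, lt_of_le_of_lt (le_max_right _ _) (hb1 n)⟩

end Pool.Agent.MP2e4b78
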