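import Pool.Agent.Lib.MP_2e4b78_lc.Generic

/-!
# The tree of closed chains in `T ↾ A`
-/

open Cardinal Set Order

universe u v

namespace Pool.Agent.MP2e4b78

section height

variable {T : Type u} [PartialOrder T]

/-- heights of predecessors -/
theorem hasHt_of_iso {t : T} {α : W1} (e : Iio t ≃o Iio α) (s : Iio t) :
    HasHt s.1 (e s).1 := by
  have k1 : ∀ x : Iio s.1, x.1 ∈ Iio t := fun x => lt_trans (mem_Iio.1 x.2) (mem_Iio.1 s.2)
  have k2 : ∀ y : Iio (e s).1, y.1 ∈ Iio α :=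
    fun y => lt_trans (mem_Iio.1 y.2) (mem_Iio.1 (e s).2)
  refine ⟨{
    toFun := fun x => ⟨(e ⟨x.1, k1 x⟩).1, ?_⟩
    invFun := fun y => ⟨(e.symm ⟨y.1, k2 y⟩).1, ?_⟩
    left_inv := ?_
    right_inv := ?_
    map_rel_iff' := ?_ }⟩
  · exact e.strictMono (show (⟨x.1, k1 x⟩ : Iio t) < s from x.2)
  · have h : e.symm ⟨y.1, k2 y⟩ < s := by
      rw [← e.lt_iff_lt, e.apply_symm_apply]
      exact y.2
    exact h
  · intro x
    have h1 : e.symm ⟨(e ⟨x.1, k1 x⟩).1, (e ⟨x.1, k1 x⟩).2⟩ = ⟨x.1, k1 x⟩ := e.symm_apply_apply _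
    have h2 : (e.symm ⟨(e ⟨x.1, k1 x⟩).1, (e ⟨x.1, k1 x⟩).2⟩).1 = x.1 :=
      congrArg (fun z : Iio t => z.1) h1
    exact Subtype.ext h2
  · intro y
    have h1 : e ⟨(e.symm ⟨y.1, k2 y⟩).1, (e.symm ⟨y.1, k2 y⟩).2⟩ = ⟨y.1, k2 y⟩ :=
      e.apply_symm_apply _
    have h2 : (e ⟨(e.symm ⟨y.1, k2 y⟩).1, (e.symm ⟨y.1, k2 y⟩).2⟩).1 = y.1 :=
      congrArg (fun z : Iio α => z.1) h1
    exact Subtype.ext h2
  · intro x y
    exact e.le_iff_le (x := ⟨x.1, k1 x⟩) (y := ⟨y.1, k1 y⟩)

/-- the height function -/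
noncomputable def ht (hT : IsTreeOmega1 T) (t : T) : W1 := (hT.exists_ht t).choose

theorem hasHt_ht (hT : IsTreeOmega1 T) (t : T) : HasHt t (ht hT t) := (hT.exists_ht t).choose_spec

theorem ht_eq (hT : IsTreeOmega1 T) {t : T} {α : W1} (h : HasHt t α) : ht hT t = α :=
  (hasHt_ht hT t).unique h

theorem ht_lt (hT : IsTreeOmega1 T) {s t : T} (h : s < t) : ht hT s < ht hT t := by
  obtain ⟨e⟩ := hasHt_ht hT t
  have := hasHt_of_iso e ⟨s, h⟩
  rw [ht_eq hT this]
  exact (e ⟨s, h⟩).2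

theorem exists_ht_eq (hT : IsTreeOmega1 T) {t : T} {β : W1} (h : β < ht hT t) :
    ∃ s < t, ht hT s = β := by
  obtain ⟨e⟩ := hasHt_ht hT t
  have := hasHt_of_iso e (e.symm ⟨β, h⟩)
  refine ⟨(e.symm ⟨β, h⟩).1, (e.symm ⟨β, h⟩).2, ht_eq hT ?_⟩
  rwa [e.apply_symm_apply] at this

theorem mem_lev_iff (hT : IsTreeOmega1 T) {X : Set W1} {t : T} :
    t ∈ lev T X ↔ ht hT t ∈ X := by
  constructor
  · rintro ⟨α, hα, h⟩
    rwa [ht_eq hT h]
  · intro h
    exact ⟨_, h, hasHt_ht hT t⟩

theorem ht_le_iff (hT : IsTreeOmega1 T) {s s' t : T} (h : s ≤ t) (h' : s' ≤ t) :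
    s ≤ s' ↔ ht hT s ≤ ht hT s' := by
  constructor
  · intro hs
    rcases hs.lt_or_eq with h1 | rfl
    · exact (ht_lt hT h1).le
    · exact le_rfl
  · intro hs
    rcases total_below' hT h h' with h1 | h1
    · exact h1
    · rcases h1.lt_or_eq with h2 | rfl
      · exact absurd (ht_lt hT h2) (not_lt.2 hs)
      · exact le_rfl

theorem isAntichain_ht (hT : IsTreeOmega1 T) (β : W1) :
    IsAntichain (· ≤ ·) {t : T | ht hT t = β} := by
  intro a ha b hb hne hle
  exact absurd (ht_lt hT (lt_of_le_of_ne hle hne)) (by rw [ha, hb]; exact lt_irrefl _)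

theorem isSpecial_ht_le (hT : IsTreeOmega1 T) (β : W1) : IsSpecial {t : T | ht hT t ≤ β} := by
  have := isSpecial_biUnion (U := fun i => {t : T | ht hT t = i}) (countable_Iic β)
    fun i _ => isSpecial_of_isAntichain (isAntichain_ht hT i)
  refine this.mono ?_
  intro t ht'
  simp only [mem_iUnion]
  exact ⟨ht hT t, ht', rfl⟩

end height

/-- stages of closed chains -/
structure Stg {T : Type u} [PartialOrder T] (r : T) (A : Set W1) (g : W1 → T) (i : W1) :
    Prop where
  bot : i = ⊥ → g i = r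
  mem : i ≠ ⊥ → g i ∈ lev T A
  lt : ∀ j < i, g j < g i
  lim : Lim i → ∀ s < g i, ∃ j < i, s ≤ g j

theorem Stg.congr {T : Type u} [PartialOrder T] {r : T} {A : Set W1} {g g' : W1 → T} {i : W1}
    (h : Stg r A g i) (hg : ∀ j ≤ i, g j = g' j) : Stg r A g' i := by
  have e := hg i le_rfl
  refine ⟨fun hi => by rw [← e]; exact h.bot hi, fun hi => by rw [← e]; exact h.mem hi,
    fun j hj => ?_, fun hl s hs => ?_⟩
  · rw [← e, ← hg j hj.le]; exact h.lt j hj
  · rw [← e] at hs
    obtain ⟨j, hj, h1⟩ := h.lim hl s hs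
    exact ⟨j, hj, by rwa [← hg j hj.le]⟩

/-- closed chains in `T ↾ A`, starting at the root, of length `len + 1` -/
@[ext]
structure CN (T : Type u) [PartialOrder T] (r : T) (A : Set W1) where
  len : W1
  g : W1 → T
  g_out : ∀ i, len < i → g i = r
  stage : ∀ i ≤ len, Stg r A g i

namespace CN

variable {T : Type u} [PartialOrder T] {r : T} {A : Set W1}

/-- construction by truncation -/
noncomputable def mk' (len : W1) (g : W1 → T) (h : ∀ i ≤ len, Stg r A g i) : CN T r A := by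
  classical
  exact {
    len := len
    g := fun i => if i ≤ len then g i else r
    g_out := fun i hi => if_neg (not_le.2 hi)
    stage := fun i hi => (h i hi).congr (fun j hj => (if_pos (hj.trans hi)).symm) }

theorem mk'_g {len : W1} {g : W1 → T} (h : ∀ i ≤ len, Stg r A g i) {i : W1} (hi : i ≤ len) :
    (mk' len g h).g i = g i := if_pos hi

instance : PartialOrder (CN T r A) where
  le s t := s.len ≤ t.len ∧ ∀ i ≤ s.len, s.g i = t.g i
  le_refl s := ⟨le_rfl, fun _ _ => rfl⟩
  le_trans s t u h1 h2 := ⟨h1.1.trans h2.1, fun i hi => (h1.2 i hi).trans (h2.2 i (hi.trans h1.1))⟩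
  le_antisymm s t h1 h2 := by
    have hl : s.len = t.len := le_antisymm h1.1 h2.1
    apply CN.ext hl
    funext i
    rcases le_or_gt i s.len with h | h
    · exact h1.2 i h
    · rw [s.g_out i h, t.g_out i (hl ▸ h)]

theorem le_def {s t : CN T r A} : s ≤ t ↔ s.len ≤ t.len ∧ ∀ i ≤ s.len, s.g i = t.g i := Iff.rfl

theorem eq_of_le_of_len {s t : CN T r A} (h : s ≤ t) (hl : s.len = t.len) : s = t :=
  le_antisymm h (le_def.2 ⟨hl.ge, fun i hi => (h.2 i (hl ▸ hi)).symm⟩)

theorem len_lt {s t : CN T r A} (h : s < t) : s.len < t.len :=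
  lt_of_le_of_ne h.le.1 fun e => h.ne (eq_of_le_of_len h.le e)

theorem lt_of_len {s t : CN T r A} (h : s ≤ t) (hl : s.len < t.len) : s < t :=
  lt_of_le_of_ne h fun e => hl.ne (e ▸ rfl)

/-- restriction -/
noncomputable def res (t : CN T r A) (β : W1) (h : β ≤ t.len) : CN T r A :=
  mk' β t.g (fun i hi => t.stage i (hi.trans h))

theorem res_le (t : CN T r A) (β : W1) (h : β ≤ t.len) : t.res β h ≤ t :=
  le_def.2 ⟨h, fun _ hi => mk'_g _ hi⟩

theorem res_len (t : CN T r A) (β : W1) (h : β ≤ t.len) : (t.res β h).len = β := rfl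

theorem eq_res {s t : CN T r A} (h : s ≤ t) : s = t.res s.len h.1 :=
  eq_of_le_of_len (le_def.2 ⟨le_rfl, fun i hi => (h.2 i hi).trans (mk'_g _ hi).symm⟩) rfl

theorem le_of_le_of_len {s s' t : CN T r A} (h : s ≤ t) (h' : s' ≤ t) (hl : s.len ≤ s'.len) :
    s ≤ s' :=
  le_def.2 ⟨hl, fun i hi => (h.2 i hi).trans (h'.2 i (hi.trans hl)).symm⟩

/-- predecessors -/
noncomputable def iioIso (t : CN T r A) : Iio t ≃o Iio t.len where
  toFun s := ⟨s.1.len, len_lt s.2⟩
  invFun β := ⟨t.res β.1 (le_of_lt β.2), lt_of_len (res_le _ _ _) β.2⟩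
  left_inv s := Subtype.ext (eq_res (le_of_lt s.2)).symm
  right_inv β := rfl
  map_rel_iff' := by
    intro a b
    constructor
    · intro h
      exact le_of_le_of_len (le_of_lt a.2) (le_of_lt b.2) h
    · intro h
      exact h.1

theorem hasHt_iff {t : CN T r A} {α : W1} : HasHt t α ↔ t.len = α := by
  constructor
  · intro h
    exact HasHt.unique ⟨t.iioIso⟩ h
  · rintro rfl
    exact ⟨t.iioIso⟩

/-- the trivial chain -/
noncomputable def root (T : Type u) [PartialOrder T] (r : T) (A : Set W1) : CN T r A :=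
  mk' ⊥ (fun _ => r) (fun i hi => by
    have hi' : i = ⊥ := le_bot_iff.1 hi
    refine ⟨fun _ => rfl, fun h => absurd hi' h, fun j hj => absurd (hi' ▸ hj) not_lt_bot,
      fun hl => ?_⟩
    obtain ⟨j, hj⟩ := hl.1
    exact absurd (hi' ▸ hj) not_lt_bot)

theorem root_le (t : CN T r A) : root T r A ≤ t := by
  refine le_def.2 ⟨bot_le, fun i hi => ?_⟩
  have hi' : i = ⊥ := le_bot_iff.1 hi
  subst hi'
  rw [(t.stage ⊥ bot_le).bot rfl]
  exact mk'_g _ le_rfl

/-- the last element of the chain -/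
abbrev top (t : CN T r A) : T := t.g t.len

theorem root_top : (root T r A).top = r := mk'_g _ le_rfl

theorem g_lt {t : CN T r A} {i j : W1} (h : i < j) (hj : j ≤ t.len) : t.g i < t.g j :=
  (t.stage j hj).lt i h

theorem g_le {t : CN T r A} {i j : W1} (h : i ≤ j) (hj : j ≤ t.len) : t.g i ≤ t.g j := by
  rcases h.eq_or_lt with rfl | h
  · exact le_rfl
  · exact (g_lt h hj).le

theorem top_lt {s t : CN T r A} (h : s < t) : s.top < t.top := by
  rw [top, h.le.2 _ le_rfl]
  exact g_lt (len_lt h) le_rfl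

theorem top_le {s t : CN T r A} (h : s ≤ t) : s.top ≤ t.top := by
  rw [top, h.2 _ le_rfl]
  exact g_le h.1 le_rfl

theorem le_ht_g (hT : IsTreeOmega1 T) {t : CN T r A} : ∀ i ≤ t.len, i ≤ ht hT (t.g i) := by
  intro i
  induction i using WellFoundedLT.induction with
  | _ i ih =>
    intro hi
    by_contra hcon
    push Not at hcon
    have h1 := ih _ hcon (hcon.le.trans hi)
    have h2 := ht_lt hT (g_lt hcon hi)
    exact absurd h1 (not_le.2 h2)

theorem not_lim_succ' (i : W1) : ¬ Lim (Order.succ i) := fun h => by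
  obtain ⟨k, hk1, hk2⟩ := h.2 i (Order.lt_succ i)
  exact absurd hk2 (not_lt.2 (Order.succ_le_of_lt hk1))

/-- one more element -/
theorem exists_append (c : CN T r A) (t : T) (ht : t ∈ lev T A) (h : c.top < t) :
    ∃ c' : CN T r A, c ≤ c' ∧ c'.len = Order.succ c.len ∧ c'.top = t := by
  classical
  let g : W1 → T := fun i => if i ≤ c.len then c.g i else t
  have hs : c.len < Order.succ c.len := Order.lt_succ _
  have hst : ∀ i ≤ Order.succ c.len, Stg r A g i := by
    intro i hi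
    rcases le_or_gt i c.len with h1 | h1
    · exact (c.stage i h1).congr (fun j hj => (if_pos (hj.trans h1)).symm)
    · have hi' : i = Order.succ c.len := le_antisymm hi (Order.succ_le_of_lt h1)
      have e1 : g i = t := if_neg (not_le.2 h1)
      refine ⟨fun h0 => ?_, fun _ => by rw [e1]; exact ht, fun j hj => ?_, fun hl => ?_⟩
      · rw [h0] at h1; exact absurd h1 not_lt_bot
      · have hj' : j ≤ c.len := by rw [hi'] at hj; exact Order.lt_succ_iff.1 hj
        have e3 : g j = c.g j := if_pos hj'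
        rw [e1, e3]
        exact (g_le hj' le_rfl).trans_lt h
      · rw [hi'] at hl; exact absurd hl (not_lim_succ' _)
  refine ⟨mk' (Order.succ c.len) g hst, ?_, rfl, ?_⟩
  · refine le_def.2 ⟨hs.le, fun i hi => ?_⟩
    rw [mk'_g hst (hi.trans hs.le)]
    exact (if_pos hi).symm
  · exact (mk'_g hst le_rfl).trans (if_neg (not_le.2 hs))

/-- limits of chains -/
theorem exists_limit (t : T) (ht : t ∈ lev T A) (s : ℕ → CN T r A) (hs : ∀ n, s n < s (n + 1))
    (htop : ∀ n, (s n).top < t) (hcof : ∀ u < t, ∃ n, u ≤ (s n).top) :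
    ∃ c : CN T r A, c.top = t ∧ Lim c.len ∧ (∀ n, s n ≤ c) ∧ (∀ n, (s n).len < c.len) ∧
      ∀ β < c.len, ∃ n, β < (s n).len := by
  classical
  have hsm : StrictMono s := strictMono_nat_of_lt_succ hs
  have hlm : StrictMono fun n => (s n).len :=
    strictMono_nat_of_lt_succ fun n => len_lt (hs n)
  -- the supremum of the lengths
  obtain ⟨b, hb⟩ := exists_gt_of_countable (countable_range fun n => (s n).len)
  have hne : {b : W1 | ∀ n, (s n).len < b}.Nonempty := ⟨b, fun n => hb _ ⟨n, rfl⟩⟩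
  let α := WellFounded.min (wellFounded_lt (α := W1)) _ hne
  have hα : ∀ n, (s n).len < α := WellFounded.min_mem (wellFounded_lt (α := W1)) _ hne
  have hα2 : ∀ β < α, ∃ n, β < (s n).len := by
    intro β hβ
    by_contra hcon
    push Not at hcon
    have h1 : ∀ n, (s n).len < β ∨ (s n).len = β := fun n => (hcon n).lt_or_eq
    have h2 : ∀ n, (s n).len < β := fun n =>
      lt_of_lt_of_le (hlm n.lt_succ_self) (hcon (n + 1))
    exact WellFounded.not_lt_min (wellFounded_lt (α := W1))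
      {b : W1 | ∀ n, (s n).len < b} h2 hβ
  have hlim : Lim α := by
    refine ⟨⟨_, hα 0⟩, fun j hj => ?_⟩
    obtain ⟨n, hn⟩ := hα2 j hj
    exact ⟨_, hn, hα n⟩
  choose! k hk using hα2
  let g : W1 → T := fun i => if i < α then (s (k i)).g i else t
  have hg : ∀ i < α, ∀ n, i ≤ (s n).len → g i = (s n).g i := by
    intro i hi n hn
    have e1 : g i = (s (k i)).g i := if_pos hi
    rw [e1]
    rcases le_total n (k i) with h | h
    · exact ((hsm.monotone h).2 i hn).symm
    · exact (hsm.monotone h).2 i (hk i hi).le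
  have hst : ∀ i ≤ α, Stg r A g i := by
    intro i hi
    rcases hi.lt_or_eq with h | h
    · refine ((s (k i)).stage i (hk i h).le).congr (fun j hj => ?_)
      exact (hg j (hj.trans_lt h) (k i) (hj.trans (hk i h).le)).symm
    · have e1 : g i = t := if_neg (by rw [h]; exact lt_irrefl _)
      refine ⟨fun h0 => ?_, fun _ => by rw [e1]; exact ht, fun j hj => ?_, fun _ u hu => ?_⟩
      · rw [h] at h0
        have := hα 0
        rw [h0] at this
        exact absurd this not_lt_bot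
      · rw [h] at hj
        rw [e1, hg j hj (k j) (hk j hj).le]
        exact (g_le (hk j hj).le le_rfl).trans_lt (htop _)
      · rw [e1] at hu
        obtain ⟨n, hn⟩ := hcof u hu
        refine ⟨(s n).len, by rw [h]; exact hα n, ?_⟩
        rw [hg _ (hα n) n le_rfl]
        exact hn
  refine ⟨mk' α g hst, ?_, hlim, fun n => ?_, hα, fun β hβ => ⟨k β, hk β hβ⟩⟩
  · exact (mk'_g hst le_rfl).trans (if_neg (lt_irrefl _))
  · refine le_def.2 ⟨(hα n).le, fun i hi => ?_⟩
    have hi' : i < α := hi.trans_lt (hα n)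
    rw [mk'_g hst hi'.le]
    exact (hg i hi' n hi).symm

end CN

end Pool.Agent.MP2e4b78
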