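import Mathlib

/-!
# Trees of height `ω₁` and normal ideals on `ω₁`: definitions
-/

open Cardinal Set
open scoped Ordinal

universe u

namespace Pool.Agent.MP2e4b78

/-- the canonical well-ordered set of order type `ω₁` -/
abbrev W1 : Type := (ω_ 1 : Ordinal.{0}).ToType

/-- the canonical well-ordered set of order type `ω₂` -/
abbrev W2 : Type := (ω_ 2 : Ordinal.{0}).ToType

/-- normal ideals on `ω₁`: proper, containing the singletons, closed under diagonal unions -/
structure IsNormalIdeal (I : Set (Set W1)) : Prop where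
  subset_mem : ∀ X Y : Set W1, X ∈ I → Y ⊆ X → Y ∈ I
  union_mem : ∀ X Y : Set W1, X ∈ I → Y ∈ I → X ∪ Y ∈ I
  proper : Set.univ ∉ I
  singleton_mem : ∀ α : W1, {α} ∈ I
  diag_mem : ∀ X : W1 → Set W1, (∀ α, X α ∈ I) → {β : W1 | ∃ α < β, β ∈ X α} ∈ I

section Tree

variable {T : Type u} [PartialOrder T]

/-- `α < ω₁` is the height of `t`: the set of predecessors of `t` has the same order type as the
set of ordinals below `α` -/
def HasHt (t : T) (α : W1) : Prop := Nonempty (Set.Iio t ≃o Set.Iio α)

/-- the restriction `T ↾ X`: the set of nodes whose height belongs to `X` -/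
def lev (T : Type u) [PartialOrder T] (X : Set W1) : Set T := {t | ∃ α ∈ X, HasHt t α}

/-- a set of nodes is special if it is a union of countably many antichains -/
def IsSpecial (U : Set T) : Prop :=
  ∃ A : ℕ → Set T, (∀ n, IsAntichain (· ≤ ·) (A n)) ∧ U = ⋃ n, A n

/-- `B ∈ NS^T`: there is a regressive map on `B` all of whose fibres are special -/
def IsNS (B : Set T) : Prop :=
  ∃ f : T → T, (∀ t ∈ B, (∃ s, s < t) → f t < t) ∧ ∀ s, IsSpecial {t | t ∈ B ∧ f t = s}

end Tree

/-- trees (with a root) of height `ω₁` -/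
structure IsTreeOmega1 (T : Type u) [PartialOrder T] : Prop where
  wellOrdered : ∀ t : T, IsWellOrder (Set.Iio t) (· < ·)
  root : ∃ r : T, ∀ t, r ≤ t
  exists_ht : ∀ t : T, ∃ α : W1, HasHt t α
  level_nonempty : ∀ α : W1, ∃ t : T, HasHt t α

/-- there is a stationary set of ordinals `γ < ω₂` of cofinality `ω` which does not reflect at any
ordinal `γ < ω₂` of cofinality `ω₁` -/
def NonreflectingStationary : Prop :=
  ∃ E : Set W2, (∀ γ ∈ E, Order.cof (Set.Iio γ) = ℵ₀) ∧ IsStationary E ∧
    ∀ γ : W2, Order.cof (Set.Iio γ) = ℵ_ 1 →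
      ¬ IsStationary {x : Set.Iio γ | (x : W2) ∈ E}

/-- Rado's conjecture (Todorcevic's form): a tree of height `ω₁` all of whose subsets of size at
most `ℵ₁` are special is special -/
def RadoConjecture : Prop :=
  ∀ (T : Type u) [PartialOrder T], IsTreeOmega1 T →
    (∀ U : Set T, #U ≤ ℵ_ 1 → IsSpecial U) → IsSpecial (Set.univ : Set T)

/-- Jensen's diamond principle on `ω₁` -/
def Diamond : Prop :=
  ∃ A : W1 → Set W1, ∀ X : Set W1, IsStationary {β : W1 | ∀ α < β, α ∈ A β ↔ α ∈ X}

end Pool.Agent.MP2e4b78
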