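import Pool.Agent.Lib.MP_2e4b78_lc.Basic

/-!
# Normal ideals on `ω₁`
-/

open Cardinal Set Order

namespace Pool.Agent.MP2e4b78

theorem isLUB_of_lim {W : Type*} [LinearOrder W] {i : W} (hi : Lim i) : IsLUB (Iio i) i := by
  refine ⟨fun x hx => le_of_lt hx, fun b hb => ?_⟩
  by_contra h
  push Not at h
  obtain ⟨k, hk1, hk2⟩ := hi.2 b h
  exact absurd (hb hk2) (not_le.2 hk1)

theorem succ_lt_of_lim {i j : W1} (hi : Lim i) (hj : j < i) : Order.succ j < i := by
  obtain ⟨k, hk1, hk2⟩ := hi.2 j hj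
  exact lt_of_le_of_lt (Order.succ_le_of_lt hk1) hk2

theorem iter_succ_lt_of_lim {i : W1} (hi : Lim i) (n : ℕ) : (Order.succ^[n] (⊥ : W1)) < i := by
  induction n with
  | zero =>
    obtain ⟨j, hj⟩ := hi.1
    exact lt_of_le_of_lt bot_le hj
  | succ n ih =>
    rw [Function.iterate_succ_apply']
    exact succ_lt_of_lim hi ih

theorem iter_succ_injective : Function.Injective fun n : ℕ => Order.succ^[n] (⊥ : W1) := by
  have : StrictMono fun n : ℕ => Order.succ^[n] (⊥ : W1) := by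
    refine strictMono_nat_of_lt_succ fun n => ?_
    simp only [Function.iterate_succ_apply']
    exact Order.lt_succ _
  exact this.injective

theorem not_lim_eq {β : W1} (h : ¬ Lim β) : β = ⊥ ∨ ∃ α < β, β = Order.succ α := by
  rcases lim_or β with h1 | ⟨α, hα, h1⟩ | h1
  · exact Or.inl (le_bot_iff.1 (h1 ⊥))
  · right
    refine ⟨α, hα, le_antisymm ?_ (Order.succ_le_of_lt hα)⟩
    exact h1 _ (Order.lt_succ α)
  · exact absurd h1 h

namespace IsNormalIdeal

variable {I : Set (Set W1)} (hI : IsNormalIdeal I)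

include hI

theorem empty_mem : (∅ : Set W1) ∈ I :=
  hI.subset_mem _ _ (hI.singleton_mem ⊥) (empty_subset _)

theorem nonlimits_mem : {β : W1 | ¬ Lim β} ∈ I := by
  have h1 := hI.diag_mem (fun α => {Order.succ α}) (fun α => hI.singleton_mem _)
  have h2 := hI.union_mem _ _ h1 (hI.singleton_mem ⊥)
  refine hI.subset_mem _ _ h2 ?_
  intro β hβ
  rcases not_lim_eq hβ with h | ⟨α, hα, h⟩
  · right; exact h
  · left; exact ⟨α, hα, h⟩

theorem iUnion_mem (X : ℕ → Set W1) (hX : ∀ n, X n ∈ I) : (⋃ n, X n) ∈ I := by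
  classical
  let Y : W1 → Set W1 := fun α =>
    if h : ∃ n : ℕ, Order.succ^[n] (⊥ : W1) = α then X h.choose else ∅
  have hY : ∀ α, Y α ∈ I := by
    intro α
    by_cases h : ∃ n : ℕ, Order.succ^[n] (⊥ : W1) = α
    · simp only [Y, h, dite_true]
      exact hX _
    · simp only [Y, h, dite_false]
      exact hI.empty_mem
  have hYn : ∀ n : ℕ, Y (Order.succ^[n] (⊥ : W1)) = X n := by
    intro n
    have h : ∃ m : ℕ, Order.succ^[m] (⊥ : W1) = Order.succ^[n] (⊥ : W1) := ⟨n, rfl⟩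
    simp only [Y, h, dite_true]
    have := iter_succ_injective h.choose_spec
    rw [this]
  have h2 := hI.union_mem _ _ (hI.diag_mem Y hY) hI.nonlimits_mem
  refine hI.subset_mem _ _ h2 ?_
  intro β hβ
  obtain ⟨n, hn⟩ := mem_iUnion.1 hβ
  by_cases hl : Lim β
  · left
    refine ⟨_, iter_succ_lt_of_lim hl n, ?_⟩
    rw [hYn]; exact hn
  · right; exact hl

theorem countable_mem {s : Set W1} (hs : s.Countable) : s ∈ I := by
  rcases s.eq_empty_or_nonempty with rfl | hne
  · exact hI.empty_mem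
  · obtain ⟨g, hg⟩ := hs.exists_eq_range hne
    have := hI.iUnion_mem (fun n => {g n}) (fun n => hI.singleton_mem _)
    refine hI.subset_mem _ _ this ?_
    rw [hg]
    rintro _ ⟨n, rfl⟩
    exact mem_iUnion.2 ⟨n, rfl⟩

theorem compl_club_mem {C : Set W1} (hC : IsClub C) : Cᶜ ∈ I := by
  have hX : ∀ α : W1, {β : W1 | ∀ x ∈ C, α < x → β < x} ∈ I := by
    intro α
    obtain ⟨b, hb⟩ := exists_gt α
    obtain ⟨c, hc, hbc⟩ := hC.isCofinal b
    refine hI.countable_mem ((countable_Iio c).mono fun β hβ => ?_)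
    exact hβ c hc (hb.trans_le hbc)
  have h2 := hI.union_mem _ _ (hI.diag_mem _ hX) hI.nonlimits_mem
  refine hI.subset_mem _ _ h2 ?_
  intro β hβ
  by_cases hl : Lim β
  · left
    by_contra hcon
    apply hβ
    -- `β` is the supremum of `C ∩ Iio β`
    have h3 : ∀ α < β, ∃ x ∈ C, α < x ∧ x < β := by
      intro α hα
      by_contra h4
      push Not at h4
      apply hcon
      refine ⟨α, hα, fun x hx hαx => ?_⟩
      rcases lt_or_eq_of_le (h4 x hx hαx) with h | h
      · exact h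
      · exact absurd (h ▸ hx) hβ
    obtain ⟨j, hj⟩ := hl.1
    obtain ⟨x0, hx0, hx1, hx2⟩ := h3 j hj
    refine hC.isLUB_mem (t := C ∩ Iio β) inter_subset_left ⟨x0, hx0, hx2⟩ ?_
    refine ⟨fun x hx => le_of_lt hx.2, fun b hb => ?_⟩
    by_contra h5
    push Not at h5
    obtain ⟨x, hx, hx3, hx4⟩ := h3 b h5
    exact absurd (hb ⟨hx, hx4⟩) (not_le.2 hx3)
  · right; exact hl

theorem nonempty_of_not_mem {S C Y : Set W1} (hS : S ∉ I) (hC : IsClub C) (hY : Y ∈ I) :
    ∃ δ ∈ S, δ ∈ C ∧ δ ∉ Y := by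
  by_contra h
  push Not at h
  apply hS
  refine hI.subset_mem _ _ (hI.union_mem _ _ (hI.compl_club_mem hC) hY) ?_
  intro δ hδ
  by_cases hc : δ ∈ C
  · right; exact h δ hδ hc
  · left; exact hc

end IsNormalIdeal

end Pool.Agent.MP2e4b78
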