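import Pool.Agent.Lib.MP_2e4b78_lc.Special
import Pool.Agent.Lib.MP_2e4b78_lc.Ideal

/-!
# The ideal `NS^T` is normal; generic nodes
-/

open Cardinal Set Order

universe u v

namespace Pool.Agent.MP2e4b78

section

variable {T : Type u} [PartialOrder T]

theorem IsSpecial.isNS (hT : IsTreeOmega1 T) {B : Set T} (h : IsSpecial B) : IsNS B := by
  obtain ⟨r, hr⟩ := hT.root
  refine ⟨fun _ => r, fun t _ ⟨s, hs⟩ => lt_of_le_of_lt (hr s) hs, fun s => h.mono ?_⟩
  exact fun t ht => ht.1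

theorem IsNS.iUnion_nat {B : ℕ → Set T} (h : ∀ n, IsNS (B n)) : IsNS (⋃ n, B n) := by
  classical
  choose f hf hs using h
  have hn : ∀ t, ∃ n, t ∈ (⋃ n, B n) → t ∈ B n := by
    intro t
    by_cases ht : t ∈ ⋃ n, B n
    · obtain ⟨n, hn⟩ := mem_iUnion.1 ht
      exact ⟨n, fun _ => hn⟩
    · exact ⟨0, fun h => absurd h ht⟩
  choose n hn using hn
  refine ⟨fun t => f (n t) t, fun t ht hs => hf _ t (hn t ht) hs, fun s => ?_⟩
  refine (isSpecial_iUnion_nat fun m => hs m s).mono ?_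
  rintro t ⟨ht, hts⟩
  exact mem_iUnion.2 ⟨n t, hn t ht, hts⟩

theorem IsNS.iUnion {ι : Sort*} [Countable ι] {B : ι → Set T} (h : ∀ i, IsNS (B i)) :
    IsNS (⋃ i, B i) := by
  rcases isEmpty_or_nonempty ι with hi | hi
  · simp only [iUnion_of_empty]
    exact ⟨id, fun t ht => absurd ht (notMem_empty t), fun s =>
      (isSpecial_of_isAntichain (Set.subsingleton_empty.isAntichain _)).mono fun t ht => ht.1⟩
  · obtain ⟨g, hg⟩ := exists_surjective_nat ι
    have : (⋃ i, B i) = ⋃ n, B (g n) := (hg.iUnion_comp B).symm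
    rw [this]
    exact IsNS.iUnion_nat fun n => h _

theorem IsNS.biUnion {ι : Type*} {s : Set ι} (hs : s.Countable) {B : ι → Set T}
    (h : ∀ i ∈ s, IsNS (B i)) : IsNS (⋃ i ∈ s, B i) := by
  have := hs.to_subtype
  rw [biUnion_eq_iUnion]
  exact IsNS.iUnion fun i => h i i.2

theorem countable_Iio_node (hT : IsTreeOmega1 T) (t : T) : (Iio t).Countable := by
  obtain ⟨α, ⟨e⟩⟩ := hT.exists_ht t
  have := (countable_Iio α).to_subtype
  exact countable_coe_iff.1 (Countable.of_equiv _ e.toEquiv.symm)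

theorem countable_Iic_node (hT : IsTreeOmega1 T) (t : T) : (Iic t).Countable := by
  have : Iic t = insert t (Iio t) := by
    ext x
    simp [le_iff_eq_or_lt]
  rw [this]
  exact (countable_Iio_node hT t).insert _

theorem total_below (hT : IsTreeOmega1 T) {t a b : T} (ha : a < t) (hb : b < t) :
    a ≤ b ∨ b ≤ a := by
  have := hT.wellOrdered t
  rcases trichotomous_of (fun x y : Iio t => x < y) ⟨a, ha⟩ ⟨b, hb⟩ with h | h | h
  · exact Or.inl (le_of_lt h)
  · exact Or.inl (le_of_eq (congrArg Subtype.val h))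
  · exact Or.inr (le_of_lt h)

theorem total_below' (hT : IsTreeOmega1 T) {t a b : T} (ha : a ≤ t) (hb : b ≤ t) :
    a ≤ b ∨ b ≤ a := by
  rcases ha.lt_or_eq with ha' | rfl
  · rcases hb.lt_or_eq with hb' | rfl
    · exact total_below hT ha' hb'
    · exact Or.inl ha
  · exact Or.inr hb

/-- `NS^T` is closed under diagonal unions -/
theorem IsNS.diag (hT : IsTreeOmega1 T) {B : T → Set T} (h : ∀ s, IsNS (B s)) :
    IsNS {t | ∃ s < t, t ∈ B s} := by
  classical
  choose f hf hs using h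
  have hsel : ∀ t, ∃ s, (∃ s < t, t ∈ B s) → s < t ∧ t ∈ B s := by
    intro t
    by_cases ht : ∃ s < t, t ∈ B s
    · obtain ⟨s, hs1, hs2⟩ := ht
      exact ⟨s, fun _ => ⟨hs1, hs2⟩⟩
    · exact ⟨t, fun h => absurd h ht⟩
  choose σ hσ using hsel
  let g : T → T := fun t => if σ t ≤ f (σ t) t then f (σ t) t else σ t
  refine ⟨g, ?_, ?_⟩
  · intro t ht hmin
    obtain ⟨h1, h2⟩ := hσ t ht
    by_cases h3 : σ t ≤ f (σ t) t
    · simp only [g, h3, if_true]
      exact hf _ t h2 hmin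
    · simp only [g, h3, if_false]
      exact h1
  · intro r
    have hc := countable_Iic_node hT r
    have S : IsSpecial (⋃ s ∈ Iic r, ⋃ r' ∈ Iic r, {t | t ∈ B s ∧ f s t = r'}) :=
      isSpecial_biUnion hc fun s _ => isSpecial_biUnion hc fun r' _ => hs s r'
    refine S.mono ?_
    rintro t ⟨ht, htr⟩
    obtain ⟨h1, h2⟩ := hσ t ht
    have h4 := hf _ t h2 ⟨_, h1⟩
    have h5 : σ t ≤ r ∧ f (σ t) t ≤ r := by
      rw [← htr]
      by_cases h3 : σ t ≤ f (σ t) t
      · simp only [g, h3, if_true]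
        exact ⟨trivial, le_rfl⟩
      · simp only [g, h3, if_false]
        exact ⟨le_rfl, (total_below hT h1 h4).resolve_left h3⟩
    exact mem_iUnion₂.2 ⟨σ t, h5.1, mem_iUnion₂.2 ⟨_, h5.2, h2, rfl⟩⟩

/-- nodes of limit height -/
def LimNode (t : T) : Prop := (∃ s, s < t) ∧ ∀ s < t, ∃ s', s < s' ∧ s' < t

theorem isNS_not_limNode : IsNS {t : T | ¬ LimNode t} := by
  classical
  have hsel : ∀ t : T, ∃ s, ¬ LimNode t → (∃ s, s < t) → s < t ∧ ∀ s', s < s' → ¬ s' < t := by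
    intro t
    by_cases ht : ¬ LimNode t ∧ ∃ s, s < t
    · obtain ⟨h1, h2⟩ := ht
      unfold LimNode at h1
      push Not at h1
      obtain ⟨s, hs1, hs2⟩ := h1 h2
      exact ⟨s, fun _ _ => ⟨hs1, hs2⟩⟩
    · exact ⟨t, fun h1 h2 => absurd ⟨h1, h2⟩ ht⟩
  choose f hf using hsel
  refine ⟨f, fun t ht hs => (hf t ht hs).1, fun s => ?_⟩
  have S1 : IsSpecial {t : T | s < t ∧ ∀ s', s < s' → ¬ s' < t} := by
    refine isSpecial_of_isAntichain ?_
    intro a ha b hb hne hle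
    exact hb.2 a ha.1 (lt_of_le_of_ne hle hne)
  have S2 : IsSpecial {t : T | ¬ ∃ s, s < t} := by
    refine isSpecial_of_isAntichain ?_
    intro a _ b hb hne hle
    exact hb ⟨a, lt_of_le_of_ne hle hne⟩
  refine (S1.union S2).mono ?_
  rintro t ⟨ht, hts⟩
  by_cases h : ∃ s, s < t
  · left
    have := hf t ht h
    rwa [hts] at this
  · right; exact h

/-! ### closures in arbitrary universes -/

section closure

variable {U : Type v} {K : Type} (F : K → U → U → U)

/-- the closure of a set under a family of binary functions -/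
inductive GCl (A : Set U) : U → Prop
  | base : ∀ a, a ∈ A → GCl A a
  | step : ∀ k a b, GCl A a → GCl A b → GCl A (F k a b)

variable {F}

theorem GCl.mono {A B : Set U} (h : A ⊆ B) {x : U} (hx : GCl F A x) : GCl F B x := by
  induction hx with
  | base a ha => exact .base a (h ha)
  | step k a b _ _ iha ihb => exact .step k a b iha ihb

theorem GCl.iUnion {J : Type*} [Nonempty J] {A : J → Set U}
    (hA : ∀ i j, ∃ k, A i ⊆ A k ∧ A j ⊆ A k) {x : U} (hx : GCl F (⋃ j, A j) x) :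
    ∃ j, GCl F (A j) x := by
  induction hx with
  | base a ha =>
    obtain ⟨j, hj⟩ := mem_iUnion.1 ha
    exact ⟨j, .base a hj⟩
  | step k a b _ _ iha ihb =>
    obtain ⟨i, hi⟩ := iha
    obtain ⟨j, hj⟩ := ihb
    obtain ⟨l, h1, h2⟩ := hA i j
    exact ⟨l, .step k a b (hi.mono h1) (hj.mono h2)⟩

variable (F) in
/-- layers of the closure -/
def glayer (A : Set U) : ℕ → Set U
  | 0 => A
  | n + 1 => glayer A n ∪ ⋃ k, (fun p : U × U => F k p.1 p.2) '' (glayer A n ×ˢ glayer A n)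

theorem glayer_mono (A : Set U) : Monotone (glayer F A) :=
  monotone_nat_of_le_succ fun _ => subset_union_left

theorem gcl_subset_layer (A : Set U) {x : U} (hx : GCl F A x) : ∃ n, x ∈ glayer F A n := by
  induction hx with
  | base a ha => exact ⟨0, ha⟩
  | step k a b _ _ iha ihb =>
    obtain ⟨i, hi⟩ := iha
    obtain ⟨j, hj⟩ := ihb
    refine ⟨max i j + 1, Or.inr (mem_iUnion.2 ⟨k, (a, b), ⟨?_, ?_⟩, rfl⟩)⟩
    · exact glayer_mono A (le_max_left _ _) hi
    · exact glayer_mono A (le_max_right _ _) hj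

theorem countable_gcl [Countable K] {A : Set U} (hA : A.Countable) :
    {x | GCl F A x}.Countable := by
  have hl : ∀ n, (glayer F A n).Countable := by
    intro n
    induction n with
    | zero => exact hA
    | succ n ih => exact ih.union (countable_iUnion fun k => (ih.prod ih).image _)
  refine (countable_iUnion hl).mono fun x hx => ?_
  obtain ⟨n, hn⟩ := gcl_subset_layer A hx
  exact mem_iUnion.2 ⟨n, hn⟩

end closure

/-- existence of generic nodes -/
theorem exists_generic (hT : IsTreeOmega1 T) {B : Set T} (hB : ¬ IsNS B) {U : Type v} {K : Type}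
    [Countable K] (F : K → U → U → U) (A₀ : Set U) (hA₀ : A₀.Countable) (o : T → U)
    (Z : U → U → Set T) (hZ : ∀ a b, IsNS (Z a b)) :
    ∃ t ∈ B, LimNode t ∧ ∀ a b, GCl F (A₀ ∪ o '' Iio t) a → GCl F (A₀ ∪ o '' Iio t) b →
      t ∉ Z a b := by
  classical
  let N : T → Set U := fun s => {x | GCl F (A₀ ∪ o '' Iic s) x}
  have hN : ∀ s, (N s).Countable := fun s =>
    countable_gcl (hA₀.union ((countable_Iic_node hT s).image _))
  have hbad : IsNS {t | ∃ s < t, t ∈ ⋃ a ∈ N s, ⋃ b ∈ N s, Z a b} :=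
    IsNS.diag hT fun s => IsNS.biUnion (hN s) fun a _ => IsNS.biUnion (hN s) fun b _ => hZ a b
  have hnot : ∃ t ∈ B, ¬ (t ∈ {t : T | ¬ LimNode t} ∪
      {t | ∃ s < t, t ∈ ⋃ a ∈ N s, ⋃ b ∈ N s, Z a b}) := by
    by_contra hcon
    push Not at hcon
    exact hB ((isNS_not_limNode.union hbad).mono hcon)
  obtain ⟨t, htB, ht⟩ := hnot
  have ht1 : LimNode t := by
    by_contra h
    exact ht (Or.inl h)
  refine ⟨t, htB, ht1, ?_⟩
  intro a b ha hb hab
  apply ht
  right
  have hne : Nonempty (Iio t) := by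
    obtain ⟨s, hs⟩ := ht1.1
    exact ⟨⟨s, hs⟩⟩
  have hcov : A₀ ∪ o '' Iio t ⊆ ⋃ s : Iio t, (A₀ ∪ o '' Iic s.1) := by
    rintro x (hx | ⟨s, hs, rfl⟩)
    · exact mem_iUnion.2 ⟨Classical.arbitrary _, Or.inl hx⟩
    · exact mem_iUnion.2 ⟨⟨s, hs⟩, Or.inr ⟨s, le_rfl, rfl⟩⟩
  have hdir : ∀ i j : Iio t, ∃ k : Iio t, A₀ ∪ o '' Iic i.1 ⊆ A₀ ∪ o '' Iic k.1 ∧
      A₀ ∪ o '' Iic j.1 ⊆ A₀ ∪ o '' Iic k.1 := by
    intro i j
    rcases total_below hT i.2 j.2 with h | h
    · exact ⟨j, union_subset_union_right _ (image_mono (Iic_subset_Iic.2 h)), Subset.rfl⟩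
    · exact ⟨i, Subset.rfl, union_subset_union_right _ (image_mono (Iic_subset_Iic.2 h))⟩
  obtain ⟨i, hi⟩ := GCl.iUnion hdir (ha.mono hcov)
  obtain ⟨j, hj⟩ := GCl.iUnion hdir (hb.mono hcov)
  obtain ⟨k, hk1, hk2⟩ := hdir i j
  exact ⟨k.1, k.2, mem_iUnion₂.2 ⟨a, hi.mono hk1, mem_iUnion₂.2 ⟨b, hj.mono hk2, hab⟩⟩⟩

/-- minimal elements of a set of nodes form a small set -/
theorem isNS_minimal (hT : IsTreeOmega1 T) (Y : Set T) :
    IsNS {t | t ∈ Y ∧ ∀ s < t, s ∉ Y} := by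
  refine (isSpecial_of_isAntichain ?_).isNS hT
  intro a ha b hb hne hle
  exact hb.2 a (lt_of_le_of_ne hle hne) ha.1

end

end Pool.Agent.MP2e4b78
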