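import Pool.Agent.Lib.MP_2e4b78_lc.Ideal

/-!
# Countable hulls
-/

open Cardinal Set Order

namespace Pool.Agent.MP2e4b78

section closure

variable {U : Type} {K : Type} (F : K → U → U → U)

/-- the closure of a set under a family of binary functions -/
inductive Cl (A : Set U) : U → Prop
  | base : ∀ a, a ∈ A → Cl A a
  | step : ∀ k a b, Cl A a → Cl A b → Cl A (F k a b)

variable {F}

theorem Cl.le {A B : Set U} (h : ∀ a ∈ A, Cl F B a) {x : U} (hx : Cl F A x) : Cl F B x := by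
  induction hx with
  | base a ha => exact h a ha
  | step k a b _ _ iha ihb => exact .step k a b iha ihb

theorem Cl.mono {A B : Set U} (h : A ⊆ B) {x : U} (hx : Cl F A x) : Cl F B x :=
  Cl.le (fun a ha => .base a (h ha)) hx

theorem Cl.iUnion {J : Type*} [LinearOrder J] [Nonempty J] {A : J → Set U} (hA : Monotone A)
    {x : U} (hx : Cl F (⋃ j, A j) x) : ∃ j, Cl F (A j) x := by
  induction hx with
  | base a ha =>
    obtain ⟨j, hj⟩ := mem_iUnion.1 ha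
    exact ⟨j, .base a hj⟩
  | step k a b _ _ iha ihb =>
    obtain ⟨i, hi⟩ := iha
    obtain ⟨j, hj⟩ := ihb
    exact ⟨max i j, .step k a b (hi.mono (hA (le_max_left _ _))) (hj.mono (hA (le_max_right _ _)))⟩

variable (F) in
/-- layers of the closure -/
def layer (A : Set U) : ℕ → Set U
  | 0 => A
  | n + 1 => layer A n ∪ ⋃ k, (fun p : U × U => F k p.1 p.2) '' (layer A n ×ˢ layer A n)

theorem layer_mono (A : Set U) : Monotone (layer F A) :=
  monotone_nat_of_le_succ fun _ => subset_union_left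

theorem cl_subset_layer (A : Set U) {x : U} (hx : Cl F A x) : ∃ n, x ∈ layer F A n := by
  induction hx with
  | base a ha => exact ⟨0, ha⟩
  | step k a b _ _ iha ihb =>
    obtain ⟨i, hi⟩ := iha
    obtain ⟨j, hj⟩ := ihb
    refine ⟨max i j + 1, Or.inr (mem_iUnion.2 ⟨k, (a, b), ⟨?_, ?_⟩, rfl⟩)⟩
    · exact layer_mono A (le_max_left _ _) hi
    · exact layer_mono A (le_max_right _ _) hj

theorem mk_cl_le [Countable K] (A : Set U) {κ : Cardinal.{0}} (hκ : ℵ₀ ≤ κ) (hA : #A ≤ κ) :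
    #{x | Cl F A x} ≤ κ := by
  have hl : ∀ n, #(layer F A n) ≤ κ := by
    intro n
    induction n with
    | zero => exact hA
    | succ n ih =>
      have h1 : ∀ k, #((fun p : U × U => F k p.1 p.2) '' (layer F A n ×ˢ layer F A n)) ≤ κ := by
        intro k
        refine mk_image_le.trans ?_
        rw [Cardinal.mk_setProd]
        calc #(layer F A n) * #(layer F A n) ≤ κ * κ := mul_le_mul' ih ih
          _ = κ := Cardinal.mul_eq_self hκ
      have h2 : #(⋃ k, (fun p : U × U => F k p.1 p.2) '' (layer F A n ×ˢ layer F A n) : Set U)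
          ≤ κ := by
        refine (Cardinal.mk_iUnion_le _).trans ?_
        have h3 : #K ≤ κ := (Cardinal.mk_le_aleph0).trans hκ
        calc _ ≤ κ * κ := mul_le_mul' h3 (ciSup_le' h1)
          _ = κ := Cardinal.mul_eq_self hκ
      refine (Cardinal.mk_union_le _ _).trans ?_
      calc _ ≤ κ + κ := add_le_add ih h2
        _ = κ := Cardinal.add_eq_self hκ
  have hsub : {x | Cl F A x} ⊆ ⋃ n, layer F A n := fun x hx => by
    obtain ⟨n, hn⟩ := cl_subset_layer A hx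
    exact mem_iUnion.2 ⟨n, hn⟩
  refine (Cardinal.mk_le_mk_of_subset hsub).trans ?_
  refine (Cardinal.mk_iUnion_le _).trans ?_
  calc _ ≤ κ * κ := mul_le_mul' ((Cardinal.mk_le_aleph0).trans hκ) (ciSup_le' hl)
    _ = κ := Cardinal.mul_eq_self hκ

theorem countable_cl [Countable K] {A : Set U} (hA : A.Countable) : {x | Cl F A x}.Countable := by
  rw [← le_aleph0_iff_set_countable]
  exact mk_cl_le A le_rfl (le_aleph0_iff_set_countable.2 hA)

end closure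

/-- countable hulls `N` with `N ∩ ω₁ = δ ∈ S` good for the ideal and `sup (N ∩ ω₂) ∈ E` -/
theorem exists_hull {U : Type} (o1 : W1 → U) (h1 : Function.Injective o1) (o2 : W2 → U)
    (h2 : Function.Injective o2) {K : Type} [Countable K] (F : K → U → U → U) (A₀ : Set U)
    (hA₀ : A₀.Countable) {I : Set (Set W1)} (hI : IsNormalIdeal I) (Xs : W2 → Set W1)
    (hXs : ∀ ξ, Xs ξ ∈ I) (E : Set W2) (hE : IsStationary E) (hEl : ∀ γ ∈ E, Lim γ)
    (c : W2 → ℕ → W2) (hc : ∀ γ ∈ E, ∀ n, c γ n < γ) (S : Set W1) (hS : S ∉ I) :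
    ∃ (N : Set U) (δ : W1) (γ : W2), N.Countable ∧ A₀ ⊆ N ∧
      (∀ k a b, a ∈ N → b ∈ N → F k a b ∈ N) ∧ δ ∈ S ∧ Lim δ ∧ (∀ β, o1 β ∈ N ↔ β < δ) ∧
      γ ∈ E ∧ (∀ η, o2 η ∈ N → η < γ) ∧ (∀ n, o2 (c γ n) ∈ N) ∧
      (∀ ξ, o2 ξ ∈ N → δ ∉ Xs ξ) := by
  classical
  -- hulls of size `ℵ₁`
  let G : W2 → Set U := fun γ => A₀ ∪ range o1 ∪ o2 '' Iio γ
  have hG : Monotone G := fun γ γ' h => by
    refine union_subset_union_right _ (image_mono ?_)
    exact Iio_subset_Iio h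
  have hGc : ∀ γ, #(G γ) ≤ ℵ_ 1 := by
    intro γ
    have e1 : #A₀ ≤ ℵ_ 1 := (le_aleph0_iff_set_countable.2 hA₀).trans
      Cardinal.aleph0_lt_aleph_one.le
    have e2 : #(range o1) ≤ ℵ_ 1 := mk_range_le.trans mk_W1.le
    have e3 : #(o2 '' Iio γ) ≤ ℵ_ 1 := mk_image_le.trans (mk_Iio_W2 γ)
    have hal : ℵ₀ ≤ (ℵ_ 1 : Cardinal.{0}) := Cardinal.aleph0_le_aleph 1
    refine (Cardinal.mk_union_le _ _).trans ?_
    refine (add_le_add ((Cardinal.mk_union_le _ _).trans (add_le_add e1 e2)) e3).trans ?_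
    rw [Cardinal.add_eq_self hal, Cardinal.add_eq_self hal]
  let H : W2 → Set U := fun γ => {x | Cl F (G γ) x}
  have hHc : ∀ γ, #(H γ) ≤ ℵ_ 1 := fun γ =>
    mk_cl_le _ (Cardinal.aleph0_le_aleph 1) (hGc γ)
  have hb : ∀ γ, ∃ b, ∀ η, o2 η ∈ H γ → η < b := by
    intro γ
    have : #(o2 ⁻¹' H γ) ≤ ℵ_ 1 := (Cardinal.mk_preimage_of_injective _ _ h2).trans (hHc γ)
    obtain ⟨b, hb⟩ := exists_gt_of_mk_le this
    exact ⟨b, fun η hη => hb η hη⟩
  choose b hb using hb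
  obtain ⟨γ, hγE, hγb⟩ := hE (isClub_closurePoints₂ b)
  have hγl := hEl γ hγE
  have hHγ : ∀ η, o2 η ∈ H γ → η < γ := by
    intro η hη
    have hne : Nonempty (Iio γ) := by
      obtain ⟨j, hj⟩ := hγl.1
      exact ⟨⟨j, hj⟩⟩
    have hcov : G γ ⊆ ⋃ x : Iio γ, G x.1 := by
      rintro u (hu | ⟨y, hy, rfl⟩)
      · exact mem_iUnion.2 ⟨Classical.arbitrary _, Or.inl hu⟩
      · obtain ⟨z, hz1, hz2⟩ := hγl.2 y hy
        exact mem_iUnion.2 ⟨⟨z, hz2⟩, Or.inr ⟨y, hz1, rfl⟩⟩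
    have h3 : Cl F (⋃ x : Iio γ, G x.1) (o2 η) := Cl.mono hcov hη
    obtain ⟨x, hx⟩ := Cl.iUnion (J := Iio γ) (A := fun x => G x.1) (fun a b hab => hG hab) h3
    exact (hb x.1 η hx).trans (hγb _ x.2)
  -- enumeration of the hull
  have hu : ∃ u : W1 → U, range u = H γ := by
    have hle : #(H γ) ≤ #W1 := (hHc γ).trans mk_W1.ge
    obtain ⟨g⟩ := Cardinal.le_def _ _ |>.1 hle
    have hne : Nonempty (H γ) := ⟨⟨o1 ⊥, .base _ (Or.inl (Or.inr ⟨⊥, rfl⟩))⟩⟩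
    refine ⟨fun i => (Function.invFun g i : H γ), ?_⟩
    ext x
    constructor
    · rintro ⟨i, rfl⟩
      exact (Function.invFun g i : H γ).2
    · intro hx
      exact ⟨g ⟨x, hx⟩, congrArg Subtype.val (Function.leftInverse_invFun g.injective ⟨x, hx⟩)⟩
  obtain ⟨u, hu⟩ := hu
  let A : W1 → Set U := fun i => A₀ ∪ range (fun n => o2 (c γ n)) ∪ u '' Iio i ∪ o1 '' Iio i
  have hA : Monotone A := fun i j h => by
    refine union_subset_union (union_subset_union_right _ (image_mono ?_)) (image_mono ?_)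
    · exact Iio_subset_Iio h
    · exact Iio_subset_Iio h
  have hAc : ∀ i, (A i).Countable := fun i =>
    ((hA₀.union (countable_range _)).union ((countable_Iio i).image _)).union
      ((countable_Iio i).image _)
  let N : W1 → Set U := fun i => {x | Cl F (A i) x}
  have hNc : ∀ i, (N i).Countable := fun i => countable_cl (hAc i)
  have hNH : ∀ i, N i ⊆ H γ := by
    intro i x hx
    refine Cl.le ?_ hx
    rintro a (((ha | ⟨n, rfl⟩) | ⟨j, _, rfl⟩) | ⟨j, _, rfl⟩)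
    · exact .base _ (Or.inl (Or.inl ha))
    · exact .base _ (Or.inr ⟨_, hc γ hγE n, rfl⟩)
    · have : u j ∈ H γ := by rw [← hu]; exact ⟨j, rfl⟩
      exact this
    · exact .base _ (Or.inl (Or.inr ⟨j, rfl⟩))
  have hg : ∀ i, ∃ g, (∀ x ∈ N i, ∃ j < g, u j = x) ∧ ∀ β, o1 β ∈ N i → β < g := by
    intro i
    have hj : ∀ x, ∃ j, x ∈ N i → u j = x := by
      intro x
      by_cases hx : x ∈ N i
      · have : x ∈ range u := by rw [hu]; exact hNH i hx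
        obtain ⟨j, hj⟩ := this
        exact ⟨j, fun _ => hj⟩
      · exact ⟨⊥, fun h => absurd h hx⟩
    choose J hJ using hj
    obtain ⟨g, hg⟩ := exists_gt_of_countable
      (((hNc i).image J).union ((hNc i).preimage h1))
    refine ⟨g, fun x hx => ⟨J x, hg _ (Or.inl ⟨x, hx, rfl⟩), hJ x hx⟩, fun β hβ => ?_⟩
    exact hg _ (Or.inr hβ)
  choose g hg1 hg2 using hg
  -- the bad set
  let Z : W1 → Set W1 := fun j => {β' | ∃ ξ, u j = o2 ξ ∧ β' ∈ Xs ξ}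
  have hZ : ∀ j, Z j ∈ I := by
    intro j
    by_cases h : ∃ ξ, u j = o2 ξ
    · obtain ⟨ξ, hξ⟩ := h
      refine hI.subset_mem _ _ (hXs ξ) ?_
      rintro β' ⟨ξ', hξ', hβ'⟩
      rw [hξ] at hξ'
      rwa [h2 hξ']
    · refine hI.subset_mem _ _ hI.empty_mem ?_
      rintro β' ⟨ξ', hξ', _⟩
      exact absurd ⟨ξ', hξ'⟩ h
  have hclub : IsClub ({δ : W1 | ∀ x < δ, g x < δ} ∩ {δ : W1 | ∀ x < δ, Order.succ x < δ}) :=
    (isClub_closurePoints₁ g).inter cof_W1_ne (isClub_closurePoints₁ _)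
  obtain ⟨δ, hδS, ⟨hδ1, hδ2⟩, hδY⟩ := hI.nonempty_of_not_mem hS hclub
    (hI.union_mem _ _ (hI.diag_mem Z hZ) (hI.singleton_mem ⊥))
  have hδY1 : ¬ ∃ α < δ, δ ∈ Z α := fun h => hδY (Or.inl h)
  have hδ0 : δ ≠ ⊥ := fun h => hδY (Or.inr h)
  have hδl : Lim δ := by
    refine ⟨⟨⊥, bot_lt_iff_ne_bot.2 hδ0⟩, fun j hj => ⟨Order.succ j, Order.lt_succ j, hδ2 j hj⟩⟩
  have hlim : ∀ x, x ∈ N δ → ∃ i < δ, x ∈ N i := by
    intro x hx
    have hne : Nonempty (Iio δ) := ⟨⟨⊥, bot_lt_iff_ne_bot.2 hδ0⟩⟩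
    have hcov : A δ ⊆ ⋃ i : Iio δ, A i.1 := by
      rintro a (((ha | ha) | ⟨j, hj, rfl⟩) | ⟨j, hj, rfl⟩)
      · exact mem_iUnion.2 ⟨Classical.arbitrary _, Or.inl (Or.inl (Or.inl ha))⟩
      · exact mem_iUnion.2 ⟨Classical.arbitrary _, Or.inl (Or.inl (Or.inr ha))⟩
      · exact mem_iUnion.2 ⟨⟨Order.succ j, hδ2 j hj⟩,
          Or.inl (Or.inr ⟨j, Order.lt_succ j, rfl⟩)⟩
      · exact mem_iUnion.2 ⟨⟨Order.succ j, hδ2 j hj⟩, Or.inr ⟨j, Order.lt_succ j, rfl⟩⟩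
    obtain ⟨i, hi⟩ := Cl.iUnion (J := Iio δ) (A := fun x => A x.1) (fun a b hab => hA hab)
      (Cl.mono hcov hx)
    exact ⟨i.1, i.2, hi⟩
  refine ⟨N δ, δ, γ, hNc δ, fun x hx => Cl.base _ (Or.inl (Or.inl (Or.inl hx))),
    fun k a b ha hb => Cl.step k a b ha hb, hδS, hδl, fun β => ⟨?_, ?_⟩, hγE,
    fun η hη => hHγ η (hNH δ hη), fun n => Cl.base _ (Or.inl (Or.inl (Or.inr ⟨n, rfl⟩))), ?_⟩
  · intro hβ
    obtain ⟨i, hi, hi2⟩ := hlim _ hβ
    exact (hg2 i β hi2).trans (hδ1 i hi)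
  · intro hβ
    exact Cl.base _ (Or.inr ⟨β, hβ, rfl⟩)
  · intro ξ hξ hcon
    obtain ⟨i, hi, hi2⟩ := hlim _ hξ
    obtain ⟨j, hj, hj2⟩ := hg1 i _ hi2
    exact hδY1 ⟨j, hj.trans (hδ1 i hi), ξ, hj2, hcon⟩

end Pool.Agent.MP2e4b78
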