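import Pool.Agent.Lib.MP_2e4b78_lc.Ideal

/-!
# Ladder systems on nonreflecting sets are free on initial segments
-/

open Cardinal Set Order

namespace Pool.Agent.MP2e4b78

theorem lim_of_cof {W : Type*} [LinearOrder W] {γ : W}
    (h : Order.cof (Iio γ) = ℵ₀) : Lim γ := by
  rcases lim_or γ with h1 | ⟨j, hj, h1⟩ | h1
  · exfalso
    have : IsEmpty (Iio γ) := ⟨fun x => absurd x.2 (not_lt.2 (h1 x.1))⟩
    rw [cof_eq_zero] at h
    exact absurd h (Cardinal.aleph0_pos.ne)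
  · exfalso
    have : Order.cof (Iio γ) = 1 := by
      rw [cof_eq_one_iff]
      refine ⟨⟨j, hj⟩, fun x => ?_⟩
      by_contra hx
      rw [not_le] at hx
      exact absurd x.2 (not_lt.2 (h1 _ hx))
    rw [this] at h
    exact absurd h (Cardinal.one_lt_aleph0.ne)
  · exact h1

theorem exists_seq {W : Type*} [LinearOrder W] {γ : W} (hγ : Lim γ) (g : ℕ → W)
    (hg : ∀ n, g n < γ) (hcof : ∀ x < γ, ∃ n, x ≤ g n) :
    ∃ b : ℕ → W, StrictMono b ∧ (∀ n, b n < γ) ∧ ∀ x < γ, ∃ n, x < b n := by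
  obtain ⟨⟨j0, hj0⟩, hα2⟩ := hγ
  choose! s hs1 hs2 using hα2
  let b : ℕ → W := fun n => Nat.rec (s j0) (fun n bn => s (max bn (g n))) n
  have hb : ∀ n, b n < γ := by
    intro n
    induction n with
    | zero => exact hs2 _ hj0
    | succ n ih => exact hs2 _ (max_lt ih (hg n))
  have hb1 : ∀ n, max (b n) (g n) < b (n + 1) := fun n => hs1 _ (max_lt (hb n) (hg n))
  refine ⟨b, strictMono_nat_of_lt_succ fun n => lt_of_le_of_lt (le_max_left _ _) (hb1 n), hb, ?_⟩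
  intro x hx
  obtain ⟨n, hn⟩ := hcof x hx
  exact ⟨n + 1, lt_of_le_of_lt (hn.trans (le_max_right _ _)) (hb1 n)⟩

theorem exists_seq_of_cof {W : Type*} [LinearOrder W] {γ : W}
    (h : Order.cof (Iio γ) = ℵ₀) :
    ∃ b : ℕ → W, StrictMono b ∧ (∀ n, b n < γ) ∧ ∀ x < γ, ∃ n, x < b n := by
  have hl := lim_of_cof h
  obtain ⟨s, hs, hs'⟩ := Order.exists_cof_eq (Iio γ)
  rw [h] at hs'
  have hsc : s.Countable := le_aleph0_iff_set_countable.1 hs'.le
  have hne : s.Nonempty := by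
    obtain ⟨j, hj⟩ := hl.1
    obtain ⟨y, hy, _⟩ := hs ⟨j, hj⟩
    exact ⟨y, hy⟩
  obtain ⟨g, hg⟩ := hsc.exists_eq_range hne
  refine exists_seq hl (fun n => (g n).1) (fun n => (g n).2) ?_
  intro x hx
  obtain ⟨y, hy, hxy⟩ := hs ⟨x, hx⟩
  rw [hg] at hy
  obtain ⟨n, rfl⟩ := hy
  exact ⟨n, hxy⟩

/-- separating clubs -/
theorem exists_sep (E : Set W2) (hE : ∀ γ ∈ E, Order.cof (Iio γ) = ℵ₀)
    (hr : ∀ γ : W2, Order.cof (Iio γ) = ℵ_ 1 →
      ¬ IsStationary {x : Iio γ | (x : W2) ∈ E}) (ξ : W2) (hξ : Lim ξ) :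
    ∃ C : Set W2, (∀ c ∈ C, c < ξ ∧ c ∉ E) ∧ (∀ x < ξ, ∃ c ∈ C, x < c) ∧
      ∀ γ ∈ E, γ < ξ → ∃ b < γ, ∀ c ∈ C, c < γ → c ≤ b := by
  have h0 : ℵ₀ ≤ Order.cof (Iio ξ) := by
    have : Nonempty (Iio ξ) := by
      obtain ⟨j, hj⟩ := hξ.1
      exact ⟨⟨j, hj⟩⟩
    have : NoMaxOrder (Iio ξ) := ⟨fun a => by
      obtain ⟨k, hk1, hk2⟩ := hξ.2 a.1 a.2
      exact ⟨⟨k, hk2⟩, hk1⟩⟩
    exact aleph0_le_cof
  have h1 : Order.cof (Iio ξ) ≤ ℵ_ 1 := (Order.cof_le_cardinalMk _).trans (mk_Iio_W2 ξ)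
  rcases h0.eq_or_lt with h | h
  · -- cofinality `ω`
    obtain ⟨b, hb1, hb2, hb3⟩ := exists_seq_of_cof h.symm
    refine ⟨range fun n => Order.succ (b n), ?_, ?_, ?_⟩
    · rintro _ ⟨n, rfl⟩
      refine ⟨lt_of_le_of_lt (Order.succ_le_of_lt (hb1 n.lt_succ_self)) (hb2 _), fun hE' => ?_⟩
      obtain ⟨k, hk1, hk2⟩ := (lim_of_cof (hE _ hE')).2 (b n) (Order.lt_succ _)
      exact absurd hk2 (not_lt.2 (Order.succ_le_of_lt hk1))
    · intro x hx
      obtain ⟨n, hn⟩ := hb3 x hx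
      exact ⟨_, ⟨n, rfl⟩, hn.trans (Order.lt_succ _)⟩
    · intro γ hγ hγξ
      obtain ⟨n, hn⟩ := hb3 γ hγξ
      have hl := lim_of_cof (hE _ hγ)
      -- bound for the finitely many elements below `γ`
      have key : ∀ m, ∃ a < γ, ∀ k < m, Order.succ (b k) < γ → Order.succ (b k) ≤ a := by
        intro m
        induction m with
        | zero =>
          obtain ⟨j, hj⟩ := hl.1
          exact ⟨j, hj, fun k hk => absurd hk (Nat.not_lt_zero k)⟩
        | succ m ih =>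
          obtain ⟨a, ha, h2⟩ := ih
          by_cases hm : Order.succ (b m) < γ
          · refine ⟨max a (Order.succ (b m)), max_lt ha hm, fun k hk hk2 => ?_⟩
            rcases Nat.lt_succ_iff_lt_or_eq.1 hk with h3 | h3
            · exact (h2 k h3 hk2).trans (le_max_left _ _)
            · rw [h3]; exact le_max_right _ _
          · refine ⟨a, ha, fun k hk hk2 => ?_⟩
            rcases Nat.lt_succ_iff_lt_or_eq.1 hk with h3 | h3
            · exact h2 k h3 hk2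
            · rw [h3] at hk2; exact absurd hk2 hm
      obtain ⟨a, ha, h2⟩ := key n
      refine ⟨a, ha, ?_⟩
      rintro _ ⟨k, rfl⟩ hk
      refine h2 k ?_ hk
      by_contra hkn
      push Not at hkn
      have h4 : b n ≤ b k := hb1.monotone hkn
      exact absurd (hn.trans_le (h4.trans (Order.lt_succ (b k)).le)) (not_lt.2 hk.le)
  · -- cofinality `ω₁`
    have h2 : Order.cof (Iio ξ) = ℵ_ 1 := by
      refine le_antisymm h1 ?_
      rw [← Cardinal.succ_aleph0]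
      exact Order.succ_le_of_lt h
    have h3 := hr ξ h2
    rw [not_isStationary_iff] at h3
    obtain ⟨t, ht, hd⟩ := h3
    refine ⟨Subtype.val '' t, ?_, ?_, ?_⟩
    · rintro _ ⟨x, hx, rfl⟩
      exact ⟨x.2, fun h => Set.disjoint_left.1 hd h hx⟩
    · intro x hx
      obtain ⟨k, hk1, hk2⟩ := hξ.2 x hx
      obtain ⟨y, hy, hky⟩ := ht.isCofinal ⟨k, hk2⟩
      exact ⟨y.1, ⟨y, hy, rfl⟩, hk1.trans_le hky⟩
    · intro γ hγ hγξ
      by_contra hcon
      push Not at hcon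
      have hl := lim_of_cof (hE _ hγ)
      have hmem : (⟨γ, hγξ⟩ : Iio ξ) ∈ t := by
        obtain ⟨j, hj⟩ := hl.1
        obtain ⟨_, ⟨y0, hy0, rfl⟩, hy1, _⟩ := hcon j hj
        refine ht.isLUB_mem (t := {y | y ∈ t ∧ y.1 < γ}) (fun y hy => hy.1) ⟨y0, hy0, hy1⟩ ?_
        refine ⟨fun y hy => le_of_lt hy.2, fun b hb => ?_⟩
        by_contra h5
        rw [not_le] at h5
        obtain ⟨_, ⟨y, hy, rfl⟩, hy2, hy3⟩ := hcon b.1 h5
        exact absurd (hb ⟨hy, hy2⟩) (not_le.2 hy3)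
      exact Set.disjoint_left.1 hd (show (⟨γ, hγξ⟩ : Iio ξ) ∈ {x : Iio ξ | (x : W2) ∈ E} from hγ)
        hmem

/-- two ladders of different tops are almost disjoint -/
theorem almost_disjoint {W : Type*} [LinearOrder W] {γ j : W} {c d : ℕ → W} (hc : StrictMono c)
    (hcγ : ∀ n, c n < γ) (hd : StrictMono d) (hd2 : ∀ x < j, ∃ n, x < d n) (hγj : γ < j) :
    ∃ k, ∀ n ≥ k, ∀ m, c n ≠ d m := by
  obtain ⟨N, hN⟩ := hd2 γ hγj
  have key : ∀ M, ∃ k, ∀ n ≥ k, ∀ m < M, c n ≠ d m := by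
    intro M
    induction M with
    | zero => exact ⟨0, fun n _ m hm => absurd hm (Nat.not_lt_zero m)⟩
    | succ M ih =>
      obtain ⟨k, hk⟩ := ih
      by_cases h : ∃ n0, c n0 = d M
      · obtain ⟨n0, hn0⟩ := h
        refine ⟨max k (n0 + 1), fun n hn m hm => ?_⟩
        rcases Nat.lt_succ_iff_lt_or_eq.1 hm with h3 | h3
        · exact hk n (le_trans (le_max_left _ _) hn) m h3
        · rw [h3, ← hn0]
          intro h4
          have := hc.injective h4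
          have h5 : n0 + 1 ≤ n := le_trans (le_max_right _ _) hn
          omega
      · push Not at h
        refine ⟨k, fun n hn m hm => ?_⟩
        rcases Nat.lt_succ_iff_lt_or_eq.1 hm with h3 | h3
        · exact hk n hn m h3
        · rw [h3]; exact h n
  obtain ⟨k, hk⟩ := key N
  refine ⟨k, fun n hn m => ?_⟩
  rcases lt_or_ge m N with h | h
  · exact hk n hn m h
  · intro he
    have : γ < c n := by rw [he]; exact hN.trans_le (hd.monotone h)
    exact absurd this (not_lt.2 (hcγ n).le)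

/-- ladder systems on a nonreflecting set are free on initial segments -/
theorem exists_free (E : Set W2) (c : W2 → ℕ → W2)
    (hc1 : ∀ γ ∈ E, StrictMono (c γ)) (hc2 : ∀ γ ∈ E, ∀ n, c γ n < γ)
    (hc3 : ∀ γ ∈ E, ∀ x < γ, ∃ n, x < c γ n)
    (hsep : ∀ ξ : W2, Lim ξ → ∃ C : Set W2, (∀ c ∈ C, c < ξ ∧ c ∉ E) ∧
      (∀ x < ξ, ∃ c ∈ C, x < c) ∧ ∀ γ ∈ E, γ < ξ → ∃ b < γ, ∀ c ∈ C, c < γ → c ≤ b) :
    ∀ ξ : W2, ∃ h : W2 → ℕ, ∀ γ ∈ E, γ < ξ → ∀ γ' ∈ E, γ' < ξ → γ ≠ γ' →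
      ∀ n ≥ h γ, ∀ m ≥ h γ', c γ n ≠ c γ' m := by
  classical
  intro ξ
  induction ξ using WellFoundedLT.induction with
  | _ ξ ih =>
    rcases lim_or ξ with h1 | ⟨j, hj, h1⟩ | hl
    · exact ⟨fun _ => 0, fun γ _ hγ => absurd hγ (not_lt.2 (h1 γ))⟩
    · obtain ⟨h, hh⟩ := ih j hj
      have hle : ∀ γ < ξ, γ ≤ j := fun γ hγ => by
        by_contra hcon
        exact absurd hγ (not_lt.2 (h1 γ (not_le.1 hcon)))
      by_cases hjE : j ∈ E
      · have hk : ∀ γ, ∃ k, γ ∈ E → γ < j → ∀ n ≥ k, ∀ m, c γ n ≠ c j m := by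
          intro γ
          by_cases hγ : γ ∈ E ∧ γ < j
          · obtain ⟨k, hk⟩ := almost_disjoint (hc1 γ hγ.1) (hc2 γ hγ.1) (hc1 j hjE)
              (hc3 j hjE) hγ.2
            exact ⟨k, fun _ _ => hk⟩
          · exact ⟨0, fun h2 h3 => absurd ⟨h2, h3⟩ hγ⟩
        choose k hk using hk
        refine ⟨fun γ => max (h γ) (k γ), ?_⟩
        intro γ hγ hγξ γ' hγ' hγξ' hne n hn m hm
        have hn1 : n ≥ h γ := le_trans (le_max_left _ _) hn
        have hn2 : n ≥ k γ := le_trans (le_max_right _ _) hn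
        have hm1 : m ≥ h γ' := le_trans (le_max_left _ _) hm
        have hm2 : m ≥ k γ' := le_trans (le_max_right _ _) hm
        rcases (hle γ hγξ).lt_or_eq with h2 | h2
        · rcases (hle γ' hγξ').lt_or_eq with h3 | h3
          · exact hh γ hγ h2 γ' hγ' h3 hne n hn1 m hm1
          · rw [h3]; exact hk γ hγ h2 n hn2 m
        · rcases (hle γ' hγξ').lt_or_eq with h3 | h3
          · rw [h2]; exact (hk γ' hγ' h3 m hm2 n).symm
          · exact absurd (h2.trans h3.symm) hne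
      · refine ⟨h, ?_⟩
        intro γ hγ hγξ γ' hγ' hγξ' hne
        have h2 : γ < j := lt_of_le_of_ne (hle γ hγξ) (fun e => hjE (e ▸ hγ))
        have h3 : γ' < j := lt_of_le_of_ne (hle γ' hγξ') (fun e => hjE (e ▸ hγ'))
        exact hh γ hγ h2 γ' hγ' h3 hne
    · obtain ⟨C, hC1, hC2, hC3⟩ := hsep ξ hl
      have hρ : ∀ γ, ∃ ρ, γ < ξ → ρ ∈ C ∧ γ < ρ ∧ ∀ x ∈ C, γ < x → ρ ≤ x := by
        intro γ
        by_cases hγ : γ < ξ
        · obtain ⟨x, hx, hγx⟩ := hC2 γ hγ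
          have hne : {x | x ∈ C ∧ γ < x}.Nonempty := ⟨x, hx, hγx⟩
          refine ⟨WellFounded.min (wellFounded_lt (α := W2)) _ hne, fun _ => ?_⟩
          have hm := WellFounded.min_mem (wellFounded_lt (α := W2)) _ hne
          refine ⟨hm.1, hm.2, fun y hy hγy => ?_⟩
          exact not_lt.1 (WellFounded.not_lt_min (wellFounded_lt (α := W2))
            {x | x ∈ C ∧ γ < x} ⟨hy, hγy⟩)
        · exact ⟨γ, fun h => absurd h hγ⟩
      choose ρ hρ using hρ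
      have hH : ∀ ζ : W2, ∃ h : W2 → ℕ, ζ < ξ → ∀ γ ∈ E, γ < ζ → ∀ γ' ∈ E, γ' < ζ → γ ≠ γ' →
          ∀ n ≥ h γ, ∀ m ≥ h γ', c γ n ≠ c γ' m := by
        intro ζ
        by_cases hζ : ζ < ξ
        · obtain ⟨h, hh⟩ := ih ζ hζ
          exact ⟨h, fun _ => hh⟩
        · exact ⟨fun _ => 0, fun h => absurd h hζ⟩
      choose H hH using hH
      have hk : ∀ γ, ∃ k, γ ∈ E → γ < ξ → ∀ n ≥ k, ∀ x ∈ C, x < γ → x < c γ n := by
        intro γ
        by_cases hγ : γ ∈ E ∧ γ < ξ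
        · obtain ⟨b, hb, hb2⟩ := hC3 γ hγ.1 hγ.2
          obtain ⟨k, hk⟩ := hc3 γ hγ.1 b hb
          refine ⟨k, fun _ _ n hn x hx hxγ => ?_⟩
          exact lt_of_le_of_lt (hb2 x hx hxγ) (hk.trans_le ((hc1 γ hγ.1).monotone hn))
        · exact ⟨0, fun h2 h3 => absurd ⟨h2, h3⟩ hγ⟩
      choose k hk using hk
      refine ⟨fun γ => max (H (ρ γ) γ) (k γ), ?_⟩
      -- the asymmetric statement
      have main : ∀ γ ∈ E, γ < ξ → ∀ γ' ∈ E, γ' < ξ → γ < γ' →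
          ∀ n ≥ max (H (ρ γ) γ) (k γ), ∀ m ≥ max (H (ρ γ') γ') (k γ'), c γ n ≠ c γ' m := by
        intro γ hγ hγξ γ' hγ' hγξ' hlt n hn m hm
        obtain ⟨h2, h3, h4⟩ := hρ γ hγξ
        obtain ⟨h2', h3', h4'⟩ := hρ γ' hγξ'
        by_cases he : ρ γ = ρ γ'
        · have hm' : m ≥ H (ρ γ) γ' := by rw [he]; exact le_trans (le_max_left _ _) hm
          exact hH (ρ γ) (hC1 _ h2).1 γ hγ h3 γ' hγ' (he ▸ h3') hlt.ne n
            (le_trans (le_max_left _ _) hn) m hm'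
        · have h5 : ρ γ < γ' := by
            by_contra hcon
            push Not at hcon
            rcases hcon.eq_or_lt with h6 | h6
            · exact (hC1 _ h2).2 (h6 ▸ hγ')
            · exact he (le_antisymm (h4 _ h2' (hlt.trans h3')) (h4' _ h2 h6))
          have h6 : ρ γ < c γ' m := hk γ' hγ' hγξ' m (le_trans (le_max_right _ _) hm) _ h2 h5
          have h7 : c γ n < γ := hc2 γ hγ n
          exact (h7.trans (h3.trans h6)).ne
      intro γ hγ hγξ γ' hγ' hγξ' hne n hn m hm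
      rcases lt_or_gt_of_ne hne with h2 | h2
      · exact main γ hγ hγξ γ' hγ' hγξ' h2 n hn m hm
      · exact (main γ' hγ' hγξ' γ hγ hγξ h2 m hm n hn).symm

end Pool.Agent.MP2e4b78
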