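import Pool.Agent.Lib.MP_2e4b78_lc.Node

/-!
# Countable models: one step and tree hulls
-/

open Cardinal Set Order

namespace Pool.Agent.MP2e4b78

/-- the universe of the models -/
abbrev UU (P : Par) : Type := W1 ⊕ W2 ⊕ Node P

open Classical in
/-- decode: the `η < ξ` with `e ξ η = β` -/
noncomputable def dec (P : Par) (ξ : W2) (β : W1) : W2 :=
  if h : ∃ η, η < ξ ∧ P.e ξ η = β then h.choose else ξ

theorem dec_e (P : Par) {ξ η : W2} (h : η < ξ) : dec P ξ (P.e ξ η) = η := by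
  have hex : ∃ η', η' < ξ ∧ P.e ξ η' = P.e ξ η := ⟨η, h, rfl⟩
  unfold dec
  rw [dif_pos hex]
  exact P.he ξ hex.choose_spec.1 h hex.choose_spec.2

/-- the coding functions -/
noncomputable def codeF (P : Par) : Bool → UU P → UU P → UU P
  | false, .inr (.inl ξ), .inr (.inl η) => .inl (P.e ξ η)
  | true, .inr (.inl ξ), .inl β => .inr (.inl (dec P ξ β))
  | _, a, _ => a

theorem exists_hull' (P : Par) {K : Type} [Countable K] (G : K → UU P → UU P → UU P)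
    (A₀ : Set (UU P)) (hA₀ : A₀.Countable) (S : Set W1) (hS : S ∉ P.I) :
    ∃ (N : Set (UU P)) (δ : W1) (γ : W2), N.Countable ∧ A₀ ⊆ N ∧
      (∀ k a b, a ∈ N → b ∈ N → G k a b ∈ N) ∧ δ ∈ S ∧ Lim δ ∧
      (∀ β, (Sum.inl β : UU P) ∈ N ↔ β < δ) ∧
      Closed P δ {η | (Sum.inr (Sum.inl η) : UU P) ∈ N} ∧
      IsTopOf P {η | (Sum.inr (Sum.inl η) : UU P) ∈ N} γ ∧
      (∀ ξ, (Sum.inr (Sum.inl ξ) : UU P) ∈ N → δ ∉ P.Xs ξ) := by
  obtain ⟨N, δ, γ, h1, h2, h3, h4, h5, h6, h7, h8, h9, h10⟩ :=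
    exists_hull (U := UU P) (fun β => Sum.inl β) Sum.inl_injective
      (fun η => Sum.inr (Sum.inl η)) (fun a b h => Sum.inl_injective (Sum.inr_injective h))
      (K := Bool ⊕ K) (fun k => Sum.elim (codeF P) G k) A₀ hA₀ P.hI P.Xs P.hXs P.E P.hE P.hEl
      P.c P.hc2 S hS
  refine ⟨N, δ, γ, h1, h2, fun k a b => h3 (Sum.inr k) a b, h4, h5, h6, ?_, ⟨h7, h8, ?_⟩, h10⟩
  · intro ξ hξ η hη
    constructor
    · intro hη2
      exact (h6 _).1 (h3 (Sum.inl false) _ _ hξ hη2)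
    · intro hη2
      have := h3 (Sum.inl true) _ _ hξ ((h6 _).2 hη2)
      have h11 : (Sum.inr (Sum.inl (dec P ξ (P.e ξ η))) : UU P) ∈ N := this
      rw [dec_e P hη] at h11
      exact h11
  · intro x hx
    obtain ⟨n, hn⟩ := P.hc3 γ h7 x hx
    exact ⟨n, hn, h9 n⟩

theorem exists_gt_countable₂ {s : Set W2} (hs : s.Countable) : ∃ b, ∀ x ∈ s, x < b :=
  exists_gt_of_mk_le ((le_aleph0_iff_set_countable.2 hs).trans
    (Cardinal.aleph0_lt_aleph_one.le))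

/-- one more model -/
theorem exists_model {P : Par} (t : Node P) (x : W2) (β : W1) :
    ∃ (δ : W1) (M : Set W2), M.Countable ∧ Closed P δ M ∧ t.dt < δ ∧ β < δ ∧ x ∈ M ∧
      t.mt ⊆ M ∧ ∃ ζ ∈ M, ∀ η ∈ t.mt, η < ζ := by
  have hcnt : t.mt.Countable := (t.stage _ le_rfl).cnt
  obtain ⟨ζ, hζ⟩ := exists_gt_countable₂ hcnt
  let A₀ : Set (UU P) := (fun η => Sum.inr (Sum.inl η)) '' t.mt ∪
    {Sum.inr (Sum.inl x), Sum.inr (Sum.inl ζ), Sum.inl β, Sum.inl t.dt}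
  have hA₀ : A₀.Countable := (hcnt.image _).union (by simp)
  obtain ⟨N, δ, γ, h1, h2, h3, h4, h5, h6, h7, h8, h9⟩ :=
    exists_hull' P (K := Empty) (fun k => k.elim) A₀ hA₀ univ P.hI.proper
  refine ⟨δ, {η | (Sum.inr (Sum.inl η) : UU P) ∈ N}, ?_, h7, ?_, ?_, ?_, ?_, ζ, ?_, hζ⟩
  · exact h1.preimage (fun a b h => Sum.inl_injective (Sum.inr_injective h))
  · exact (h6 _).1 (h2 (Or.inr (by simp)))
  · exact (h6 _).1 (h2 (Or.inr (by simp)))
  · exact h2 (Or.inr (by simp))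
  · exact fun η hη => h2 (Or.inl ⟨η, hη, rfl⟩)
  · exact h2 (Or.inr (by simp))

theorem exists_app {P : Par} (t : Node P) (x : W2) (β : W1) :
    ∃ t' : Node P, t ≤ t' ∧ t'.len = Order.succ t.len ∧ x ∈ t'.mt ∧ β < t'.dt := by
  obtain ⟨δ, M, h1, h2, h3, h4, h5, h6, h7⟩ := exists_model t x β
  obtain ⟨t', h8, h9, h10, h11⟩ := Node.exists_append t δ M h1 h2 h3 h6 h7
  exact ⟨t', h8, h9, by rw [h11]; exact h5, by rw [h10]; exact h4⟩

/-- tree hulls -/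
structure THull (P : Par) (ext : Node P → W1 → Node P) (phi : ℕ → Node P → Node P → Node P)
    (NT : Set (Node P)) (δ : W1) (M : Set W2) (γ : W2) : Prop where
  cNT : NT.Countable
  cM : M.Countable
  lim : Lim δ
  top : IsTopOf P M γ
  good : ∀ ξ ∈ M, δ ∉ P.Xs ξ
  dt_lt : ∀ t ∈ NT, t.dt < δ
  mt_sub : ∀ t ∈ NT, t.mt ⊆ M
  appx : ∀ t ∈ NT, ∀ x ∈ M, ∃ t' ∈ NT, t ≤ t' ∧ t'.len = Order.succ t.len ∧ x ∈ t'.mt
  appb : ∀ t ∈ NT, ∀ β < δ, ∃ t' ∈ NT, t ≤ t' ∧ t'.len = Order.succ t.len ∧ β < t'.dt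
  ext : ∀ t ∈ NT, ∀ β < δ, ext t β ∈ NT
  res : ∀ t ∈ NT, ∀ β (h : β ≤ t.len), t.res β h ∈ NT
  phi : ∀ n, ∀ t ∈ NT, ∀ s ∈ NT, phi n t s ∈ NT

open Classical in
/-- the functions used in tree hulls -/
noncomputable def treeG {P : Par} (appx : Node P → W2 → Node P) (appb : Node P → W1 → Node P)
    (ext : Node P → W1 → Node P) (phi : ℕ → Node P → Node P → Node P) (enu : Node P → ℕ → W2) :
    ℕ × ℕ → UU P → UU P → UU P
  | (0, _), .inr (.inr t), _ => .inl t.dt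
  | (1, n), .inr (.inr t), _ => .inr (.inl (enu t n))
  | (2, _), .inr (.inr t), .inr (.inl x) => .inr (.inr (appx t x))
  | (3, _), .inr (.inr t), .inl β => .inr (.inr (appb t β))
  | (4, _), .inr (.inr t), .inl β => .inr (.inr (ext t β))
  | (5, _), .inr (.inr t), .inl β =>
      .inr (.inr (if h : β ≤ t.len then t.res β h else t))
  | (6, n), .inr (.inr t), .inr (.inr s) => .inr (.inr (phi n t s))
  | _, a, _ => a

theorem exists_thull (P : Par) (ext : Node P → W1 → Node P)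
    (phi : ℕ → Node P → Node P → Node P) (A₀ : Set (Node P)) (hA₀ : A₀.Countable) (b₀ : W1)
    (S : Set W1) (hS : S ∉ P.I) :
    ∃ (NT : Set (Node P)) (δ : W1) (M : Set W2) (γ : W2), THull P ext phi NT δ M γ ∧
      A₀ ⊆ NT ∧ b₀ < δ ∧ δ ∈ S := by
  classical
  choose appx ax1 ax2 ax3 _ using fun (t : Node P) (x : W2) => exists_app t x ⊥
  choose appb ab1 ab2 _ ab3 using fun (t : Node P) (β : W1) => exists_app t ⊥ β
  have hen : ∀ t : Node P, ∃ g : ℕ → W2, t.mt ⊆ range g := by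
    intro t
    have hc : t.mt.Countable := (t.stage _ le_rfl).cnt
    rcases t.mt.eq_empty_or_nonempty with h | h
    · exact ⟨fun _ => ⊥, by rw [h]; exact empty_subset _⟩
    · obtain ⟨g, hg⟩ := hc.exists_eq_range h
      exact ⟨g, hg.subset⟩
  choose enu henu using hen
  let A₁ : Set (UU P) := (fun t => Sum.inr (Sum.inr t)) '' A₀ ∪ {Sum.inl b₀}
  have hA₁ : A₁.Countable := (hA₀.image _).union (countable_singleton _)
  obtain ⟨N, δ, γ, h1, h2, h3, h4, h5, h6, h7, h8, h9⟩ :=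
    exists_hull' P (K := ℕ × ℕ) (treeG appx appb ext phi enu) A₁ hA₁ S hS
  have hsub : ∀ t : Node P, (Sum.inr (Sum.inr t) : UU P) ∈ N →
      t.mt ⊆ {η | (Sum.inr (Sum.inl η) : UU P) ∈ N} := by
    intro t ht η hη
    obtain ⟨n, rfl⟩ := henu t hη
    exact h3 (1, n) _ _ ht ht
  have hb : ∀ β : W1, β < δ → (Sum.inl β : UU P) ∈ N := fun β => (h6 β).2
  refine ⟨{t | (Sum.inr (Sum.inr t) : UU P) ∈ N}, δ, {η | (Sum.inr (Sum.inl η) : UU P) ∈ N}, γ,
    ⟨?_, ?_, h5, h8, h9, ?_, hsub, ?_, ?_, ?_, ?_, ?_⟩, ?_, ?_, h4⟩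
  · exact h1.preimage (fun a b h => Sum.inr_injective (Sum.inr_injective h))
  · exact h1.preimage (fun a b h => Sum.inl_injective (Sum.inr_injective h))
  · intro t ht
    exact (h6 _).1 (h3 (0, 0) _ _ ht ht)
  · intro t ht x hx
    exact ⟨appx t x, h3 (2, 0) _ _ ht hx, ax1 t x, ax2 t x, ax3 t x⟩
  · intro t ht β hβ
    exact ⟨appb t β, h3 (3, 0) _ _ ht (hb β hβ), ab1 t β, ab2 t β, ab3 t β⟩
  · intro t ht β hβ
    exact h3 (4, 0) _ _ ht (hb β hβ)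
  · intro t ht β hβ
    have hβ' : β < δ := by
      refine (hβ.trans (Node.le_d _ le_rfl)).trans_lt ?_
      exact (h6 _).1 (h3 (0, 0) _ _ ht ht)
    have := h3 (5, 0) _ _ ht (hb β hβ')
    have h10 : (Sum.inr (Sum.inr (if h : β ≤ t.len then t.res β h else t)) : UU P) ∈ N := this
    rw [dif_pos hβ] at h10
    exact h10
  · intro n t ht s hs
    exact h3 (6, n) _ _ ht hs
  · exact fun t ht => h2 (Or.inl ⟨t, ht, rfl⟩)
  · exact (h6 _).1 (h2 (Or.inr rfl))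

/-- chains meeting countably many dense sets -/
theorem exists_chain {P : Par} {A : Set (Node P)} {ι : Type} [Countable ι]
    (D : ι → Set (Node P)) (hD : ∀ i, ∀ s ∈ A, ∃ s' ∈ A, s ≤ s' ∧ s' ∈ D i) (s0 : Node P)
    (hs0 : s0 ∈ A) :
    ∃ s : ℕ → Node P, s 0 = s0 ∧ (∀ n, s n ∈ A) ∧ (∀ n, s n ≤ s (n + 1)) ∧
      ∀ i, ∃ n, s n ∈ D i := by
  classical
  rcases isEmpty_or_nonempty ι with hi | hi
  · exact ⟨fun _ => s0, rfl, fun _ => hs0, fun _ => le_rfl, fun i => (hi.false i).elim⟩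
  · obtain ⟨g, hg⟩ := exists_surjective_nat ι
    choose! nx h1 h2 h3 using hD
    let s : ℕ → Node P := fun n => Nat.rec s0 (fun n sn => nx (g n) sn) n
    have hA : ∀ n, s n ∈ A := by
      intro n
      induction n with
      | zero => exact hs0
      | succ n ih => exact h1 _ _ ih
    refine ⟨s, rfl, hA, fun n => h2 _ _ (hA n), fun i => ?_⟩
    obtain ⟨n, rfl⟩ := hg i
    exact ⟨n + 1, h3 _ _ (hA n)⟩

/-- fusion -/
theorem exists_fusion {P : Par} {ext : Node P → W1 → Node P}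
    {phi : ℕ → Node P → Node P → Node P} {NT : Set (Node P)} {δ : W1} {M : Set W2} {γ : W2}
    (H : THull P ext phi NT δ M γ) (α : W1) (hα : Lim α) (hαδ : α ≤ δ)
    (hext : ∀ t ∈ NT, ∀ β < α, t.len ≤ β → t ≤ ext t β ∧ (ext t β).len = β)
    {ι : Type} [Countable ι] (D : ι → Set (Node P))
    (hD : ∀ i, ∀ s ∈ NT, s.len < α → ∃ s' ∈ NT, s'.len < α ∧ s ≤ s' ∧ s' ∈ D i)
    (s0 : Node P) (hs0 : s0 ∈ NT) (hs0' : s0.len < α) :
    ∃ t : Node P, s0 ≤ t ∧ t.len = α ∧ t.dt = δ ∧ t.mt = M ∧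
      (∀ β < α, ∃ s ∈ NT, s ≤ t ∧ β < s.len) ∧
      ∀ i, ∃ s ∈ NT, s ≤ t ∧ s.len < α ∧ s ∈ D i := by
  classical
  let A : Set (Node P) := {s | s ∈ NT ∧ s.len < α}
  have hcM := H.cM.to_subtype
  have hcδ := (countable_Iio δ).to_subtype
  have hcα := (countable_Iio α).to_subtype
  let J : Type := M ⊕ Iio δ ⊕ Iio α ⊕ ι
  let D' : J → Set (Node P) := fun j => match j with
    | .inl x => {s | x.1 ∈ s.mt}
    | .inr (.inl β) => {s | β.1 < s.dt}
    | .inr (.inr (.inl β)) => {s | β.1 < s.len}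
    | .inr (.inr (.inr i)) => D i
  have hD' : ∀ j, ∀ s ∈ A, ∃ s' ∈ A, s ≤ s' ∧ s' ∈ D' j := by
    rintro (x | β | β | i) s ⟨hs, hsα⟩
    · obtain ⟨t', h1, h2, h3, h4⟩ := H.appx s hs x.1 x.2
      exact ⟨t', ⟨h1, by rw [h3]; exact succ_lt_of_lim hα hsα⟩, h2, h4⟩
    · obtain ⟨t', h1, h2, h3, h4⟩ := H.appb s hs β.1 β.2
      exact ⟨t', ⟨h1, by rw [h3]; exact succ_lt_of_lim hα hsα⟩, h2, h4⟩
    · have hβ : Order.succ β.1 < α := succ_lt_of_lim hα β.2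
      rcases le_or_gt s.len (Order.succ β.1) with h | h
      · obtain ⟨h1, h2⟩ := hext s hs _ hβ h
        refine ⟨ext s (Order.succ β.1), ⟨H.ext s hs _ (hβ.trans_le hαδ), by rw [h2]; exact hβ⟩, h1,
          ?_⟩
        show β.1 < _
        rw [h2]
        exact Order.lt_succ _
      · exact ⟨s, ⟨hs, hsα⟩, le_rfl, (Order.lt_succ β.1).trans h⟩
    · obtain ⟨s', h1, h2, h3, h4⟩ := hD i s hs hsα
      exact ⟨s', ⟨h1, h2⟩, h3, h4⟩
  obtain ⟨s, e0, e1, e2, e3⟩ := exists_chain D' hD' s0 ⟨hs0, hs0'⟩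
  have hM : M = ⋃ n, (s n).mt := by
    apply Subset.antisymm
    · intro x hx
      obtain ⟨n, hn⟩ := e3 (.inl ⟨x, hx⟩)
      exact mem_iUnion.2 ⟨n, hn⟩
    · exact iUnion_subset fun n => H.mt_sub _ (e1 n).1
  obtain ⟨t, h1, h2, h3, h4⟩ := Node.exists_limit α δ hα M γ s e2 (fun n => (e1 n).2)
    (fun x hx => e3 (.inr (.inr (.inl ⟨x, hx⟩)))) hM (fun n => H.dt_lt _ (e1 n).1)
    (fun β hβ => e3 (.inr (.inl ⟨β, hβ⟩))) H.good H.top
  refine ⟨t, e0 ▸ h2 0, h1, h3, h4, fun β hβ => ?_, fun i => ?_⟩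
  · obtain ⟨n, hn⟩ := e3 (.inr (.inr (.inl ⟨β, hβ⟩)))
    exact ⟨s n, (e1 n).1, h2 n, hn⟩
  · obtain ⟨n, hn⟩ := e3 (.inr (.inr (.inr i)))
    exact ⟨s n, (e1 n).1, h2 n, (e1 n).2, hn⟩

/-- every node has extensions of every length -/
theorem exists_ext {P : Par} (t : Node P) (β : W1) (h : t.len ≤ β) :
    ∃ t', t ≤ t' ∧ t'.len = β := by
  classical
  induction β using WellFoundedLT.induction generalizing t with
  | _ β ih =>
    rcases h.eq_or_lt with rfl | h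
    · exact ⟨t, le_rfl, rfl⟩
    · rcases lim_or β with h1 | ⟨j, hj, h1⟩ | hl
      · exact absurd h (not_lt.2 (h1 _))
      · have hβ : β = Order.succ j :=
          le_antisymm (h1 _ (Order.lt_succ j)) (Order.succ_le_of_lt hj)
        have h2 : t.len ≤ j := by rw [hβ] at h; exact Order.lt_succ_iff.1 h
        obtain ⟨t', h3, h4⟩ := ih j hj t h2
        obtain ⟨t'', h5, h6, _⟩ := exists_app t' ⊥ ⊥
        exact ⟨t'', h3.trans h5, by rw [h6, h4, hβ]⟩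
      · let ext : Node P → W1 → Node P := fun s b =>
          if h : ∃ t', s ≤ t' ∧ t'.len = b then h.choose else s
        obtain ⟨NT, δ, M, γ, H, hA, hb, -⟩ := exists_thull P ext (fun _ s _ => s) {t}
          (countable_singleton t) β univ P.hI.proper
        obtain ⟨t', h2, h3, -⟩ := exists_fusion H β hl hb.le (fun s hs b hb hsb => by
          have hex : ∃ t', s ≤ t' ∧ t'.len = b := ih b hb s hsb
          simp only [ext, dif_pos hex]
          exact hex.choose_spec) (ι := Empty) (fun i => i.elim) (fun i => i.elim) t (hA rfl) h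
        exact ⟨t', h2, h3⟩

end Pool.Agent.MP2e4b78
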