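import Pool.Agent.Lib.MP_2e4b78_lc.Basic

/-!
# Special sets of nodes and the ideal `NS^T`
-/

open Cardinal Set Order

universe u v

namespace Pool.Agent.MP2e4b78

section

variable {T : Type u} [PartialOrder T]

theorem IsSpecial.mono {U V : Set T} (hV : IsSpecial V) (h : U ⊆ V) : IsSpecial U := by
  obtain ⟨A, hA, rfl⟩ := hV
  refine ⟨fun n => A n ∩ U, fun n => (hA n).subset inter_subset_left, ?_⟩
  rw [← iUnion_inter]
  exact (inter_eq_right.2 h).symm

theorem isSpecial_of_isAntichain {U : Set T} (h : IsAntichain (· ≤ ·) U) : IsSpecial U :=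
  ⟨fun _ => U, fun _ => h, (iUnion_const U).symm⟩

theorem isSpecial_iUnion_nat {U : ℕ → Set T} (h : ∀ n, IsSpecial (U n)) :
    IsSpecial (⋃ n, U n) := by
  choose A hA hU using h
  refine ⟨fun k => A k.unpair.1 k.unpair.2, fun k => hA _ _, ?_⟩
  ext t
  simp only [mem_iUnion]
  constructor
  · rintro ⟨n, hn⟩
    rw [hU n] at hn
    obtain ⟨m, hm⟩ := mem_iUnion.1 hn
    exact ⟨Nat.pair n m, by simpa using hm⟩
  · rintro ⟨k, hk⟩
    refine ⟨k.unpair.1, ?_⟩
    rw [hU]
    exact mem_iUnion.2 ⟨_, hk⟩

theorem isSpecial_iUnion {ι : Sort*} [Countable ι] {U : ι → Set T} (h : ∀ i, IsSpecial (U i)) :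
    IsSpecial (⋃ i, U i) := by
  rcases isEmpty_or_nonempty ι with hi | hi
  · simp only [iUnion_of_empty]
    exact isSpecial_of_isAntichain (Set.subsingleton_empty.isAntichain _)
  · obtain ⟨g, hg⟩ := exists_surjective_nat ι
    have : (⋃ i, U i) = ⋃ n, U (g n) := (hg.iUnion_comp U).symm
    rw [this]
    exact isSpecial_iUnion_nat fun n => h _

theorem isSpecial_biUnion {ι : Type*} {s : Set ι} (hs : s.Countable) {U : ι → Set T}
    (h : ∀ i ∈ s, IsSpecial (U i)) : IsSpecial (⋃ i ∈ s, U i) := by
  have := hs.to_subtype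
  rw [biUnion_eq_iUnion]
  exact isSpecial_iUnion fun i => h i i.2

theorem IsSpecial.union {U V : Set T} (hU : IsSpecial U) (hV : IsSpecial V) :
    IsSpecial (U ∪ V) := by
  rw [union_eq_iUnion]
  exact isSpecial_iUnion fun b => by cases b <;> simpa

theorem isSpecial_of_countable {U : Set T} (hU : U.Countable) : IsSpecial U := by
  have := isSpecial_biUnion (U := fun t : T => {t}) hU
    fun t _ => isSpecial_of_isAntichain (Set.subsingleton_singleton.isAntichain _)
  simpa using this

theorem IsNS.mono {B C : Set T} (hC : IsNS C) (h : B ⊆ C) : IsNS B := by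
  obtain ⟨f, hf, hs⟩ := hC
  exact ⟨f, fun t ht => hf t (h ht), fun s => (hs s).mono fun t ht => ⟨h ht.1, ht.2⟩⟩

theorem IsNS.union {B C : Set T} (hB : IsNS B) (hC : IsNS C) : IsNS (B ∪ C) := by
  classical
  obtain ⟨f, hf, hfs⟩ := hB
  obtain ⟨g, hg, hgs⟩ := hC
  refine ⟨fun t => if t ∈ B then f t else g t, ?_, ?_⟩
  · intro t ht hs
    by_cases h : t ∈ B
    · simpa [h] using hf t h hs
    · simpa [h] using hg t (ht.resolve_left h) hs
  · intro s
    refine ((hfs s).union (hgs s)).mono ?_
    rintro t ⟨ht, hts⟩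
    by_cases h : t ∈ B
    · left; exact ⟨h, by simpa [h] using hts⟩
    · right; exact ⟨ht.resolve_left h, by simpa [h] using hts⟩

/-- the pressing down lemma for trees (Todorcevic) -/
theorem IsNS.isSpecial_univ (hwo : ∀ t : T, IsWellOrder (Iio t) (· < ·))
    (h : IsNS (univ : Set T)) : IsSpecial (univ : Set T) := by
  classical
  obtain ⟨f, hf, hs⟩ := h
  have hwf : WellFounded (fun a b : T => a < b) := by
    refine ⟨fun t => Acc.intro t fun s hst => ?_⟩
    have key : ∀ x : Iio t, Acc (fun a b : T => a < b) x.1 := by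
      have wf := (hwo t).wf
      intro x
      induction x using wf.induction with
      | _ x ih =>
        refine Acc.intro _ fun y hy => ?_
        exact ih ⟨y, hy.trans x.2⟩ hy
    exact key ⟨s, hst⟩
  have htri : ∀ t a b : T, a < t → b < t → a < b ∨ a = b ∨ b < a := by
    intro t a b ha hb
    have := (hwo t)
    rcases trichotomous_of (fun x y : Iio t => x < y) ⟨a, ha⟩ ⟨b, hb⟩ with h | h | h
    · exact Or.inl h
    · exact Or.inr (Or.inl (congrArg Subtype.val h))
    · exact Or.inr (Or.inr h)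
  choose A hA hU using hs
  have hk : ∀ t, ∃ k, t ∈ A (f t) k := by
    intro t
    have : t ∈ {t' | t' ∈ (univ : Set T) ∧ f t' = f t} := ⟨mem_univ _, rfl⟩
    rw [hU] at this
    exact mem_iUnion.1 this
  choose k hk using hk
  let code : T → List ℕ := hwf.fix fun t rec =>
    if h : ∃ s, s < t then k t :: rec (f t) (hf t (mem_univ _) h) else []
  have hcode1 : ∀ t, (∃ s, s < t) → code t = k t :: code (f t) := by
    intro t h
    simp only [code]
    rw [hwf.fix_eq]
    simp only [h, dite_true]
  have hcode2 : ∀ t, (¬ ∃ s, s < t) → code t = [] := by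
    intro t h
    simp only [code]
    rw [hwf.fix_eq]
    simp only [h, dite_false]
  have main : ∀ (l : List ℕ) (a b : T), code a = l → code b = l → ¬ a < b := by
    intro l
    induction l with
    | nil =>
      intro a b _ hb hab
      rw [hcode1 b ⟨a, hab⟩] at hb
      exact absurd hb (by simp)
    | cons n l ih =>
      intro a b ha hb hab
      have hb' := hcode1 b ⟨a, hab⟩
      rw [hb] at hb'
      have ha0 : ∃ s, s < a := by
        by_contra h
        rw [hcode2 a h] at ha
        exact absurd ha (by simp)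
      have ha' := hcode1 a ha0
      rw [ha] at ha'
      simp only [List.cons.injEq] at ha' hb'
      have h1 : f a < b := (hf a (mem_univ _) ha0).trans hab
      have h2 : f b < b := hf b (mem_univ _) ⟨a, hab⟩
      have heq : f a = f b := by
        rcases htri b _ _ h1 h2 with h | h | h
        · exact absurd h (ih _ _ ha'.2.symm hb'.2.symm)
        · exact h
        · exact absurd h (ih _ _ hb'.2.symm ha'.2.symm)
      have m1 : a ∈ A (f a) n := by rw [ha'.1]; exact hk a
      have m2 : b ∈ A (f a) n := by rw [heq, hb'.1]; exact hk b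
      exact (hA (f a) n) m1 m2 hab.ne hab.le
  have : (univ : Set T) = ⋃ l : List ℕ, {t | code t = l} := by
    ext t; simp
  rw [this]
  refine isSpecial_iUnion fun l => isSpecial_of_isAntichain ?_
  intro a ha b hb hne hle
  exact main l a b ha hb (lt_of_le_of_ne hle hne)

end

/-! ### heights -/

theorem iio_iso_unique {α β : W1} (h : Nonempty (Iio α ≃o Iio β)) : α = β := by
  have key : ∀ {α β : W1}, Nonempty (Iio α ≃o Iio β) → ¬ α < β := by
    rintro α β ⟨e⟩ hlt
    -- `e⁻¹` composed with the inclusion gives a strictly monotone map `Iio β → Iio β` below `α`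
    let g : Iio β → Iio β := fun x => ⟨(e.symm x : W1), (e.symm x).2.trans hlt⟩
    have hg : StrictMono g := fun x y hxy => e.symm.strictMono hxy
    have h1 : (⟨α, hlt⟩ : Iio β) ≤ g ⟨α, hlt⟩ := hg.le_apply
    exact absurd h1 (not_le.2 (show (e.symm ⟨α, hlt⟩ : W1) < α from (e.symm ⟨α, hlt⟩).2))
  rcases lt_trichotomy α β with h' | h' | h'
  · exact absurd h' (key h)
  · exact h'
  · exact absurd h' (key ⟨h.some.symm⟩)

theorem HasHt.unique {T : Type u} [PartialOrder T] {t : T} {α β : W1} (h1 : HasHt t α)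
    (h2 : HasHt t β) : α = β :=
  iio_iso_unique ⟨h1.some.symm.trans h2.some⟩

/-- heights and `NS` transfer along order isomorphisms -/
theorem HasHt.map {T : Type u} {T' : Type v} [PartialOrder T] [PartialOrder T'] (e : T ≃o T')
    {t : T} {α : W1} (h : HasHt t α) : HasHt (e t) α := by
  obtain ⟨g⟩ := h
  refine ⟨OrderIso.trans ?_ g⟩
  exact {
    toFun := fun x => ⟨e.symm x, by
      have := x.2
      rw [mem_Iio] at this ⊢
      rwa [← e.lt_iff_lt, e.apply_symm_apply]⟩
    invFun := fun x => ⟨e x, by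
      have := x.2
      rw [mem_Iio] at this ⊢
      exact e.lt_iff_lt.2 this⟩
    left_inv := fun x => by simp
    right_inv := fun x => by simp
    map_rel_iff' := by
      intro a b
      simp [← Subtype.coe_le_coe] }

theorem IsSpecial.map {T : Type u} {T' : Type v} [PartialOrder T] [PartialOrder T'] (e : T ≃o T')
    {U : Set T} (h : IsSpecial U) : IsSpecial {t | e.symm t ∈ U} := by
  obtain ⟨A, hA, rfl⟩ := h
  refine ⟨fun n => {t | e.symm t ∈ A n}, fun n => ?_, by ext; simp⟩
  intro a ha b hb hne hle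
  exact hA n ha hb (fun h => hne (e.symm.injective h)) (e.symm.monotone hle)

theorem IsNS.map {T : Type u} {T' : Type v} [PartialOrder T] [PartialOrder T'] (e : T ≃o T')
    {X : Set W1} (h : IsNS (lev T X)) : IsNS (lev T' X) := by
  obtain ⟨f, hf, hs⟩ := h
  refine ⟨fun t => e (f (e.symm t)), ?_, ?_⟩
  · rintro t ⟨α, hα, ht⟩ ⟨s, hs⟩
    have h1 : e.symm t ∈ lev T X := ⟨α, hα, ht.map e.symm⟩
    have h2 := hf _ h1 ⟨e.symm s, e.symm.strictMono hs⟩
    rw [← e.lt_iff_lt, e.apply_symm_apply] at h2
    exact h2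
  · intro s
    refine ((hs (e.symm s)).map e).mono ?_
    rintro t ⟨⟨α, hα, ht⟩, hts⟩
    refine ⟨⟨α, hα, ht.map e.symm⟩, ?_⟩
    rw [← hts, e.symm_apply_apply]

end Pool.Agent.MP2e4b78
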