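import Pool.Agent.Lib.MP_2e4b78_lc.Ideal
import Pool.Agent.Lib.MP_2e4b78_lc.Special

/-!
# A normal ideal which is not of the form `NS_T`
-/

open Cardinal Set Order

universe u v

namespace Pool.Agent.MP2e4b78

/-! ### clubs -/

theorem isClub_Ioi (α : W1) : IsClub {β : W1 | α < β} := by
  refine ⟨?_, ?_⟩
  · intro s hs hne _ a ha
    obtain ⟨y, hy⟩ := hne
    exact (hs hy).trans_le (ha.1 hy)
  · intro a
    obtain ⟨b, hb⟩ := exists_gt_of_countable (s := {α, a}) (by simp)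
    exact ⟨b, hb α (by simp), (hb a (by simp)).le⟩

theorem isClub_inter {C D : Set W1} (hC : IsClub C) (hD : IsClub D) : IsClub (C ∩ D) :=
  hC.inter cof_W1_ne hD

/-- diagonal intersections of clubs are clubs -/
theorem isClub_diag (D : W1 → Set W1) (hD : ∀ α, IsClub (D α)) :
    IsClub {β : W1 | ∀ α < β, β ∈ D α} := by
  refine ⟨?_, ?_⟩
  · intro s hs _ _ a ha α hα
    obtain ⟨y, hy, hαy⟩ := (lt_isLUB_iff ha).1 hα
    refine (hD α).isLUB_mem (t := {z | z ∈ s ∧ y ≤ z}) ?_ ⟨y, hy, le_rfl⟩ ?_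
    · rintro z ⟨hz, hyz⟩
      exact hs hz α (hαy.trans_le hyz)
    · refine ⟨fun z hz => ha.1 hz.1, fun b hb => ha.2 fun z hz => ?_⟩
      rcases le_total y z with h | h
      · exact hb ⟨hz, h⟩
      · exact h.trans (hb ⟨hy, le_rfl⟩)
  · -- cofinality, through closure points
    have hn : ∀ α x : W1, ∃ y ∈ D α, x < y := fun α x => by
      obtain ⟨b, hb⟩ := exists_gt x
      obtain ⟨y, hy, hby⟩ := (hD α).isCofinal b
      exact ⟨y, hy, hb.trans_le hby⟩
    choose nx hnx1 hnx2 using hn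
    have hF : ∀ x : W1, ∃ b, ∀ α ≤ x, nx α x < b := fun x => by
      obtain ⟨b, hb⟩ := exists_gt_of_countable ((countable_Iic x).image fun α => nx α x)
      exact ⟨b, fun α hα => hb _ ⟨α, hα, rfl⟩⟩
    choose F hF using hF
    intro a
    obtain ⟨δ, ⟨hδ1, hδ2⟩, hδ3⟩ :=
      (isClub_inter (isClub_closurePoints₁ F) (isClub_Ioi a)).isCofinal a
    refine ⟨δ, ?_, hδ3⟩
    intro α hα
    have key : ∀ x < δ, ∃ y ∈ D α, x < y ∧ y < δ := by
      intro x hx
      have hm : max α x < δ := max_lt hα hx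
      refine ⟨nx α (max α x), hnx1 _ _, lt_of_le_of_lt (le_max_right _ _) (hnx2 _ _), ?_⟩
      exact (hF _ α (le_max_left _ _)).trans (hδ1 _ hm)
    obtain ⟨y0, hy0, _, hy1⟩ := key α hα
    refine (hD α).isLUB_mem (t := D α ∩ Iio δ) inter_subset_left ⟨y0, hy0, hy1⟩ ?_
    refine ⟨fun x hx => le_of_lt hx.2, fun b hb => ?_⟩
    by_contra h5
    push Not at h5
    obtain ⟨x, hx, hx3, hx4⟩ := key b h5
    exact absurd (hb ⟨hx, hx4⟩) (not_le.2 hx3)

/-! ### pairing -/

theorem exists_pairing : Nonempty (W1 × W1 ≃ W1) := by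
  rw [← Cardinal.eq, Cardinal.mk_prod, Cardinal.lift_id, mk_W1]
  exact Cardinal.mul_eq_self (Cardinal.aleph0_le_aleph 1)

/-- the pairing function -/
noncomputable def pr : W1 × W1 ≃ W1 := exists_pairing.some

theorem isClub_pr : IsClub {β : W1 | ∀ x < β, ∀ y < β, pr (x, y) < β} := by
  have hF : ∀ x : W1, ∃ b, ∀ y ≤ x, ∀ z ≤ x, pr (y, z) < b := fun x => by
    have hc : ((fun p : W1 × W1 => pr p) '' (Iic x ×ˢ Iic x)).Countable :=
      ((countable_Iic x).prod (countable_Iic x)).image _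
    obtain ⟨b, hb⟩ := exists_gt_of_countable hc
    exact ⟨b, fun y hy z hz => hb _ ⟨(y, z), ⟨hy, hz⟩, rfl⟩⟩
  choose F hF using hF
  have h := isClub_closurePoints₁ F
  refine ⟨?_, ?_⟩
  · intro s hs _ _ a ha x hx y hy
    obtain ⟨u, hu, hxu⟩ := (lt_isLUB_iff ha).1 (max_lt hx hy)
    exact (hs hu x (lt_of_le_of_lt (le_max_left _ _) hxu) y
      (lt_of_le_of_lt (le_max_right _ _) hxu)).trans_le (ha.1 hu)
  · intro a
    obtain ⟨δ, hδ1, hδ2⟩ := h.isCofinal a
    refine ⟨δ, fun x hx y hy => ?_, hδ2⟩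
    exact (hF (max x y) x (le_max_left _ _) y (le_max_right _ _)).trans (hδ1 _ (max_lt hx hy))

/-! ### diamond and independent families -/

/-- Diamond yields a family of subsets of `ω₁`, indexed by the subsets of `ω₁`, which is
independent modulo diagonal intersections and the nonstationary ideal. -/
theorem Diamond.independent (h : Diamond) : ∃ B : Set W1 → Set W1,
    ∀ (φ : Set W1 → Prop) (x : W1 → Set W1),
      IsStationary {β : W1 | ∀ i < β, β ∈ B (x i) ↔ φ (x i)} := by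
  obtain ⟨A, hA⟩ := h
  refine ⟨fun Y => {β | ∃ i < β, (∀ j < β, j ∈ Y ↔ pr (i, Order.succ j) ∈ A β) ∧
    pr (i, ⊥) ∈ A β}, fun φ x => ?_⟩
  let X : Set W1 := {a | ((pr.symm a).2 = ⊥ ∧ φ (x (pr.symm a).1)) ∨
    ∃ j, (pr.symm a).2 = Order.succ j ∧ j ∈ x (pr.symm a).1}
  have hsucc : ∀ j : W1, Order.succ j ≠ ⊥ := fun j h => by
    have := Order.lt_succ j
    rw [h] at this
    exact absurd this not_lt_bot
  have hX1 : ∀ i, pr (i, ⊥) ∈ X ↔ φ (x i) := by
    intro i
    simp only [X, mem_ofPred_eq, Equiv.symm_apply_apply, true_and]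
    constructor
    · rintro (h | ⟨j, hj, _⟩)
      · exact h
      · exact absurd hj.symm (hsucc j)
    · exact Or.inl
  have hX2 : ∀ i j, pr (i, Order.succ j) ∈ X ↔ j ∈ x i := by
    intro i j
    simp only [X, mem_ofPred_eq, Equiv.symm_apply_apply]
    constructor
    · rintro (⟨h, _⟩ | ⟨j', hj', h⟩)
      · exact absurd h (hsucc j)
      · rwa [Order.succ_injective hj']
    · exact fun h => Or.inr ⟨j, rfl, h⟩
  -- distinguishing club
  have hdist : ∀ i i' : W1, ∃ b, x i ≠ x i' → ∃ j < b, ¬ (j ∈ x i ↔ j ∈ x i') := by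
    intro i i'
    by_cases he : x i = x i'
    · exact ⟨⊥, fun h => absurd he h⟩
    · have : ∃ j, ¬ (j ∈ x i ↔ j ∈ x i') := by
        by_contra hcon
        push Not at hcon
        exact he (Set.ext hcon)
      obtain ⟨j, hj⟩ := this
      obtain ⟨b, hb⟩ := exists_gt j
      exact ⟨b, fun _ => ⟨j, hb, hj⟩⟩
  choose dd hdd using hdist
  have hF : ∀ z : W1, ∃ b, ∀ y ≤ z, ∀ y' ≤ z, dd y y' < b := fun z => by
    have hc : ((fun p : W1 × W1 => dd p.1 p.2) '' (Iic z ×ˢ Iic z)).Countable :=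
      ((countable_Iic z).prod (countable_Iic z)).image _
    obtain ⟨b, hb⟩ := exists_gt_of_countable hc
    exact ⟨b, fun y hy y' hy' => hb _ ⟨(y, y'), ⟨hy, hy'⟩, rfl⟩⟩
  choose F hF using hF
  -- closure under successor
  have hC : IsClub ({β : W1 | ∀ x < β, ∀ y < β, pr (x, y) < β} ∩
      ({δ : W1 | ∀ x < δ, F x < δ} ∩ {δ : W1 | ∀ x < δ, Order.succ x < δ})) :=
    isClub_inter isClub_pr (isClub_inter (isClub_closurePoints₁ F) (isClub_closurePoints₁ _))
  intro D hD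
  obtain ⟨β, hβ1, hβ2, hβ3, hβ4, hβ5⟩ := hA X (isClub_inter hD hC)
  refine ⟨β, ?_, hβ2⟩
  intro i hi
  have hbot : (⊥ : W1) < β := lt_of_le_of_lt bot_le hi
  simp only [mem_ofPred_eq] at hβ1 hβ3 hβ4 hβ5 ⊢
  constructor
  · rintro ⟨i', hi', h1, h2⟩
    have e : x i = x i' := by
      by_contra hne
      obtain ⟨j, hj, hjn⟩ := hdd i i' hne
      have hjβ : j < β := by
        have h3 := hF (max i i') i (le_max_left _ _) i' (le_max_right _ _)
        exact hj.trans (h3.trans (hβ4 _ (max_lt hi hi')))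
      apply hjn
      rw [h1 j hjβ, hβ1 _ (hβ3 i' hi' _ (hβ5 j hjβ)), hX2]
    rw [e, ← hX1, ← hβ1 _ (hβ3 i' hi' _ hbot)]
    exact h2
  · intro hφ
    refine ⟨i, hi, fun j hj => ?_, ?_⟩
    · rw [hβ1 _ (hβ3 i hi _ (hβ5 j hj)), hX2]
    · rw [hβ1 _ (hβ3 i hi _ hbot), hX1]
      exact hφ

/-- indexing by binary relations -/
theorem Diamond.independent' (h : Diamond) : ∃ B : (W1 → W1 → Prop) → Set W1,
    ∀ (φ : (W1 → W1 → Prop) → Prop) (x : W1 → (W1 → W1 → Prop)),
      IsStationary {β : W1 | ∀ i < β, β ∈ B (x i) ↔ φ (x i)} := by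
  obtain ⟨B, hB⟩ := h.independent
  let code : (W1 → W1 → Prop) → Set W1 := fun R => {a | R (pr.symm a).1 (pr.symm a).2}
  have hinj : Function.Injective code := by
    intro R R' he
    ext a b
    have := congrArg (fun s : Set W1 => pr (a, b) ∈ s) he
    simpa [code] using this
  refine ⟨fun R => B (code R), fun φ x => ?_⟩
  have := hB (fun Y => ∃ R, code R = Y ∧ φ R) (fun i => code (x i))
  refine this.mono ?_
  intro β hβ i hi
  rw [hβ i hi]
  constructor
  · rintro ⟨R, hR, hφ⟩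
    rwa [← hinj hR]
  · exact fun hφ => ⟨x i, rfl, hφ⟩

/-! ### the ideal -/

/-- the ideal generated by diagonal unions of the sets `C R` -/
def genIdeal {ι : Type v} (C : ι → Set W1) : Set (Set W1) :=
  {X | ∃ (x : W1 → ι) (D : Set W1), IsClub D ∧ ∀ β ∈ X, β ∈ D → ∃ i < β, β ∈ C (x i)}

theorem genIdeal_diag {ι : Type v} (C : ι → Set W1) (X : W1 → Set W1)
    (hX : ∀ α, X α ∈ genIdeal C) : {β : W1 | ∃ α < β, β ∈ X α} ∈ genIdeal C := by
  choose x D hD h using hX
  refine ⟨fun a => x (pr.symm a).1 (pr.symm a).2, {β : W1 | ∀ α < β, β ∈ D α} ∩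
    {β : W1 | ∀ x < β, ∀ y < β, pr (x, y) < β}, isClub_inter (isClub_diag D hD) isClub_pr, ?_⟩
  rintro β ⟨α, hα, hβ⟩ ⟨hβ1, hβ2⟩
  obtain ⟨i, hi, hi2⟩ := h α β hβ (hβ1 α hα)
  exact ⟨pr (α, i), hβ2 α hα i hi, by simpa using hi2⟩

theorem isNormalIdeal_genIdeal {ι : Type v} [Nonempty ι] (C : ι → Set W1)
    (hC : ∀ x : W1 → ι, IsStationary {β : W1 | ∀ i < β, β ∉ C (x i)}) :
    IsNormalIdeal (genIdeal C) where
  subset_mem := by
    rintro X Y ⟨x, D, hD, h⟩ hYX
    exact ⟨x, D, hD, fun β hβ => h β (hYX hβ)⟩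
  union_mem := by
    intro X Y hX hY
    classical
    obtain ⟨x, D, hD, h⟩ := genIdeal_diag C (fun α => if α = ⊥ then X else Y) (fun α => by
      by_cases hα : α = ⊥
      · simpa [hα] using hX
      · simpa [hα] using hY)
    refine ⟨x, D ∩ {β : W1 | Order.succ ⊥ < β}, isClub_inter hD (isClub_Ioi _), ?_⟩
    rintro β hβ ⟨hβ1, hβ2⟩
    refine h β ?_ hβ1
    have h1 : (⊥ : W1) < Order.succ ⊥ := Order.lt_succ _
    rcases hβ with hβ | hβ
    · exact ⟨⊥, h1.trans hβ2, by simpa using hβ⟩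
    · exact ⟨Order.succ ⊥, hβ2, by simpa [h1.ne'] using hβ⟩
  proper := by
    rintro ⟨x, D, hD, h⟩
    obtain ⟨β, hβ1, hβ2⟩ := hC x hD
    obtain ⟨i, hi, hi2⟩ := h β (mem_univ _) hβ2
    exact hβ1 i hi hi2
  singleton_mem := by
    intro α
    refine ⟨fun _ => Classical.arbitrary ι, _, isClub_Ioi α, ?_⟩
    intro β hβ hβ2
    rw [mem_singleton_iff] at hβ
    rw [hβ] at hβ2
    exact absurd (show α < α from hβ2) (lt_irrefl _)
  diag_mem := genIdeal_diag C

theorem mem_genIdeal {ι : Type v} (C : ι → Set W1) (i : ι) : C i ∈ genIdeal C :=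
  ⟨fun _ => i, _, isClub_Ioi ⊥, fun _ hβ hβ2 => ⟨⊥, hβ2, hβ⟩⟩

/-! ### subtrees of size `ℵ₁` -/

section sub

variable {T : Type u} [PartialOrder T]

/-- the downward closure of a set of nodes -/
abbrev Down (U : Set T) : Type u := {s : T // ∃ t ∈ U, s ≤ t}

/-- predecessors in the downward closure -/
def downIso (U : Set T) (x : Down U) : Iio x ≃o Iio x.1 where
  toFun y := ⟨y.1.1, y.2⟩
  invFun y := ⟨⟨y.1, by
    obtain ⟨t, ht, hxt⟩ := x.2
    exact ⟨t, ht, (le_of_lt y.2).trans hxt⟩⟩, y.2⟩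
  left_inv y := rfl
  right_inv y := rfl
  map_rel_iff' := Iff.rfl

theorem hasHt_down (U : Set T) (x : Down U) (α : W1) : HasHt x α ↔ HasHt x.1 α :=
  ⟨fun ⟨g⟩ => ⟨(downIso U x).symm.trans g⟩, fun ⟨g⟩ => ⟨(downIso U x).trans g⟩⟩

theorem isNS_down (U : Set T) {X : Set W1} (h : IsNS (lev T X)) : IsNS (lev (Down U) X) := by
  classical
  obtain ⟨f, hf, hs⟩ := h
  refine ⟨fun x => if h : ∃ t ∈ U, f x.1 ≤ t then ⟨f x.1, h⟩ else x, ?_, ?_⟩
  · rintro x ⟨α, hα, hx⟩ ⟨s, hs⟩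
    have h1 : f x.1 < x.1 := hf x.1 ⟨α, hα, (hasHt_down U x α).1 hx⟩ ⟨s.1, hs⟩
    have h2 : ∃ t ∈ U, f x.1 ≤ t := by
      obtain ⟨t, ht, hxt⟩ := x.2
      exact ⟨t, ht, h1.le.trans hxt⟩
    simp only [h2, dite_true]
    exact h1
  · intro s
    have hA : IsSpecial {x : Down U | x.1 ∈ {t | t ∈ lev T X ∧ f t = s.1}} := by
      obtain ⟨A, hA, hE⟩ := hs s.1
      rw [hE]
      refine ⟨fun n => {x | x.1 ∈ A n}, fun n => ?_, by ext; simp⟩
      intro a ha b hb hne hle
      exact hA n ha hb (fun h => hne (Subtype.ext h)) hle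
    have hB : IsSpecial {x : Down U | ¬ ∃ y, y < x} := by
      refine isSpecial_of_isAntichain ?_
      intro a _ b hb hne hle
      exact hb ⟨a, lt_of_le_of_ne hle hne⟩
    refine (hA.union hB).mono ?_
    rintro x ⟨⟨α, hα, hx⟩, hxs⟩
    by_cases h0 : ∃ y, y < x
    · left
      have hx' : x.1 ∈ lev T X := ⟨α, hα, (hasHt_down U x α).1 hx⟩
      refine ⟨hx', ?_⟩
      obtain ⟨y, hy⟩ := h0
      have h1 : f x.1 < x.1 := hf x.1 hx' ⟨y.1, hy⟩
      have h2 : ∃ t ∈ U, f x.1 ≤ t := by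
        obtain ⟨t, ht, hxt⟩ := x.2
        exact ⟨t, ht, h1.le.trans hxt⟩
      simp only [h2, dite_true] at hxs
      rw [← hxs]
    · right; exact h0

theorem isSpecial_of_down (U : Set T) (h : IsSpecial (univ : Set (Down U))) : IsSpecial U := by
  obtain ⟨A, hA, hE⟩ := h
  have : IsSpecial (⋃ n, Subtype.val '' A n : Set T) := by
    refine isSpecial_iUnion fun n => isSpecial_of_isAntichain ?_
    rintro _ ⟨a, ha, rfl⟩ _ ⟨b, hb, rfl⟩ hne hle
    exact hA n ha hb (fun h => hne (congrArg _ h)) hle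
  refine this.mono fun t ht => ?_
  have h1 : (⟨t, t, ht, le_rfl⟩ : Down U) ∈ ⋃ n, A n := by rw [← hE]; trivial
  obtain ⟨n, hn⟩ := mem_iUnion.1 h1
  exact mem_iUnion.2 ⟨n, _, hn, rfl⟩

theorem mk_down_le (hT : IsTreeOmega1 T) (U : Set T) (hU : #U ≤ ℵ_ 1) : #(Down U) ≤ ℵ_ 1 := by
  have hc : ∀ t : T, #(Iic t) ≤ ℵ_ 1 := by
    intro t
    obtain ⟨α, ⟨g⟩⟩ := hT.exists_ht t
    have : (Iio t).Countable := by
      have := (countable_Iio α).to_subtype
      exact Set.countable_coe_iff.1 (g.toEquiv.countable_iff.2 this)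
    have h2 : (Iic t).Countable := by
      have e : Iic t = insert t (Iio t) := by ext; simp [le_iff_eq_or_lt]
      rw [e]; exact this.insert _
    exact (le_aleph0_iff_set_countable.2 h2).trans (Cardinal.aleph0_lt_aleph_one.le)
  have e : {s : T | ∃ t ∈ U, s ≤ t} = ⋃ t : U, Iic t.1 := by
    ext s; simp
  have h1 : #(⋃ t : U, Iic t.1 : Set T) ≤ ℵ_ 1 := by
    refine (Cardinal.mk_iUnion_le _).trans ?_
    have h2 : (⨆ t : U, #(Iic t.1)) ≤ ℵ_ 1 := ciSup_le' fun t => hc _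
    calc #U * (⨆ t : U, #(Iic t.1)) ≤ ℵ_ 1 * ℵ_ 1 := mul_le_mul' hU h2
      _ = ℵ_ 1 := Cardinal.mul_eq_self (Cardinal.aleph0_le_aleph 1)
  rw [← e] at h1
  exact h1

end sub

/-- relations coding trees on which the set `X` of levels is `NS` -/
def Bad (R : W1 → W1 → Prop) (X : Set W1) : Prop :=
  ∃ (T : Type u) (_ : PartialOrder T) (j : T ≃ W1), (∀ a b : T, a ≤ b ↔ R (j a) (j b)) ∧
    IsNS (lev T X)

/-- **Negative direction** -/
theorem negative (hR : RadoConjecture.{u}) (hD : Diamond) :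
    ∃ I : Set (Set W1), IsNormalIdeal I ∧ ∀ (T : Type u) [PartialOrder T], IsTreeOmega1 T →
      ¬ ∀ X, X ∈ I ↔ IsNS (lev T X) := by
  classical
  obtain ⟨B, hB⟩ := hD.independent'
  let C : (W1 → W1 → Prop) → Set W1 := fun R => if Bad.{u} R (B R) then (B R)ᶜ else B R
  have hC : ∀ x : W1 → (W1 → W1 → Prop), IsStationary {β : W1 | ∀ i < β, β ∉ C (x i)} := by
    intro x
    refine (hB (fun R => Bad.{u} R (B R)) x).mono ?_
    intro β hβ i hi
    have := hβ i hi
    by_cases hb : Bad.{u} (x i) (B (x i))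
    · simp only [C, hb, if_true, mem_compl_iff, not_not]
      exact this.2 hb
    · simp only [C, hb, if_false]
      exact fun h => hb (this.1 h)
  refine ⟨genIdeal C, isNormalIdeal_genIdeal C hC, ?_⟩
  intro T _ hT hall
  -- `T` is not special
  have hns : ¬ IsSpecial (univ : Set T) := by
    intro hs
    obtain ⟨r, hr⟩ := hT.root
    have : IsNS (lev T univ) := by
      refine ⟨fun _ => r, ?_, fun s => hs.mono (subset_univ _)⟩
      rintro t _ ⟨s, hst⟩
      exact lt_of_le_of_lt (hr s) hst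
    exact (isNormalIdeal_genIdeal C hC).proper ((hall _).2 this)
  -- a nonspecial subset of size `ℵ₁`
  have hU : ∃ U : Set T, #U ≤ ℵ_ 1 ∧ ¬ IsSpecial U := by
    by_contra h
    push Not at h
    exact hns (hR T hT h)
  obtain ⟨U, hU1, hU2⟩ := hU
  have hDns : ¬ IsSpecial (univ : Set (Down U)) := fun h => hU2 (isSpecial_of_down U h)
  have hcard : #(Down U) = ℵ_ 1 := by
    refine le_antisymm (mk_down_le hT U hU1) ?_
    by_contra h
    push Not at h
    rw [Cardinal.lt_aleph_one_iff] at h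
    apply hDns
    refine isSpecial_of_countable ?_
    rw [← le_aleph0_iff_set_countable, Cardinal.mk_univ]
    exact h
  have hj : Nonempty (Down U ≃ W1) := by
    rw [← Cardinal.lift_mk_eq', hcard, mk_W1]
    simp
  obtain ⟨j⟩ := hj
  let R : W1 → W1 → Prop := fun a b => j.symm a ≤ j.symm b
  have hRj : ∀ a b : Down U, a ≤ b ↔ R (j a) (j b) := by
    intro a b
    simp [R]
  -- the whole of `Down U` is not `NS`
  have hwo : ∀ x : Down U, IsWellOrder (Iio x) (· < ·) := by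
    intro x
    have := hT.wellOrdered x.1
    exact ((downIso U x).toOrderEmbedding.ltEmbedding).isWellOrder
  have huniv : ¬ IsNS (univ : Set (Down U)) := fun h => hDns (IsNS.isSpecial_univ hwo h)
  have hlevU : ∀ X : Set W1, lev (Down U) X ∪ lev (Down U) Xᶜ = Set.univ := by
    intro X
    ext x
    simp only [mem_union, mem_univ, iff_true]
    obtain ⟨α, hα⟩ := hT.exists_ht x.1
    by_cases h : α ∈ X
    · left; exact ⟨α, h, (hasHt_down U x α).2 hα⟩
    · right; exact ⟨α, h, (hasHt_down U x α).2 hα⟩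
  have h1 : IsNS (lev (Down U) (C R)) := isNS_down U ((hall _).1 (mem_genIdeal C R))
  by_cases hb : Bad.{u} R (B R)
  · have hb' := hb
    obtain ⟨T', _, j', hj', hns'⟩ := hb
    -- `T'` is isomorphic to `Down U`
    let e : T' ≃o Down U := {
      toEquiv := j'.trans j.symm
      map_rel_iff' := by
        intro a b
        rw [hj' a b]
        simp [R] }
    have h2 : IsNS (lev (Down U) (B R)) := hns'.map e
    have h3 : C R = (B R)ᶜ := by simp only [C, hb', if_true]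
    rw [h3] at h1
    apply huniv
    rw [← hlevU (B R)]
    exact h2.union h1
  · have h3 : C R = B R := by simp only [C, hb, if_false]
    rw [h3] at h1
    exact hb ⟨Down U, inferInstance, j, hRj, h1⟩

end Pool.Agent.MP2e4b78
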