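import Pool.Agent.Lib.MP_2e4b78_lc.Hull
import Pool.Agent.Lib.MP_2e4b78_lc.Ladder
import Pool.Agent.Lib.MP_2e4b78_lc.Special

/-!
# The tree of continuous chains of good countable models
-/

open Cardinal Set Order

namespace Pool.Agent.MP2e4b78

/-- the parameters of the construction -/
structure Par where
  I : Set (Set W1)
  hI : IsNormalIdeal I
  Xs : W2 → Set W1
  hXs : ∀ ξ, Xs ξ ∈ I
  hXs' : ∀ X ∈ I, ∃ ξ, Xs ξ = X
  E : Set W2
  hE : IsStationary E
  hEl : ∀ γ ∈ E, Lim γ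
  c : W2 → ℕ → W2
  hc1 : ∀ γ ∈ E, StrictMono (c γ)
  hc2 : ∀ γ ∈ E, ∀ n, c γ n < γ
  hc3 : ∀ γ ∈ E, ∀ x < γ, ∃ n, x < c γ n
  free : ∀ ξ : W2, ∃ h : W2 → ℕ, ∀ γ ∈ E, γ < ξ → ∀ γ' ∈ E, γ' < ξ → γ ≠ γ' →
      ∀ n ≥ h γ, ∀ m ≥ h γ', c γ n ≠ c γ' m
  e : W2 → W2 → W1
  he : ∀ ξ, InjOn (e ξ) (Iio ξ)

variable {P : Par}

/-- `(δ, M)` is closed: `M ∩ ξ = {η < ξ | e ξ η < δ}` for `ξ ∈ M` -/
def Closed (P : Par) (δ : W1) (M : Set W2) : Prop :=
  ∀ ξ ∈ M, ∀ η < ξ, (η ∈ M ↔ P.e ξ η < δ)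

/-- `γ ∈ E` is the supremum of `M` and the ladder at `γ` meets `M` cofinally -/
def IsTopOf (P : Par) (M : Set W2) (γ : W2) : Prop :=
  γ ∈ P.E ∧ (∀ η ∈ M, η < γ) ∧ ∀ x < γ, ∃ n, x < P.c γ n ∧ P.c γ n ∈ M

/-- the conditions at stage `i` -/
structure Stage (P : Par) (d : W1 → W1) (m : W1 → Set W2) (i : W1) : Prop where
  bot : i = ⊥ → d i = ⊥ ∧ m i = ∅
  cnt : (m i).Countable
  clo : Closed P (d i) (m i)
  lt : ∀ j < i, d j < d i ∧ m j ⊆ m i ∧ ∃ ζ ∈ m i, ∀ η ∈ m j, η < ζ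
  lim : Lim i → (∀ β < d i, ∃ j < i, β < d j) ∧ (∀ η ∈ m i, ∃ j < i, η ∈ m j) ∧
    (∀ ξ ∈ m i, d i ∉ P.Xs ξ) ∧ ∃ γ, IsTopOf P (m i) γ

theorem Stage.congr {d d' : W1 → W1} {m m' : W1 → Set W2} {i : W1} (h : Stage P d m i)
    (hd : ∀ j ≤ i, d j = d' j) (hm : ∀ j ≤ i, m j = m' j) : Stage P d' m' i := by
  have e1 := hd i le_rfl
  have e2 := hm i le_rfl
  refine ⟨fun hi => ?_, e2 ▸ h.cnt, e1 ▸ e2 ▸ h.clo, fun j hj => ?_, fun hl => ?_⟩
  · rw [← e1, ← e2]; exact h.bot hi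
  · rw [← e1, ← e2, ← hd j hj.le, ← hm j hj.le]; exact h.lt j hj
  · obtain ⟨h1, h2, h3, h4⟩ := h.lim hl
    rw [← e1, ← e2]
    refine ⟨fun β hβ => ?_, fun η hη => ?_, h3, h4⟩
    · obtain ⟨j, hj, h5⟩ := h1 β hβ
      exact ⟨j, hj, by rwa [← hd j hj.le]⟩
    · obtain ⟨j, hj, h5⟩ := h2 η hη
      exact ⟨j, hj, by rwa [← hm j hj.le]⟩

/-- the nodes of the tree: chains of length `len + 1` -/
@[ext]
structure Node (P : Par) where
  len : W1
  d : W1 → W1
  m : W1 → Set W2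
  d_out : ∀ i, len < i → d i = ⊥
  m_out : ∀ i, len < i → m i = ∅
  stage : ∀ i ≤ len, Stage P d m i

namespace Node

/-- construction by truncation -/
noncomputable def mk' (len : W1) (d : W1 → W1) (m : W1 → Set W2)
    (h : ∀ i ≤ len, Stage P d m i) : Node P := by
  classical
  exact {
    len := len
    d := fun i => if i ≤ len then d i else ⊥
    m := fun i => if i ≤ len then m i else ∅
    d_out := fun i hi => if_neg (not_le.2 hi)
    m_out := fun i hi => if_neg (not_le.2 hi)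
    stage := fun i hi => (h i hi).congr (fun j hj => (if_pos (hj.trans hi)).symm)
      (fun j hj => (if_pos (hj.trans hi)).symm) }

theorem mk'_len (len : W1) (d : W1 → W1) (m : W1 → Set W2) (h : ∀ i ≤ len, Stage P d m i) :
    (mk' len d m h).len = len := rfl

theorem mk'_d {len : W1} {d : W1 → W1} {m : W1 → Set W2} (h : ∀ i ≤ len, Stage P d m i) {i : W1}
    (hi : i ≤ len) : (mk' len d m h).d i = d i := if_pos hi

theorem mk'_m {len : W1} {d : W1 → W1} {m : W1 → Set W2} (h : ∀ i ≤ len, Stage P d m i) {i : W1}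
    (hi : i ≤ len) : (mk' len d m h).m i = m i := if_pos hi

instance : PartialOrder (Node P) where
  le s t := s.len ≤ t.len ∧ ∀ i ≤ s.len, s.d i = t.d i ∧ s.m i = t.m i
  le_refl s := ⟨le_rfl, fun _ _ => ⟨rfl, rfl⟩⟩
  le_trans s t u h1 h2 := ⟨h1.1.trans h2.1, fun i hi =>
    ⟨(h1.2 i hi).1.trans (h2.2 i (hi.trans h1.1)).1,
      (h1.2 i hi).2.trans (h2.2 i (hi.trans h1.1)).2⟩⟩
  le_antisymm s t h1 h2 := by
    have hl : s.len = t.len := le_antisymm h1.1 h2.1
    apply Node.ext hl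
    · funext i
      rcases le_or_gt i s.len with h | h
      · exact (h1.2 i h).1
      · rw [s.d_out i h, t.d_out i (hl ▸ h)]
    · funext i
      rcases le_or_gt i s.len with h | h
      · exact (h1.2 i h).2
      · rw [s.m_out i h, t.m_out i (hl ▸ h)]

theorem le_def {s t : Node P} :
    s ≤ t ↔ s.len ≤ t.len ∧ ∀ i ≤ s.len, s.d i = t.d i ∧ s.m i = t.m i := Iff.rfl

theorem eq_of_le_of_len {s t : Node P} (h : s ≤ t) (hl : s.len = t.len) : s = t := by
  refine le_antisymm h (le_def.2 ⟨hl.ge, fun i hi => ?_⟩)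
  have := h.2 i (hl ▸ hi)
  exact ⟨this.1.symm, this.2.symm⟩

theorem len_lt {s t : Node P} (h : s < t) : s.len < t.len :=
  lt_of_le_of_ne h.le.1 fun e => h.ne (eq_of_le_of_len h.le e)

theorem lt_of_len {s t : Node P} (h : s ≤ t) (hl : s.len < t.len) : s < t :=
  lt_of_le_of_ne h fun e => hl.ne (e ▸ rfl)

/-- restriction -/
noncomputable def res (t : Node P) (β : W1) (h : β ≤ t.len) : Node P :=
  mk' β t.d t.m (fun i hi => t.stage i (hi.trans h))

theorem res_le (t : Node P) (β : W1) (h : β ≤ t.len) : t.res β h ≤ t :=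
  le_def.2 ⟨h, fun _ hi => ⟨mk'_d _ hi, mk'_m _ hi⟩⟩

theorem res_len (t : Node P) (β : W1) (h : β ≤ t.len) : (t.res β h).len = β := rfl

theorem eq_res {s t : Node P} (h : s ≤ t) : s = t.res s.len h.1 := by
  refine eq_of_le_of_len (le_def.2 ⟨le_rfl, fun i hi => ?_⟩) rfl
  exact ⟨(h.2 i hi).1.trans (mk'_d _ hi).symm, (h.2 i hi).2.trans (mk'_m _ hi).symm⟩

theorem le_of_le_of_len {s s' t : Node P} (h : s ≤ t) (h' : s' ≤ t) (hl : s.len ≤ s'.len) :
    s ≤ s' := by
  refine le_def.2 ⟨hl, fun i hi => ?_⟩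
  exact ⟨(h.2 i hi).1.trans (h'.2 i (hi.trans hl)).1.symm,
    (h.2 i hi).2.trans (h'.2 i (hi.trans hl)).2.symm⟩

/-- predecessors -/
noncomputable def iioIso (t : Node P) : Iio t ≃o Iio t.len where
  toFun s := ⟨s.1.len, len_lt s.2⟩
  invFun β := ⟨t.res β.1 (le_of_lt β.2), lt_of_len (res_le _ _ _) β.2⟩
  left_inv s := Subtype.ext (eq_res (le_of_lt s.2)).symm
  right_inv β := rfl
  map_rel_iff' := by
    intro a b
    constructor
    · intro h
      exact le_of_le_of_len (le_of_lt a.2) (le_of_lt b.2) h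
    · intro h
      exact h.1

theorem hasHt_iff {t : Node P} {α : W1} : HasHt t α ↔ t.len = α := by
  constructor
  · intro h
    exact HasHt.unique ⟨t.iioIso⟩ h
  · rintro rfl
    exact ⟨t.iioIso⟩

/-- the root -/
noncomputable def root (P : Par) : Node P :=
  mk' ⊥ (fun _ => ⊥) (fun _ => ∅) (fun i hi => by
    have hi' : i = ⊥ := le_bot_iff.1 hi
    refine ⟨fun _ => ⟨rfl, rfl⟩, countable_empty, fun ξ hξ => absurd hξ (notMem_empty _),
      fun j hj => absurd (hi' ▸ hj) not_lt_bot, fun hl => ?_⟩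
    obtain ⟨j, hj⟩ := hl.1
    exact absurd (hi' ▸ hj) not_lt_bot)

theorem root_le (t : Node P) : root P ≤ t := by
  refine le_def.2 ⟨bot_le, fun i hi => ?_⟩
  have hi' : i = ⊥ := le_bot_iff.1 hi
  subst hi'
  have h1 := (t.stage ⊥ bot_le).bot rfl
  rw [h1.1, h1.2]
  exact ⟨mk'_d _ le_rfl, mk'_m _ le_rfl⟩

theorem d_le {t : Node P} {i j : W1} (h : i ≤ j) (hj : j ≤ t.len) : t.d i ≤ t.d j := by
  rcases h.eq_or_lt with rfl | h
  · exact le_rfl
  · exact ((t.stage j hj).lt i h).1.le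

theorem m_le {t : Node P} {i j : W1} (h : i ≤ j) (hj : j ≤ t.len) : t.m i ⊆ t.m j := by
  rcases h.eq_or_lt with rfl | h
  · exact Subset.rfl
  · exact ((t.stage j hj).lt i h).2.1

theorem le_d {t : Node P} : ∀ i ≤ t.len, i ≤ t.d i := by
  intro i
  induction i using WellFoundedLT.induction with
  | _ i ih =>
    intro hi
    by_contra hcon
    push Not at hcon
    have h1 := ih _ hcon (hcon.le.trans hi)
    have h2 := ((t.stage i hi).lt _ hcon).1
    exact absurd h1 (not_le.2 h2)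

/-- the top ordinal and the top set -/
abbrev dt (t : Node P) : W1 := t.d t.len
abbrev mt (t : Node P) : Set W2 := t.m t.len

theorem dt_mono {s t : Node P} (h : s ≤ t) : s.dt ≤ t.dt := by
  rw [dt, (h.2 _ le_rfl).1]
  exact d_le h.1 le_rfl

theorem mt_mono {s t : Node P} (h : s ≤ t) : s.mt ⊆ t.mt := by
  rw [mt, (h.2 _ le_rfl).2]
  exact m_le h.1 le_rfl

theorem not_lim_succ (i : W1) : ¬ Lim (Order.succ i) := fun h => by
  obtain ⟨k, hk1, hk2⟩ := h.2 i (Order.lt_succ i)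
  exact absurd hk2 (not_lt.2 (Order.succ_le_of_lt hk1))

/-- one more model -/
theorem exists_append (t : Node P) (δ : W1) (M : Set W2) (hM : M.Countable)
    (hclo : Closed P δ M) (hδ : t.dt < δ) (hsub : t.mt ⊆ M) (hζ : ∃ ζ ∈ M, ∀ η ∈ t.mt, η < ζ) :
    ∃ t' : Node P, t ≤ t' ∧ t'.len = Order.succ t.len ∧ t'.dt = δ ∧ t'.mt = M := by
  classical
  let d : W1 → W1 := fun i => if i ≤ t.len then t.d i else δ
  let m : W1 → Set W2 := fun i => if i ≤ t.len then t.m i else M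
  have hs : t.len < Order.succ t.len := Order.lt_succ _
  have hst : ∀ i ≤ Order.succ t.len, Stage P d m i := by
    intro i hi
    rcases le_or_gt i t.len with h | h
    · exact (t.stage i h).congr (fun j hj => (if_pos (hj.trans h)).symm)
        (fun j hj => (if_pos (hj.trans h)).symm)
    · have hi' : i = Order.succ t.len := le_antisymm hi (Order.succ_le_of_lt h)
      have e1 : d i = δ := if_neg (not_le.2 h)
      have e2 : m i = M := if_neg (not_le.2 h)
      refine ⟨fun h0 => ?_, by rw [e2]; exact hM, by rw [e1, e2]; exact hclo, fun j hj => ?_,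
        fun hl => ?_⟩
      · rw [h0] at h; exact absurd h not_lt_bot
      · have hj' : j ≤ t.len := by rw [hi'] at hj; exact Order.lt_succ_iff.1 hj
        rw [e1, e2]
        have e3 : d j = t.d j := if_pos hj'
        have e4 : m j = t.m j := if_pos hj'
        rw [e3, e4]
        refine ⟨(d_le hj' le_rfl).trans_lt hδ, (m_le hj' le_rfl).trans hsub, ?_⟩
        obtain ⟨ζ, hζ1, hζ2⟩ := hζ
        exact ⟨ζ, hζ1, fun η hη => hζ2 η (m_le hj' le_rfl hη)⟩
      · rw [hi'] at hl; exact absurd hl (not_lim_succ _)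
  refine ⟨mk' (Order.succ t.len) d m hst, ?_, rfl, ?_, ?_⟩
  · refine le_def.2 ⟨hs.le, fun i hi => ?_⟩
    rw [mk'_d hst (hi.trans hs.le), mk'_m hst (hi.trans hs.le)]
    exact ⟨(if_pos hi).symm, (if_pos hi).symm⟩
  · exact (mk'_d hst le_rfl).trans (if_neg (not_le.2 hs))
  · exact (mk'_m hst le_rfl).trans (if_neg (not_le.2 hs))

/-- limits of chains of nodes -/
theorem exists_limit (α δ : W1) (hα : Lim α) (M : Set W2) (γ : W2) (s : ℕ → Node P)
    (hs : ∀ n, s n ≤ s (n + 1)) (hlen : ∀ n, (s n).len < α) (hcof : ∀ x < α, ∃ n, x < (s n).len)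
    (hM : M = ⋃ n, (s n).mt) (hδ1 : ∀ n, (s n).dt < δ) (hδ2 : ∀ β < δ, ∃ n, β < (s n).dt)
    (hgood : ∀ ξ ∈ M, δ ∉ P.Xs ξ) (htop : IsTopOf P M γ) :
    ∃ t : Node P, t.len = α ∧ (∀ n, s n ≤ t) ∧ t.dt = δ ∧ t.mt = M := by
  classical
  have hsm : Monotone s := monotone_nat_of_le_succ hs
  choose! k hk using hcof
  let d : W1 → W1 := fun i => if i < α then (s (k i)).d i else δ
  let m : W1 → Set W2 := fun i => if i < α then (s (k i)).m i else M
  have hdm : ∀ i < α, ∀ n, i ≤ (s n).len → d i = (s n).d i ∧ m i = (s n).m i := by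
    intro i hi n hn
    have e1 : d i = (s (k i)).d i := if_pos hi
    have e2 : m i = (s (k i)).m i := if_pos hi
    rw [e1, e2]
    rcases le_total n (k i) with h | h
    · have := (hsm h).2 i hn
      exact ⟨this.1.symm, this.2.symm⟩
    · exact (hsm h).2 i (hk i hi).le
  have hst : ∀ i ≤ α, Stage P d m i := by
    intro i hi
    rcases hi.lt_or_eq with h | h
    · refine ((s (k i)).stage i (hk i h).le).congr (fun j hj => ?_) (fun j hj => ?_)
      · exact (hdm j (hj.trans_lt h) (k i) (hj.trans (hk i h).le)).1.symm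
      · exact (hdm j (hj.trans_lt h) (k i) (hj.trans (hk i h).le)).2.symm
    · subst h
      have e1 : d i = δ := if_neg (lt_irrefl _)
      have e2 : m i = M := if_neg (lt_irrefl _)
      refine ⟨fun h0 => ?_, ?_, ?_, fun j hj => ?_, fun _ => ⟨fun β hβ => ?_, fun η hη => ?_, ?_, ?_⟩⟩
      · obtain ⟨j, hj⟩ := hα.1
        rw [h0] at hj; exact absurd hj not_lt_bot
      · rw [e2, hM]
        exact countable_iUnion fun n => ((s n).stage _ le_rfl).cnt
      · rw [e1, e2]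
        intro ξ hξ η hη
        rw [hM] at hξ
        obtain ⟨n, hn⟩ := mem_iUnion.1 hξ
        constructor
        · intro hη2
          rw [hM] at hη2
          obtain ⟨n', hn'⟩ := mem_iUnion.1 hη2
          have h1 : ξ ∈ (s (max n n')).mt := mt_mono (hsm (le_max_left _ _)) hn
          have h2 : η ∈ (s (max n n')).mt := mt_mono (hsm (le_max_right _ _)) hn'
          exact ((((s (max n n')).stage _ le_rfl).clo ξ h1 η hη).1 h2).trans (hδ1 _)
        · intro hη2
          obtain ⟨n', hn'⟩ := hδ2 _ hη2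
          have h1 : ξ ∈ (s (max n n')).mt := mt_mono (hsm (le_max_left _ _)) hn
          have h2 : P.e ξ η < (s (max n n')).dt := hn'.trans_le (dt_mono (hsm (le_max_right _ _)))
          rw [hM]
          exact mem_iUnion.2 ⟨_, (((s (max n n')).stage _ le_rfl).clo ξ h1 η hη).2 h2⟩
      · obtain ⟨e3, e4⟩ := hdm j hj (k j) (hk j hj).le
        rw [e1, e2, e3, e4]
        have h3 := ((s (k j)).stage _ le_rfl).lt j (hk j hj)
        have h4 : (s (k j)).mt ⊆ M := by rw [hM]; exact subset_iUnion (fun n => (s n).mt) (k j)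
        refine ⟨h3.1.trans (hδ1 _), h3.2.1.trans h4, ?_⟩
        obtain ⟨ζ, hζ1, hζ2⟩ := h3.2.2
        exact ⟨ζ, h4 hζ1, hζ2⟩
      · rw [e1] at hβ
        obtain ⟨n, hn⟩ := hδ2 β hβ
        exact ⟨(s n).len, hlen n, by rw [(hdm _ (hlen n) n le_rfl).1]; exact hn⟩
      · rw [e2, hM] at hη
        obtain ⟨n, hn⟩ := mem_iUnion.1 hη
        exact ⟨(s n).len, hlen n, by rw [(hdm _ (hlen n) n le_rfl).2]; exact hn⟩
      · rw [e1, e2]; exact hgood
      · rw [e2]; exact ⟨γ, htop⟩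
  refine ⟨mk' α d m hst, rfl, fun n => ?_, ?_, ?_⟩
  · refine le_def.2 ⟨(hlen n).le, fun i hi => ?_⟩
    have hi' : i < α := hi.trans_lt (hlen n)
    rw [mk'_d hst hi'.le, mk'_m hst hi'.le]
    have := hdm i hi' n hi
    exact ⟨this.1.symm, this.2.symm⟩
  · exact (mk'_d hst le_rfl).trans (if_neg (lt_irrefl _))
  · exact (mk'_m hst le_rfl).trans (if_neg (lt_irrefl _))

end Node

end Pool.Agent.MP2e4b78
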