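import Pool.Agent.Lib.MP_2e4b78_lc.Model

/-!
# The positive direction
-/

open Cardinal Set Order

namespace Pool.Agent.MP2e4b78

variable {P : Par}

theorem mem_lev {X : Set W1} {t : Node P} : t ∈ lev (Node P) X ↔ t.len ∈ X := by
  constructor
  · rintro ⟨α, hα, h⟩
    rw [Node.hasHt_iff] at h
    rwa [h]
  · intro h
    exact ⟨t.len, h, Node.hasHt_iff.2 rfl⟩

/-- sets outside of the ideal are positive -/
theorem mem_of_isNS {S : Set W1} (h : IsNS (lev (Node P) S)) : S ∈ P.I := by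
  classical
  by_contra hS
  obtain ⟨f, hf, hs⟩ := h
  choose A hA hAU using hs
  let ext : Node P → W1 → Node P := fun s b =>
    if h : ∃ t', s ≤ t' ∧ t'.len = b then h.choose else s
  let phi : ℕ → Node P → Node P → Node P := fun n s r =>
    if h : ∃ t, s ≤ t ∧ t ∈ A r n then h.choose else s
  obtain ⟨NT, δ, M, γ, H, hA0, -, hδS⟩ := exists_thull P ext phi {Node.root P}
    (countable_singleton _) ⊥ S hS
  have hcN := H.cNT.to_subtype
  have hlen : ∀ s ∈ NT, s.len < δ := fun s hs => (Node.le_d _ le_rfl).trans_lt (H.dt_lt s hs)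
  obtain ⟨t, h1, h2, h3, h4, h5, h6⟩ := exists_fusion H δ H.lim le_rfl (fun s hs b hb hsb => by
      have hex : ∃ t', s ≤ t' ∧ t'.len = b := exists_ext s b hsb
      simp only [ext, dif_pos hex]
      exact hex.choose_spec) (ι := NT × ℕ)
    (fun i => {s | s ∈ A i.1.1 i.2 ∨ ∀ t, s ≤ t → t ∉ A i.1.1 i.2}) (by
      rintro ⟨⟨r, hr⟩, n⟩ s hs hsδ
      refine ⟨phi n s r, H.phi n s hs r hr, hlen _ (H.phi n s hs r hr), ?_⟩
      by_cases hex : ∃ t, s ≤ t ∧ t ∈ A r n
      · simp only [phi, dif_pos hex]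
        exact ⟨hex.choose_spec.1, Or.inl hex.choose_spec.2⟩
      · simp only [phi, dif_neg hex]
        push Not at hex
        exact ⟨le_rfl, Or.inr hex⟩) (Node.root P) (hA0 rfl) (by
      obtain ⟨j, hj⟩ := H.lim.1
      exact lt_of_le_of_lt bot_le hj)
  have htS : t ∈ lev (Node P) S := mem_lev.2 (by rw [h2]; exact hδS)
  have hne : ∃ s, s < t := by
    obtain ⟨j, hj⟩ := H.lim.1
    exact ⟨t.res j (by rw [h2]; exact hj.le), Node.lt_of_len (Node.res_le _ _ _)
      (by rw [Node.res_len, h2]; exact hj)⟩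
  have hft := hf t htS hne
  have hrl : (f t).len < δ := by rw [← h2]; exact Node.len_lt hft
  obtain ⟨s, hs1, hs2, hs3⟩ := h5 _ hrl
  have hr : f t ∈ NT := by
    have h7 : f t ≤ s := Node.le_of_le_of_len hft.le hs2 hs3.le
    rw [Node.eq_res h7]
    exact H.res s hs1 _ _
  have htA : t ∈ ⋃ n, A (f t) n := by
    rw [← hAU]
    exact ⟨htS, rfl⟩
  obtain ⟨n, hn⟩ := mem_iUnion.1 htA
  obtain ⟨s', hs1', hs2', hs3', hs4'⟩ := h6 (⟨f t, hr⟩, n)
  rcases hs4' with h8 | h8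
  · refine hA (f t) n h8 hn ?_ hs2'
    rintro rfl
    exact absurd hs3' (by rw [h2]; exact lt_irrefl _)
  · exact h8 t hs2' hn

/-! ### members of the ideal are small -/

theorem isAntichain_level (β : W1) : IsAntichain (· ≤ ·) {t : Node P | t.len = β} := by
  intro a ha b hb hne hle
  exact hne (Node.eq_of_le_of_len hle (ha.trans hb.symm))

theorem isSpecial_le (β : W1) : IsSpecial {t : Node P | t.len ≤ β} := by
  have := isSpecial_biUnion (U := fun i => {t : Node P | t.len = i}) (countable_Iic β)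
    fun i _ => isSpecial_of_isAntichain (isAntichain_level i)
  refine this.mono ?_
  intro t ht
  simp only [mem_iUnion]
  exact ⟨t.len, ht, rfl⟩

/-- nodes with the same top are incomparable -/
theorem top_antichain {γ : W2} {s t : Node P} (hs : IsTopOf P s.mt γ) (ht : IsTopOf P t.mt γ)
    (h : s ≤ t) : s = t := by
  by_contra hne
  have hlt : s.len < t.len := Node.len_lt (lt_of_le_of_ne h hne)
  obtain ⟨-, -, ζ, hζ1, hζ2⟩ := (t.stage _ le_rfl).lt _ hlt
  have h1 : ζ < γ := ht.2.1 ζ hζ1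
  obtain ⟨n, hn1, hn2⟩ := hs.2.2 ζ h1
  have h2 : P.c γ n ∈ t.m s.len := by
    have := (h.2 s.len le_rfl).2
    rw [← this]
    exact hn2
  exact absurd (hζ2 _ h2) (not_lt.2 hn1.le)

/-- the regressive choice at limits -/
def Q (P : Par) (ξ : W2) (h : W2 → ℕ) (t : Node P) (j : W1) : Prop :=
  t.len < t.d j ∨ (∃ η ∈ t.m j, ξ < η ∧ t.len ≤ P.e η ξ) ∨
    ∃ γ, γ ≤ ξ ∧ IsTopOf P t.mt γ ∧ ∃ n ≥ h γ, P.c γ n ∈ t.m j

theorem exists_Q {ξ : W2} (h : W2 → ℕ) (t : Node P) (hl : Lim t.len) (hX : t.len ∈ P.Xs ξ) :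
    ∃ j < t.len, Q P ξ h t j := by
  obtain ⟨h1, h2, h3, γ, hγ⟩ := (t.stage _ le_rfl).lim hl
  have h0 : t.len ≤ t.dt := Node.le_d _ le_rfl
  rcases h0.lt_or_eq with h4 | h4
  · obtain ⟨j, hj, hj2⟩ := h1 _ h4
    exact ⟨j, hj, Or.inl hj2⟩
  · have hξ : ξ ∉ t.mt := fun hξ => h3 ξ hξ (by
      have h5 : t.d t.len = t.len := h4.symm
      rw [h5]; exact hX)
    rcases lt_or_ge ξ γ with h5 | h5
    · obtain ⟨n, hn1, hn2⟩ := hγ.2.2 ξ h5
      have h6 := (t.stage _ le_rfl).clo _ hn2 ξ hn1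
      have h7 : t.len ≤ P.e (P.c γ n) ξ := by
        by_contra hcon
        rw [not_le, h4] at hcon
        exact hξ (h6.2 hcon)
      obtain ⟨j, hj, hj2⟩ := h2 _ hn2
      exact ⟨j, hj, Or.inr (Or.inl ⟨_, hj2, hn1, h7⟩)⟩
    · obtain ⟨n, hn1, hn2⟩ := hγ.2.2 _ (P.hc2 γ hγ.1 (h γ))
      have h6 : n ≥ h γ := by
        by_contra hcon
        push Not at hcon
        exact absurd hn1 (not_lt.2 ((P.hc1 γ hγ.1).monotone hcon.le))
      obtain ⟨j, hj, hj2⟩ := h2 _ hn2
      exact ⟨j, hj, Or.inr (Or.inr ⟨γ, h5, hγ, n, h6, hj2⟩)⟩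

theorem isNS_of_mem {X : Set W1} (hX : X ∈ P.I) : IsNS (lev (Node P) X) := by
  classical
  obtain ⟨ξ, rfl⟩ := P.hXs' X hX
  obtain ⟨h, hh⟩ := P.free (Order.succ ξ)
  have hg : ∀ t : Node P, ∃ j, j ≤ t.len ∧ (t.len ≠ ⊥ → j < t.len) ∧
      (Lim t.len → t.len ∈ P.Xs ξ → Q P ξ h t j) ∧
      (¬ Lim t.len → t.len ≠ ⊥ → t.len = Order.succ j) := by
    intro t
    by_cases hl : Lim t.len
    · by_cases hX : t.len ∈ P.Xs ξ
      · obtain ⟨j, hj, hQ⟩ := exists_Q h t hl hX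
        exact ⟨j, hj.le, fun _ => hj, fun _ _ => hQ, fun h => absurd hl h⟩
      · obtain ⟨j, hj⟩ := hl.1
        exact ⟨j, hj.le, fun _ => hj, fun _ h => absurd h hX, fun h => absurd hl h⟩
    · rcases not_lim_eq hl with h0 | ⟨α, hα, h0⟩
      · exact ⟨⊥, bot_le, fun h => absurd h0 h, fun h => absurd h hl, fun _ h => absurd h0 h⟩
      · exact ⟨α, hα.le, fun _ => hα, fun h => absurd h hl, fun _ _ => h0⟩
  choose g hg1 hg2 hg3 hg4 using hg
  refine ⟨fun t => t.res (g t) (hg1 t), ?_, ?_⟩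
  · rintro t ht ⟨s, hs⟩
    refine Node.lt_of_len (Node.res_le _ _ _) ?_
    rw [Node.res_len]
    refine hg2 t ?_
    intro h0
    have := Node.len_lt hs
    rw [h0] at this
    exact absurd this not_lt_bot
  · intro s
    have hcs : s.mt.Countable := (s.stage _ le_rfl).cnt
    have S1 : IsSpecial {t : Node P | t.len = ⊥} := isSpecial_of_isAntichain (isAntichain_level _)
    have S2 : IsSpecial {t : Node P | t.len = Order.succ s.len} :=
      isSpecial_of_isAntichain (isAntichain_level _)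
    have S3 : IsSpecial {t : Node P | t.len ≤ s.dt} := isSpecial_le _
    have S4 : IsSpecial (⋃ η ∈ s.mt, {t : Node P | t.len ≤ P.e η ξ}) :=
      isSpecial_biUnion hcs fun η _ => isSpecial_le _
    have S5 : IsSpecial (⋃ y ∈ s.mt, {t : Node P | ∃ γ, γ ≤ ξ ∧ IsTopOf P t.mt γ ∧
        ∃ n ≥ h γ, P.c γ n = y}) := by
      refine isSpecial_biUnion hcs fun y _ => isSpecial_of_isAntichain ?_
      rintro a ⟨γ, hγ1, hγ2, n, hn, hn2⟩ b ⟨γ', hγ1', hγ2', n', hn', hn2'⟩ hne hle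
      have : γ = γ' := by
        by_contra hγ
        exact hh γ hγ2.1 (Order.lt_succ_of_le hγ1) γ' hγ2'.1 (Order.lt_succ_of_le hγ1') hγ n hn
          n' hn' (hn2.trans hn2'.symm)
      subst this
      exact hne (top_antichain hγ2 hγ2' hle)
    refine (((S1.union S2).union S3).union (S4.union S5)).mono ?_
    rintro t ⟨htX, hts⟩
    have htX' : t.len ∈ P.Xs ξ := mem_lev.1 htX
    have hts' : t.res (g t) (hg1 t) = s := hts
    have hsl : s.len = g t := by rw [← hts', Node.res_len]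
    have hst : s ≤ t := by rw [← hts']; exact Node.res_le _ _ _
    have hd : t.d (g t) = s.dt := by
      rw [← hsl]; exact (hst.2 _ le_rfl).1.symm
    have hm : t.m (g t) = s.mt := by
      rw [← hsl]; exact (hst.2 _ le_rfl).2.symm
    by_cases hl : Lim t.len
    · rcases hg3 t hl htX' with h1 | ⟨η, h1, h2, h3⟩ | ⟨γ, h1, h2, n, hn, hn2⟩
      · left; right
        show t.len ≤ s.dt
        rw [← hd]; exact h1.le
      · right; left
        rw [hm] at h1
        exact mem_iUnion₂.2 ⟨η, h1, h3⟩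
      · right; right
        rw [hm] at hn2
        exact mem_iUnion₂.2 ⟨_, hn2, γ, h1, h2, n, hn, rfl⟩
    · left; left
      by_cases h0 : t.len = ⊥
      · left; exact h0
      · right
        show t.len = _
        rw [hsl]
        exact hg4 t hl h0

/-! ### the tree has height `ω₁` -/

theorem node_isTree (P : Par) : IsTreeOmega1 (Node P) where
  wellOrdered t := by
    have h : IsWellOrder (Iio t.len) (· < ·) := inferInstance
    exact (t.iioIso.toRelIsoLT.toRelEmbedding).isWellOrder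
  root := ⟨Node.root P, Node.root_le⟩
  exists_ht t := ⟨t.len, Node.hasHt_iff.2 rfl⟩
  level_nonempty α := by
    obtain ⟨t, -, ht⟩ := exists_ext (Node.root P) α bot_le
    exact ⟨t, Node.hasHt_iff.2 ht⟩

/-- the positive direction -/
theorem exists_par (h2 : (2 : Cardinal.{0}) ^ ℵ_ 1 = ℵ_ 2) (hN : NonreflectingStationary)
    (I : Set (Set W1)) (hI : IsNormalIdeal I) : ∃ P : Par, P.I = I := by
  classical
  obtain ⟨E, hE1, hE2, hE3⟩ := hN
  -- enumeration of the ideal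
  have hIne : Nonempty I := ⟨⟨∅, hI.empty_mem⟩⟩
  have hIle : #I ≤ #W2 := by
    refine (Cardinal.mk_set_le I).trans ?_
    rw [Cardinal.mk_set, mk_W1, mk_W2, h2]
  obtain ⟨g⟩ := Cardinal.le_def _ _ |>.1 hIle
  -- ladders
  have hc : ∀ γ : W2, ∃ b : ℕ → W2, γ ∈ E →
      StrictMono b ∧ (∀ n, b n < γ) ∧ ∀ x < γ, ∃ n, x < b n := by
    intro γ
    by_cases hγ : γ ∈ E
    · obtain ⟨b, hb⟩ := exists_seq_of_cof (hE1 γ hγ)
      exact ⟨b, fun _ => hb⟩
    · exact ⟨fun _ => γ, fun h => absurd h hγ⟩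
  choose c hc using hc
  choose e he using exists_inj
  exact ⟨{
    I := I
    hI := hI
    Xs := fun ξ => (Function.invFun g ξ : I)
    hXs := fun ξ => (Function.invFun g ξ : I).2
    hXs' := fun X hX => ⟨g ⟨X, hX⟩,
      congrArg Subtype.val (Function.leftInverse_invFun g.injective ⟨X, hX⟩)⟩
    E := E
    hE := hE2
    hEl := fun γ hγ => lim_of_cof (hE1 γ hγ)
    c := c
    hc1 := fun γ hγ => (hc γ hγ).1
    hc2 := fun γ hγ => (hc γ hγ).2.1
    hc3 := fun γ hγ => (hc γ hγ).2.2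
    free := exists_free E c (fun γ hγ => (hc γ hγ).1) (fun γ hγ => (hc γ hγ).2.1)
      (fun γ hγ => (hc γ hγ).2.2) (exists_sep E hE1 hE3)
    e := e
    he := he }, rfl⟩

theorem positive (h2 : (2 : Cardinal.{0}) ^ ℵ_ 1 = ℵ_ 2) (hN : NonreflectingStationary)
    (I : Set (Set W1)) (hI : IsNormalIdeal I) :
    ∃ (T : Type) (_ : PartialOrder T), IsTreeOmega1 T ∧
      ∀ X : Set W1, X ∈ I ↔ IsNS (lev T X) := by
  obtain ⟨P, rfl⟩ := exists_par h2 hN I hI
  exact ⟨Node P, inferInstance, node_isTree P, fun X => ⟨isNS_of_mem, mem_of_isNS⟩⟩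

end Pool.Agent.MP2e4b78
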