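import Pool.Agent.Lib.MP_2e4b78_lc.Chain

/-!
# Restrictions of realised ideals are realised
-/

open Cardinal Set Order

universe u v

namespace Pool.Agent.MP2e4b78

theorem exists_strict_chain {P : Type u} [PartialOrder P] {S : Set P} {ι : Type v} [Countable ι]
    (D : ι → Set P) (hD : ∀ i, ∀ s ∈ S, ∃ s' ∈ S, s ≤ s' ∧ s' ∈ D i)
    (hlt : ∀ s ∈ S, ∃ s' ∈ S, s < s') (s0 : P) (hs0 : s0 ∈ S) :
    ∃ s : ℕ → P, s0 ≤ s 0 ∧ (∀ n, s n ∈ S) ∧ (∀ n, s n < s (n + 1)) ∧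
      ∀ i, ∃ n, s n ∈ D i := by
  classical
  rcases isEmpty_or_nonempty ι with hi | hi
  · choose! nx h1 h2 using hlt
    let s : ℕ → P := fun n => Nat.rec s0 (fun _ sn => nx sn) n
    have hA : ∀ n, s n ∈ S := by
      intro n
      induction n with
      | zero => exact hs0
      | succ n ih => exact h1 _ ih
    exact ⟨s, le_rfl, hA, fun n => h2 _ (hA n), fun i => (hi.false i).elim⟩
  · obtain ⟨g, hg⟩ := exists_surjective_nat ι
    have hboth : ∀ i, ∀ s ∈ S, ∃ s' ∈ S, s < s' ∧ s' ∈ D i := by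
      intro i s hs
      obtain ⟨s1, h1, h2⟩ := hlt s hs
      obtain ⟨s2, h3, h4, h5⟩ := hD i s1 h1
      exact ⟨s2, h3, h2.trans_le h4, h5⟩
    choose! nx h1 h2 h3 using hboth
    let s : ℕ → P := fun n => Nat.rec s0 (fun n sn => nx (g n) sn) n
    have hA : ∀ n, s n ∈ S := by
      intro n
      induction n with
      | zero => exact hs0
      | succ n ih => exact h1 _ _ ih
    refine ⟨s, le_rfl, hA, fun n => h2 _ _ (hA n), fun i => ?_⟩
    obtain ⟨n, rfl⟩ := hg i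
    exact ⟨n + 1, h3 _ _ (hA n)⟩

section

variable {T : Type u} [PartialOrder T] {r : T} {A : Set W1}

theorem CN.mem_lev {X : Set W1} {c : CN T r A} : c ∈ lev (CN T r A) X ↔ c.len ∈ X := by
  constructor
  · rintro ⟨α, hα, h⟩
    rw [CN.hasHt_iff] at h
    rwa [h]
  · intro h
    exact ⟨c.len, h, CN.hasHt_iff.2 rfl⟩

/-- minimal elements of a set of nodes -/
def mins (Y : Set T) : Set T := {t | t ∈ Y ∧ ∀ s < t, s ∉ Y}

theorem exists_lt_of_notMem_mins {Y : Set T} {t : T} (h : t ∈ Y) (h2 : t ∉ mins Y) :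
    ∃ s < t, s ∈ Y := by
  by_contra hcon
  push Not at hcon
  exact h2 ⟨h, hcon⟩

/-- nodes above `u` in `T ↾ A` at which `c` can be continued -/
def DD1 (c : CN T r A) (u : T) : Set T := {t | t ∈ lev T A ∧ c.top < t ∧ u ≤ t}

/-- nodes at which a long extension of `c` ends -/
def DD2 (c : CN T r A) (β : W1) : Set T :=
  {t | c.top < t ∧ ∃ c' : CN T r A, c ≤ c' ∧ β ≤ c'.len ∧ c'.top = t}

/-- nodes at which no long extension of `c` ends -/
def ZZ (c : CN T r A) (β : W1) : Set T :=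
  {t | t ∈ lev T A ∧ c.top < t ∧ ¬ ∃ c' : CN T r A, c ≤ c' ∧ β ≤ c'.len ∧ c'.top = t}

open Classical in
/-- appending -/
noncomputable def appC (c : CN T r A) (s : T) : CN T r A :=
  if h : s ∈ lev T A ∧ c.top < s then (CN.exists_append c s h.1 h.2).choose else c

theorem appC_spec {c : CN T r A} {s : T} (h1 : s ∈ lev T A) (h2 : c.top < s) :
    c < appC c s ∧ (appC c s).top = s := by
  unfold appC
  rw [dif_pos ⟨h1, h2⟩]
  have := (CN.exists_append c s h1 h2).choose_spec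
  refine ⟨CN.lt_of_len this.1 ?_, this.2.2⟩
  rw [this.2.1]
  exact Order.lt_succ _

open Classical in
/-- long extensions -/
noncomputable def extC (c : CN T r A) (s : T) (β : W1) : CN T r A :=
  if h : ∃ c' : CN T r A, c ≤ c' ∧ β ≤ c'.len ∧ c'.top = s then h.choose else c

theorem extC_spec {c : CN T r A} {s : T} {β : W1}
    (h : ∃ c' : CN T r A, c ≤ c' ∧ β ≤ c'.len ∧ c'.top = s) :
    c ≤ extC c s β ∧ β ≤ (extC c s β).len ∧ (extC c s β).top = s := by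
  unfold extC
  rw [dif_pos h]
  exact h.choose_spec

/-- the functions used for long extensions -/
noncomputable def F1 (β : W1) : Option (Iio β) → (T ⊕ CN T r A) → (T ⊕ CN T r A) →
    (T ⊕ CN T r A)
  | none, .inr c, .inl s => .inr (appC c s)
  | some b, .inr c, .inl s => .inr (extC c s b.1)
  | _, a, _ => a

/-- the small sets used for long extensions -/
def Z1 (β : W1) : (T ⊕ CN T r A) → (T ⊕ CN T r A) → Set T
  | .inr c, .inl u => mins (DD1 c u) ∪ ⋃ b : Iio β, (ZZ c b.1 ∪ mins (DD2 c b.1))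
  | _, _ => ∅

theorem isNS_ZZ (hT : IsTreeOmega1 T) (β : W1) : ∀ c : CN T r A, IsNS (ZZ c β) := by
  classical
  induction β using WellFoundedLT.induction with
  | _ β ih =>
    intro c
    by_contra hcon
    have hcβ := (countable_Iio β).to_subtype
    have hZ : ∀ a b : T ⊕ CN T r A, IsNS (Z1 β a b) := by
      have hempty : IsNS (∅ : Set T) := (isNS_minimal hT (∅ : Set T)).mono (empty_subset _)
      rintro (a | a) (b | b)
      · exact hempty
      · exact hempty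
      · exact (isNS_minimal hT _).union
          (IsNS.iUnion fun x => (ih x.1 x.2 a).union (isNS_minimal hT _))
      · exact hempty
    obtain ⟨t, ht, htl, hgen⟩ := exists_generic hT hcon (F1 β) {Sum.inr c}
      (countable_singleton _) (fun s => Sum.inl s) (Z1 β) hZ
    set N : Set (T ⊕ CN T r A) :=
      {x | GCl (F1 β) ({Sum.inr c} ∪ (fun s => Sum.inl s) '' Iio t) x} with hN
    have hNt : ∀ s < t, (Sum.inl s : T ⊕ CN T r A) ∈ N := fun s hs =>
      GCl.base _ (Or.inr ⟨s, hs, rfl⟩)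
    have hNF : ∀ k a b, a ∈ N → b ∈ N → F1 β k a b ∈ N := fun k a b ha hb =>
      GCl.step k a b ha hb
    obtain ⟨⟨u0, hu0⟩, -⟩ := id htl
    have key : ∀ c1 : CN T r A, Sum.inr c1 ∈ N → ∀ u < t, t ∉ mins (DD1 c1 u) ∧
        ∀ b < β, t ∉ ZZ c1 b ∧ t ∉ mins (DD2 c1 b) := by
      intro c1 hc1 u hu
      have h1 := hgen _ _ hc1 (hNt u hu)
      refine ⟨fun h => h1 (Or.inl h), fun b hb => ⟨fun h => h1 (Or.inr ?_),
        fun h => h1 (Or.inr ?_)⟩⟩
      · exact mem_iUnion.2 ⟨⟨b, hb⟩, Or.inl h⟩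
      · exact mem_iUnion.2 ⟨⟨b, hb⟩, Or.inr h⟩
    let S : Set (CN T r A) := {c1 | Sum.inr c1 ∈ N ∧ c1.top < t ∧ c ≤ c1}
    have hS1 : ∀ c1 ∈ S, ∀ u < t, ∃ c2 ∈ S, c1 < c2 ∧ u ≤ c2.top := by
      rintro c1 ⟨h1, h2, h3⟩ u hu
      obtain ⟨s, hs, hs2⟩ := exists_lt_of_notMem_mins (show t ∈ DD1 c1 u from
        ⟨ht.1, h2, hu.le⟩) (key c1 h1 u hu).1
      have h4 := appC_spec hs2.1 hs2.2.1
      have h5 : (Sum.inr (appC c1 s) : T ⊕ CN T r A) ∈ N := hNF none _ _ h1 (hNt s hs)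
      exact ⟨appC c1 s, ⟨h5, by rw [h4.2]; exact hs, h3.trans h4.1.le⟩, h4.1,
        by rw [h4.2]; exact hs2.2.2⟩
    have hS2 : ∀ c1 ∈ S, ∀ b < β, ∃ c2 ∈ S, c1 ≤ c2 ∧ b ≤ c2.len := by
      rintro c1 ⟨h1, h2, h3⟩ b hb
      have h4 := (key c1 h1 u0 hu0).2 b hb
      have h5 : ∃ c' : CN T r A, c1 ≤ c' ∧ b ≤ c'.len ∧ c'.top = t := by
        by_contra h
        exact h4.1 ⟨ht.1, h2, h⟩
      obtain ⟨s, hs, hs2⟩ := exists_lt_of_notMem_mins (show t ∈ DD2 c1 b from ⟨h2, h5⟩) h4.2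
      have h6 := extC_spec hs2.2
      have h7 : (Sum.inr (extC c1 s b) : T ⊕ CN T r A) ∈ N :=
        hNF (some ⟨b, hb⟩) _ _ h1 (hNt s hs)
      exact ⟨extC c1 s b, ⟨h7, by rw [h6.2.2]; exact hs, h3.trans h6.1⟩, h6.1, h6.2.1⟩
    have hcS : c ∈ S := ⟨GCl.base _ (Or.inl rfl), ht.2.1, le_rfl⟩
    have hct := (countable_Iio_node hT t).to_subtype
    obtain ⟨s, e0, e1, e2, e3⟩ := exists_strict_chain (S := S) (ι := Iio t ⊕ Iio β)
      (fun i => Sum.elim (fun u => {c2 | u.1 ≤ c2.top}) (fun b => {c2 | b.1 ≤ c2.len}) i)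
      (by
        rintro (u | b) c1 hc1
        · obtain ⟨c2, h1, h2, h3⟩ := hS1 c1 hc1 u.1 u.2
          exact ⟨c2, h1, h2.le, h3⟩
        · obtain ⟨c2, h1, h2, h3⟩ := hS2 c1 hc1 b.1 b.2
          exact ⟨c2, h1, h2, h3⟩)
      (fun c1 hc1 => by
        obtain ⟨c2, h1, h2, h3⟩ := hS1 c1 hc1 u0 hu0
        exact ⟨c2, h1, h2⟩) c hcS
    obtain ⟨cs, h1, h2, h3, h4, h5⟩ := CN.exists_limit t ht.1 s e2 (fun n => (e1 n).2.1)
      (fun u hu => e3 (Sum.inl ⟨u, hu⟩))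
    apply ht.2.2
    refine ⟨cs, e0.trans (h3 0), ?_, h1⟩
    by_contra h6
    rw [not_le] at h6
    obtain ⟨n, hn⟩ := e3 (Sum.inr ⟨cs.len, h6⟩)
    exact absurd (h4 n) (not_lt.2 hn)

theorem cn_isTree (hT : IsTreeOmega1 T) (hr : ∀ t, r ≤ t) (hA : ¬ IsNS (lev T A)) :
    IsTreeOmega1 (CN T r A) where
  wellOrdered t := by
    have h : IsWellOrder (Iio t.len) (· < ·) := inferInstance
    exact (t.iioIso.toRelIsoLT.toRelEmbedding).isWellOrder
  root := ⟨CN.root T r A, CN.root_le⟩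
  exists_ht t := ⟨t.len, CN.hasHt_iff.2 rfl⟩
  level_nonempty α := by
    have h1 : IsNS ({t : T | ¬ LimNode t} ∪ ZZ (CN.root T r A) α) :=
      isNS_not_limNode.union (isNS_ZZ hT α _)
    have h2 : ∃ t ∈ lev T A, t ∉ {t : T | ¬ LimNode t} ∪ ZZ (CN.root T r A) α := by
      by_contra hcon
      push Not at hcon
      exact hA (h1.mono hcon)
    obtain ⟨t, ht, ht2⟩ := h2
    have hl : LimNode t := by
      by_contra h
      exact ht2 (Or.inl h)
    obtain ⟨s, hs⟩ := hl.1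
    have hlt : (CN.root T r A).top < t := by
      rw [CN.root_top]
      exact lt_of_le_of_lt (hr s) hs
    have h3 : ∃ c' : CN T r A, CN.root T r A ≤ c' ∧ α ≤ c'.len ∧ c'.top = t := by
      by_contra h
      exact ht2 (Or.inr ⟨ht, hlt, h⟩)
    obtain ⟨c', _, h4, _⟩ := h3
    exact ⟨c'.res α h4, CN.hasHt_iff.2 rfl⟩

/-! ### the main direction -/

/-- the universe -/
abbrev UC (T : Type u) [PartialOrder T] (r : T) (A : Set W1) : Type u :=
  T ⊕ CN T r A ⊕ (CN T r A × T)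

open Classical in
/-- entering an antichain -/
noncomputable def phiC (𝒜 : CN T r A → ℕ → Set (CN T r A)) (n : ℕ) (c : CN T r A) (s : T)
    (q : CN T r A) : CN T r A :=
  if h : ∃ c' : CN T r A, c ≤ c' ∧ c' ∈ 𝒜 q n ∧ c'.top ≤ s then h.choose else c

theorem phiC_spec {𝒜 : CN T r A → ℕ → Set (CN T r A)} {n : ℕ} {c : CN T r A} {s : T}
    {q : CN T r A} (h : ∃ c' : CN T r A, c ≤ c' ∧ c' ∈ 𝒜 q n ∧ c'.top ≤ s) :
    c ≤ phiC 𝒜 n c s q ∧ phiC 𝒜 n c s q ∈ 𝒜 q n ∧ (phiC 𝒜 n c s q).top ≤ s := by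
  unfold phiC
  rw [dif_pos h]
  exact h.choose_spec

open Classical in
/-- the functions -/
noncomputable def F2 (hT : IsTreeOmega1 T) (𝒜 : CN T r A → ℕ → Set (CN T r A)) :
    ℕ × ℕ → UC T r A → UC T r A → UC T r A
  | (0, _), .inr (.inl c), .inl s => .inr (.inl (appC c s))
  | (1, _), .inr (.inl c), .inl s => .inr (.inr (c, s))
  | (2, _), .inr (.inr (c, s)), .inl s' => .inr (.inl (extC c s (ht hT s')))
  | (3, _), .inr (.inl c), .inl s =>
      .inr (.inl (if h : ht hT s ≤ c.len then c.res (ht hT s) h else c))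
  | (4, n), .inr (.inr (c, s)), .inr (.inl q) => .inr (.inl (phiC 𝒜 n c s q))
  | _, a, _ => a

/-- nodes above which an antichain can be entered -/
def YY (𝒜 : CN T r A → ℕ → Set (CN T r A)) (n : ℕ) (c q : CN T r A) : Set T :=
  {t | c.top < t ∧ ∃ c' : CN T r A, c ≤ c' ∧ c' ∈ 𝒜 q n ∧ c'.top ≤ t}

/-- the small sets -/
noncomputable def Z2 (hT : IsTreeOmega1 T) (𝒜 : CN T r A → ℕ → Set (CN T r A)) :
    UC T r A → UC T r A → Set T
  | .inr (.inl c), .inl u =>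
      mins (DD1 c u) ∪ (ZZ c (ht hT u) ∪ mins (DD2 c (ht hT u)))
  | .inr (.inl c), .inr (.inl q) => ⋃ n : ℕ, mins (YY 𝒜 n c q)
  | _, _ => ∅

theorem isNS_of_isNS_cn (hT : IsTreeOmega1 T) (hr : ∀ t, r ≤ t) {X : Set W1}
    (h : IsNS (lev (CN T r A) X)) : IsNS (lev T (X ∩ A)) := by
  classical
  by_contra hB
  obtain ⟨f, hf, hs⟩ := h
  choose 𝒜 h𝒜 h𝒜U using hs
  have hZ : ∀ a b : UC T r A, IsNS (Z2 hT 𝒜 a b) := by
    have hempty : IsNS (∅ : Set T) := (isNS_minimal hT (∅ : Set T)).mono (empty_subset _)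
    rintro (a | a | a) (b | b | b)
    · exact hempty
    · exact hempty
    · exact hempty
    · exact (isNS_minimal hT _).union ((isNS_ZZ hT _ a).union (isNS_minimal hT _))
    · exact IsNS.iUnion fun n => isNS_minimal hT _
    · exact hempty
    · exact hempty
    · exact hempty
    · exact hempty
  obtain ⟨t, htB, htl, hgen⟩ := exists_generic hT hB (F2 hT 𝒜)
    {Sum.inr (Sum.inl (CN.root T r A))} (countable_singleton _) (fun s => Sum.inl s)
    (Z2 hT 𝒜) hZ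
  set N : Set (UC T r A) :=
    {x | GCl (F2 hT 𝒜) ({Sum.inr (Sum.inl (CN.root T r A))} ∪ (fun s => Sum.inl s) '' Iio t) x}
    with hN
  have hct := (countable_Iio_node hT t).to_subtype
  have hNc : N.Countable := countable_gcl ((countable_singleton _).union
    ((countable_Iio_node hT t).image _))
  have hNt : ∀ s < t, (Sum.inl s : UC T r A) ∈ N := fun s hs =>
    GCl.base _ (Or.inr ⟨s, hs, rfl⟩)
  have hNF : ∀ k a b, a ∈ N → b ∈ N → F2 hT 𝒜 k a b ∈ N := fun k a b ha hb =>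
    GCl.step k a b ha hb
  obtain ⟨⟨u0, hu0⟩, -⟩ := id htl
  have htX : ht hT t ∈ X ∩ A := (mem_lev_iff hT).1 htB
  have htA : t ∈ lev T A := (mem_lev_iff hT).2 htX.2
  have key1 : ∀ c1 : CN T r A, (Sum.inr (Sum.inl c1) : UC T r A) ∈ N → ∀ u < t,
      t ∉ mins (DD1 c1 u) ∧ t ∉ ZZ c1 (ht hT u) ∧ t ∉ mins (DD2 c1 (ht hT u)) := by
    intro c1 hc1 u hu
    have h1 := hgen _ _ hc1 (hNt u hu)
    exact ⟨fun h => h1 (Or.inl h), fun h => h1 (Or.inr (Or.inl h)),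
      fun h => h1 (Or.inr (Or.inr h))⟩
  have key2 : ∀ c1 q : CN T r A, (Sum.inr (Sum.inl c1) : UC T r A) ∈ N →
      (Sum.inr (Sum.inl q) : UC T r A) ∈ N → ∀ n, t ∉ mins (YY 𝒜 n c1 q) := by
    intro c1 q hc1 hq n h
    exact hgen _ _ hc1 hq (mem_iUnion.2 ⟨n, h⟩)
  let S : Set (CN T r A) := {c1 | (Sum.inr (Sum.inl c1) : UC T r A) ∈ N ∧ c1.top < t}
  have hS1 : ∀ c1 ∈ S, ∀ u < t, ∃ c2 ∈ S, c1 < c2 ∧ u ≤ c2.top := by
    rintro c1 ⟨h1, h2⟩ u hu
    obtain ⟨s, hs, hs2⟩ := exists_lt_of_notMem_mins (show t ∈ DD1 c1 u from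
      ⟨htA, h2, hu.le⟩) (key1 c1 h1 u hu).1
    have h4 := appC_spec hs2.1 hs2.2.1
    have h5 : (Sum.inr (Sum.inl (appC c1 s)) : UC T r A) ∈ N :=
      hNF (0, 0) _ _ h1 (hNt s hs)
    exact ⟨appC c1 s, ⟨h5, by rw [h4.2]; exact hs⟩, h4.1, by rw [h4.2]; exact hs2.2.2⟩
  have hS2 : ∀ c1 ∈ S, ∀ u < t, ∃ c2 ∈ S, c1 ≤ c2 ∧ ht hT u ≤ c2.len := by
    rintro c1 ⟨h1, h2⟩ u hu
    have h4 := (key1 c1 h1 u hu).2
    have h5 : ∃ c' : CN T r A, c1 ≤ c' ∧ ht hT u ≤ c'.len ∧ c'.top = t := by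
      by_contra h
      exact h4.1 ⟨htA, h2, h⟩
    obtain ⟨s, hs, hs2⟩ := exists_lt_of_notMem_mins (show t ∈ DD2 c1 (ht hT u) from ⟨h2, h5⟩) h4.2
    have h6 := extC_spec hs2.2
    have h8 : (Sum.inr (Sum.inr (c1, s)) : UC T r A) ∈ N := hNF (1, 0) _ _ h1 (hNt s hs)
    have h7 : (Sum.inr (Sum.inl (extC c1 s (ht hT u))) : UC T r A) ∈ N :=
      hNF (2, 0) _ _ h8 (hNt u hu)
    exact ⟨extC c1 s (ht hT u), ⟨h7, by rw [h6.2.2]; exact hs⟩, h6.1, h6.2.1⟩
  have hS3 : ∀ c1 ∈ S, ∀ q : CN T r A, (Sum.inr (Sum.inl q) : UC T r A) ∈ N → ∀ n,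
      ∃ c2 ∈ S, c1 ≤ c2 ∧ (c2 ∈ 𝒜 q n ∨ ∀ c' : CN T r A, c2 ≤ c' → c'.top ≤ t → c' ∉ 𝒜 q n) := by
    rintro c1 ⟨h1, h2⟩ q hq n
    by_cases hY : t ∈ YY 𝒜 n c1 q
    · obtain ⟨s, hs, hs2⟩ := exists_lt_of_notMem_mins hY (key2 c1 q h1 hq n)
      have h6 := phiC_spec hs2.2
      have h8 : (Sum.inr (Sum.inr (c1, s)) : UC T r A) ∈ N := hNF (1, 0) _ _ h1 (hNt s hs)
      have h7 : (Sum.inr (Sum.inl (phiC 𝒜 n c1 s q)) : UC T r A) ∈ N :=
        hNF (4, n) _ _ h8 hq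
      exact ⟨phiC 𝒜 n c1 s q, ⟨h7, h6.2.2.trans_lt hs⟩, h6.1, Or.inl h6.2.1⟩
    · refine ⟨c1, ⟨h1, h2⟩, le_rfl, Or.inr fun c' hc' htop hmem => hY ⟨h2, c', hc', hmem, htop⟩⟩
  have hcS : CN.root T r A ∈ S := ⟨GCl.base _ (Or.inl rfl), by
    rw [CN.root_top]; exact lt_of_le_of_lt (hr u0) hu0⟩
  let Q : Set (CN T r A) := {q | (Sum.inr (Sum.inl q) : UC T r A) ∈ N}
  have hQc : Q.Countable :=
    hNc.preimage (fun a b h => Sum.inl_injective (Sum.inr_injective h))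
  have hQc' := hQc.to_subtype
  obtain ⟨s, e0, e1, e2, e3⟩ := exists_strict_chain (S := S) (ι := (Iio t ⊕ Iio t) ⊕ (Q × ℕ))
    (fun i => Sum.elim (Sum.elim (fun u => {c2 | u.1 ≤ c2.top}) (fun u => {c2 | ht hT u.1 ≤ c2.len}))
      (fun x => {c2 | c2 ∈ 𝒜 x.1.1 x.2 ∨
        ∀ c' : CN T r A, c2 ≤ c' → c'.top ≤ t → c' ∉ 𝒜 x.1.1 x.2}) i)
    (by
      rintro ((u | u) | ⟨q, n⟩) c1 hc1
      · obtain ⟨c2, h1, h2, h3⟩ := hS1 c1 hc1 u.1 u.2
        exact ⟨c2, h1, h2.le, h3⟩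
      · exact hS2 c1 hc1 u.1 u.2
      · exact hS3 c1 hc1 q.1 q.2 n)
    (fun c1 hc1 => by
      obtain ⟨c2, h1, h2, h3⟩ := hS1 c1 hc1 u0 hu0
      exact ⟨c2, h1, h2⟩) _ hcS
  obtain ⟨cs, h1, h2, h3, h4, h5⟩ := CN.exists_limit t htA s e2 (fun n => (e1 n).2)
    (fun u hu => e3 (Sum.inl (Sum.inl ⟨u, hu⟩)))
  have hlen : cs.len = ht hT t := by
    apply le_antisymm
    · have := CN.le_ht_g hT (t := cs) _ le_rfl
      rwa [show cs.g cs.len = t from h1] at this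
    · by_contra hcon
      rw [not_le] at hcon
      obtain ⟨u, hu, hu2⟩ := exists_ht_eq hT hcon
      obtain ⟨n, hn⟩ := e3 (Sum.inl (Sum.inr ⟨u, hu⟩))
      have hn' : ht hT u ≤ (s n).len := hn
      rw [hu2] at hn'
      exact absurd (h4 n) (not_lt.2 hn')
  have hcs : cs ∈ lev (CN T r A) X := CN.mem_lev.2 (by rw [hlen]; exact htX.1)
  have hmin : ∃ c, c < cs := ⟨s 0, CN.lt_of_len (h3 0) (h4 0)⟩
  have hfc := hf cs hcs hmin
  obtain ⟨n, hn⟩ := h5 _ (CN.len_lt hfc)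
  have hfn : f cs ≤ s n := CN.le_of_le_of_len hfc.le (h3 n) hn.le
  have hfN : (Sum.inr (Sum.inl (f cs)) : UC T r A) ∈ N := by
    have hlt : (f cs).len < ht hT t := by rw [← hlen]; exact CN.len_lt hfc
    obtain ⟨u, hu, hu2⟩ := exists_ht_eq hT hlt
    have h6 := hNF (3, 0) _ _ (e1 n).1 (hNt u hu)
    have h7 : (Sum.inr (Sum.inl (if h : ht hT u ≤ (s n).len then (s n).res (ht hT u) h
        else s n)) : UC T r A) ∈ N := h6
    have h8 : ht hT u ≤ (s n).len := by rw [hu2]; exact hn.le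
    rw [dif_pos h8] at h7
    have h9 : f cs = (s n).res (ht hT u) h8 := by
      have := CN.eq_res hfn
      rw [this]
      exact CN.eq_of_le_of_len (CN.le_of_le_of_len (CN.res_le _ _ _) (CN.res_le _ _ _)
        (by rw [CN.res_len, CN.res_len, hu2])) (by rw [CN.res_len, CN.res_len, hu2])
    rw [h9]
    exact h7
  have hmem : cs ∈ ⋃ m, 𝒜 (f cs) m := by
    rw [← h𝒜U]
    exact ⟨hcs, rfl⟩
  obtain ⟨m, hm⟩ := mem_iUnion.1 hmem
  obtain ⟨k, hk⟩ := e3 (Sum.inr (⟨f cs, hfN⟩, m))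
  rcases hk with hk | hk
  · refine h𝒜 (f cs) m hk hm ?_ (h3 k)
    rintro he
    have := h4 k
    rw [he] at this
    exact lt_irrefl _ this
  · exact hk cs (h3 k) (by rw [h1]) hm

/-! ### the converse -/

theorem isNS_cn_of_isNS (hT : IsTreeOmega1 T) {X : Set W1} (h : IsNS (lev T (X ∩ A))) :
    IsNS (lev (CN T r A) X) := by
  classical
  obtain ⟨f, hf, hs⟩ := h
  have hg : ∀ c : CN T r A, ∃ j, j ≤ c.len ∧ (c.len ≠ ⊥ → j < c.len) ∧
      (Lim c.len → c.len ∈ X → c.len < ht hT (c.g j) ∨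
        (c.top ∈ lev T (X ∩ A) ∧ f c.top ≤ c.g j)) ∧
      (¬ Lim c.len → c.len ≠ ⊥ → c.len = Order.succ j) := by
    intro c
    by_cases hl : Lim c.len
    · by_cases hX : c.len ∈ X
      · have h0 : c.len ≤ ht hT c.top := CN.le_ht_g hT _ le_rfl
        rcases h0.lt_or_eq with h1 | h1
        · obtain ⟨s, hs1, hs2⟩ := exists_ht_eq hT h1
          obtain ⟨j, hj, hj2⟩ := (c.stage _ le_rfl).lim hl s hs1
          have hj' : Order.succ j < c.len := succ_lt_of_lim hl hj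
          refine ⟨Order.succ j, hj'.le, fun _ => hj', fun _ _ => Or.inl ?_,
            fun h => absurd hl h⟩
          have h2 : s < c.g (Order.succ j) :=
            hj2.trans_lt (CN.g_lt (Order.lt_succ j) hj'.le)
          have := ht_lt hT h2
          rwa [hs2] at this
        · have hne : c.len ≠ ⊥ := by
            obtain ⟨j, hj⟩ := hl.1
            intro h0
            rw [h0] at hj
            exact not_lt_bot hj
          have hA : c.top ∈ lev T A := (c.stage _ le_rfl).mem hne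
          have hXA : c.top ∈ lev T (X ∩ A) := (mem_lev_iff hT).2
            ⟨by rw [← h1]; exact hX, (mem_lev_iff hT).1 hA⟩
          have hmin : ∃ s, s < c.top := by
            obtain ⟨j, hj⟩ := hl.1
            exact ⟨_, CN.g_lt hj le_rfl⟩
          obtain ⟨j, hj, hj2⟩ := (c.stage _ le_rfl).lim hl _ (hf _ hXA hmin)
          exact ⟨j, hj.le, fun _ => hj, fun _ _ => Or.inr ⟨hXA, hj2⟩, fun h => absurd hl h⟩
      · obtain ⟨j, hj⟩ := hl.1
        exact ⟨j, hj.le, fun _ => hj, fun _ h => absurd h hX, fun h => absurd hl h⟩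
    · rcases not_lim_eq hl with h0 | ⟨α, hα, h0⟩
      · exact ⟨⊥, bot_le, fun h => absurd h0 h, fun h => absurd h hl, fun _ h => absurd h0 h⟩
      · exact ⟨α, hα.le, fun _ => hα, fun h => absurd h hl, fun _ _ => h0⟩
  choose j hj1 hj2 hj3 hj4 using hg
  refine ⟨fun c => c.res (j c) (hj1 c), ?_, ?_⟩
  · rintro c hc ⟨c', hc'⟩
    refine CN.lt_of_len (CN.res_le _ _ _) ?_
    rw [CN.res_len]
    refine hj2 c ?_
    intro h0
    have := CN.len_lt hc'
    rw [h0] at this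
    exact absurd this not_lt_bot
  · intro q
    have hlevel : ∀ β : W1, IsSpecial {c : CN T r A | c.len = β} := by
      intro β
      refine isSpecial_of_isAntichain ?_
      intro a ha b hb hne hle
      exact hne (CN.eq_of_le_of_len hle (ha.trans hb.symm))
    have hle : ∀ β : W1, IsSpecial {c : CN T r A | c.len ≤ β} := by
      intro β
      have := isSpecial_biUnion (U := fun i => {c : CN T r A | c.len = i}) (countable_Iic β)
        fun i _ => hlevel i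
      refine this.mono ?_
      intro c hc
      simp only [mem_iUnion]
      exact ⟨c.len, hc, rfl⟩
    have hpre : ∀ V : Set T, IsSpecial V → IsSpecial {c : CN T r A | c.top ∈ V} := by
      rintro V ⟨B, hB, rfl⟩
      refine ⟨fun n => {c | c.top ∈ B n}, fun n => ?_, by ext; simp⟩
      intro a ha b hb hne hab
      exact hB n ha hb (CN.top_lt (lt_of_le_of_ne hab hne)).ne (CN.top_le hab)
    have S1 := hlevel ⊥
    have S2 := hlevel (Order.succ q.len)
    have S3 := hle (ht hT q.top)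
    have S4 : IsSpecial (⋃ u ∈ Iic q.top, {c : CN T r A | c.top ∈
        {t | t ∈ lev T (X ∩ A) ∧ f t = u}}) :=
      isSpecial_biUnion (countable_Iic_node hT _) fun u _ => hpre _ (hs u)
    refine (((S1.union S2).union S3).union S4).mono ?_
    rintro c ⟨hcX, hcq⟩
    have hcX' : c.len ∈ X := CN.mem_lev.1 hcX
    have hcq' : c.res (j c) (hj1 c) = q := hcq
    have hql : q.len = j c := by rw [← hcq', CN.res_len]
    have hqc : q ≤ c := by rw [← hcq']; exact CN.res_le _ _ _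
    have hgq : c.g (j c) = q.top := by
      rw [← hql]; exact (hqc.2 _ le_rfl).symm
    by_cases hl : Lim c.len
    · rcases hj3 c hl hcX' with h1 | ⟨h1, h2⟩
      · left; right
        rw [hgq] at h1
        exact h1.le
      · right
        rw [hgq] at h2
        exact mem_iUnion₂.2 ⟨_, h2, h1, rfl⟩
    · left; left
      by_cases h0 : c.len = ⊥
      · left; exact h0
      · right
        show c.len = _
        rw [hql]
        exact hj4 c hl h0

end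

end Pool.Agent.MP2e4b78
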