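import Pool.Agent.Lib.MP_2e4b78_lc.Restrict

/-!
# Intersections of realised ideals, and the nonstationary ideal
-/

open Cardinal Set Order

universe u v w

namespace Pool.Agent.MP2e4b78

section embedding

variable {T : Type u} [PartialOrder T] {T' : Type v} [PartialOrder T']

/-- predecessors along an embedding with downward closed range -/
noncomputable def iioEmb (e : T' → T) (he : ∀ a b, e a ≤ e b ↔ a ≤ b)
    (hd : ∀ b x, x ≤ e b → ∃ a, e a = x) (t : T') : Iio t ≃o Iio (e t) := by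
  have hinj : Function.Injective e := fun a b h =>
    le_antisymm ((he a b).1 h.le) ((he b a).1 h.ge)
  have hlt : ∀ a b, e a < e b ↔ a < b := fun a b => by
    rw [lt_iff_le_not_ge, lt_iff_le_not_ge, he, he]
  let F : Iio t → Iio (e t) := fun s => ⟨e s.1, (hlt _ _).2 s.2⟩
  have hF : Function.Bijective F := by
    constructor
    · intro a b hab
      exact Subtype.ext (hinj (congrArg Subtype.val hab))
    · rintro ⟨x, hx⟩
      obtain ⟨a, rfl⟩ := hd t x (le_of_lt hx)
      exact ⟨⟨a, (hlt _ _).1 hx⟩, rfl⟩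
  exact {
    toEquiv := Equiv.ofBijective F hF
    map_rel_iff' := by
      intro a b
      exact he a.1 b.1 }

theorem hasHt_emb (e : T' → T) (he : ∀ a b, e a ≤ e b ↔ a ≤ b)
    (hd : ∀ b x, x ≤ e b → ∃ a, e a = x) (t : T') (α : W1) : HasHt (e t) α ↔ HasHt t α := by
  have E := iioEmb e he hd t
  constructor
  · rintro ⟨g⟩
    exact ⟨E.trans g⟩
  · rintro ⟨g⟩
    exact ⟨E.symm.trans g⟩

theorem IsSpecial.preimage (e : T' → T) (he : ∀ a b, e a ≤ e b ↔ a ≤ b) {U : Set T}
    (h : IsSpecial U) : IsSpecial (e ⁻¹' U) := by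
  obtain ⟨A, hA, rfl⟩ := h
  refine ⟨fun n => e ⁻¹' A n, fun n => ?_, by rw [preimage_iUnion]⟩
  intro a ha b hb hne hle
  refine hA n ha hb (fun h => hne ?_) ((he _ _).2 hle)
  exact le_antisymm ((he a b).1 h.le) ((he b a).1 h.ge)

theorem IsNS.of_emb (e : T' → T) (he : ∀ a b, e a ≤ e b ↔ a ≤ b)
    (hd : ∀ b x, x ≤ e b → ∃ a, e a = x) {X : Set W1} (h : IsNS (lev T X)) :
    IsNS (lev T' X) := by
  classical
  obtain ⟨f, hf, hs⟩ := h
  have hlev : ∀ t, t ∈ lev T' X → e t ∈ lev T X := by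
    rintro t ⟨α, hα, h⟩
    exact ⟨α, hα, (hasHt_emb e he hd t α).2 h⟩
  have hlt : ∀ a b, e a < e b ↔ a < b := fun a b => by
    rw [lt_iff_le_not_ge, lt_iff_le_not_ge, he, he]
  let g : T' → T' := fun t => if h : ∃ s, e s = f (e t) then h.choose else t
  have hg : ∀ t, (∃ s, e s = f (e t)) → e (g t) = f (e t) := by
    intro t h
    simp only [g, dif_pos h]
    exact h.choose_spec
  have hex : ∀ t ∈ lev T' X, (∃ s, s < t) → (∃ s, e s = f (e t)) ∧ f (e t) < e t := by
    rintro t ht ⟨s, hs⟩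
    have h1 := hf (e t) (hlev t ht) ⟨e s, (hlt _ _).2 hs⟩
    exact ⟨hd t _ h1.le, h1⟩
  refine ⟨g, fun t ht hs => ?_, fun s => ?_⟩
  · obtain ⟨h1, h2⟩ := hex t ht hs
    rw [← hlt, hg t h1]
    exact h2
  · have S1 := (hs (e s)).preimage e he
    have S2 : IsSpecial {t : T' | ¬ ∃ s, s < t} := by
      refine isSpecial_of_isAntichain ?_
      intro a _ b hb hne hle
      exact hb ⟨a, lt_of_le_of_ne hle hne⟩
    refine (S1.union S2).mono ?_
    rintro t ⟨ht, hts⟩
    by_cases h : ∃ s, s < t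
    · left
      refine ⟨hlev t ht, ?_⟩
      rw [← hg t (hex t ht h).1, hts]
    · right; exact h

end embedding

section sum

variable {J : Type w} {T : J → Type w} [∀ j, PartialOrder (T j)]

/-- the trees glued at their roots -/
abbrev ST (T : J → Type w) [∀ j, PartialOrder (T j)] : Type w :=
  WithBot (Σ j, {t : T j // ∃ s, s < t})

open Classical in
/-- the embeddings -/
noncomputable def emb (j : J) (t : T j) : ST T :=
  if h : ∃ s, s < t then ((⟨j, ⟨t, h⟩⟩ : Σ j, {t : T j // ∃ s, s < t}) : ST T) else ⊥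

theorem emb_pos {j : J} {t : T j} (h : ∃ s, s < t) :
    emb j t = ((⟨j, ⟨t, h⟩⟩ : Σ j, {t : T j // ∃ s, s < t}) : ST T) := dif_pos h

theorem emb_neg {j : J} {t : T j} (h : ¬ ∃ s, s < t) : (emb j t : ST T) = ⊥ := dif_neg h

theorem root_le_of_min (hT : ∀ j, IsTreeOmega1 (T j)) {j : J} {t : T j} (h : ¬ ∃ s, s < t)
    (s : T j) : t ≤ s := by
  obtain ⟨r, hr⟩ := (hT j).root
  rcases (hr t).lt_or_eq with h1 | h1
  · exact absurd ⟨r, h1⟩ h
  · rw [← h1]; exact hr s

theorem emb_le (hT : ∀ j, IsTreeOmega1 (T j)) (j : J) (a b : T j) :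
    (emb j a : ST T) ≤ emb j b ↔ a ≤ b := by
  by_cases ha : ∃ s, s < a
  · by_cases hb : ∃ s, s < b
    · rw [emb_pos ha, emb_pos hb, WithBot.coe_le_coe, Sigma.mk_le_mk_iff]
      exact Iff.rfl
    · rw [emb_pos ha, emb_neg hb]
      constructor
      · intro h
        exact absurd h (by simp)
      · intro h
        obtain ⟨s, hs⟩ := ha
        exact absurd ⟨s, lt_of_lt_of_le hs h⟩ hb
  · rw [emb_neg ha]
    exact ⟨fun _ => root_le_of_min hT ha b, fun _ => bot_le⟩

theorem emb_down (hT : ∀ j, IsTreeOmega1 (T j)) (j : J) (b : T j) (x : ST T)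
    (h : x ≤ emb j b) : ∃ a, emb j a = x := by
  rcases x with _ | ⟨i, a, ha⟩
  · obtain ⟨r, hr⟩ := (hT j).root
    refine ⟨r, emb_neg ?_⟩
    rintro ⟨s, hs⟩
    exact absurd (hr s) (not_le_of_gt hs)
  · by_cases hb : ∃ s, s < b
    · rw [emb_pos hb] at h
      have h2 : (⟨i, ⟨a, ha⟩⟩ : Σ j, {t : T j // ∃ s, s < t}) ≤ ⟨j, ⟨b, hb⟩⟩ :=
        WithBot.coe_le_coe.1 h
      cases h2
      exact ⟨a, emb_pos ha⟩
    · rw [emb_neg hb] at h
      exact absurd h (WithBot.not_coe_le_bot (⟨i, ⟨a, ha⟩⟩ : Σ j, {t : T j // ∃ s, s < t}))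

theorem exists_emb [Nonempty J] (hT : ∀ j, IsTreeOmega1 (T j)) (x : ST T) :
    ∃ j a, emb j a = x := by
  rcases x with _ | ⟨i, a, ha⟩
  · obtain ⟨j⟩ := ‹Nonempty J›
    obtain ⟨r, hr⟩ := (hT j).root
    refine ⟨j, r, emb_neg ?_⟩
    rintro ⟨s, hs⟩
    exact absurd (hr s) (not_le_of_gt hs)
  · exact ⟨i, a, emb_pos ha⟩

theorem st_isTree [Nonempty J] (hT : ∀ j, IsTreeOmega1 (T j)) : IsTreeOmega1 (ST T) where
  wellOrdered x := by
    obtain ⟨j, a, rfl⟩ := exists_emb hT x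
    have h := (hT j).wellOrdered a
    have E := iioEmb (emb j) (emb_le hT j) (fun b x => emb_down hT j b x) a
    exact E.symm.toRelIsoLT.toRelEmbedding.isWellOrder
  root := ⟨⊥, fun _ => bot_le⟩
  exists_ht x := by
    obtain ⟨j, a, rfl⟩ := exists_emb hT x
    obtain ⟨α, hα⟩ := (hT j).exists_ht a
    exact ⟨α, (hasHt_emb _ (emb_le hT j) (fun b x => emb_down hT j b x) a α).2 hα⟩
  level_nonempty α := by
    obtain ⟨j⟩ := ‹Nonempty J›
    obtain ⟨t, ht⟩ := (hT j).level_nonempty α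
    exact ⟨emb j t, (hasHt_emb _ (emb_le hT j) (fun b x => emb_down hT j b x) t α).2 ht⟩

theorem isSpecial_glue {V : ∀ j, Set (T j)} (hV : ∀ j, IsSpecial (V j)) :
    IsSpecial {x : ST T | ∃ (j : J) (t : T j) (h : ∃ s, s < t), t ∈ V j ∧
      x = ((⟨j, ⟨t, h⟩⟩ : Σ j, {t : T j // ∃ s, s < t}) : ST T)} := by
  choose A hA hU using hV
  refine ⟨fun n => {x : ST T | ∃ (j : J) (t : T j) (h : ∃ s, s < t), t ∈ A j n ∧
      x = ((⟨j, ⟨t, h⟩⟩ : Σ j, {t : T j // ∃ s, s < t}) : ST T)}, fun n => ?_, ?_⟩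
  · rintro x ⟨j, t, h, ht, rfl⟩ y ⟨i, s, h', hs, rfl⟩ hne hle
    have h2 := WithBot.coe_le_coe.1 hle
    cases h2 with
    | fiber _ _ _ h3 =>
      have h4 : t ≤ s := h3
      refine hA _ n ht hs ?_ h4
      rintro rfl
      exact hne rfl
  · ext x
    simp only [mem_ofPred_eq, mem_iUnion]
    constructor
    · rintro ⟨j, t, h, ht, rfl⟩
      rw [hU] at ht
      obtain ⟨n, hn⟩ := mem_iUnion.1 ht
      exact ⟨n, j, t, h, hn, rfl⟩
    · rintro ⟨n, j, t, h, ht, rfl⟩
      exact ⟨j, t, h, by rw [hU]; exact mem_iUnion.2 ⟨n, ht⟩, rfl⟩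

theorem isNS_st_iff [Nonempty J] (hT : ∀ j, IsTreeOmega1 (T j)) (X : Set W1) :
    IsNS (lev (ST T) X) ↔ ∀ j, IsNS (lev (T j) X) := by
  classical
  constructor
  · intro h j
    exact h.of_emb (emb j) (emb_le hT j) (fun b x => emb_down hT j b x)
  · intro h
    choose f hf hs using h
    let g : ST T → ST T := fun x => WithBot.recBotCoe (C := fun _ => ST T) ⊥
      (fun y => emb y.1 (f y.1 y.2.1)) x
    refine ⟨g, ?_, ?_⟩
    · rintro x hx ⟨y, hy⟩
      rcases x with _ | ⟨j, t, ht⟩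
      · exact absurd hy (not_lt_bot (a := y))
      · show emb j (f j t) < _
        have h1 : ((⟨j, ⟨t, ht⟩⟩ : Σ j, {t : T j // ∃ s, s < t}) : ST T) = emb j t :=
          (emb_pos ht).symm
        have h2 : t ∈ lev (T j) X := by
          obtain ⟨α, hα, h3⟩ := hx
          refine ⟨α, hα, (hasHt_emb (emb j) (emb_le hT j)
            (fun b x => emb_down hT j b x) t α).1 ?_⟩
          rw [← h1]; exact h3
        have h3 := hf j t h2 ht
        have h4 : (emb j (f j t) : ST T) < emb j t := by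
          rw [lt_iff_le_not_ge, emb_le hT, emb_le hT, ← lt_iff_le_not_ge]
          exact h3
        rw [← h1] at h4
        exact h4
    · intro x
      have hV : ∀ j, IsSpecial {t : T j | t ∈ lev (T j) X ∧ (emb j (f j t) : ST T) = x} := by
        intro j
        by_cases h : ∃ s, (emb j s : ST T) = x
        · obtain ⟨s, rfl⟩ := h
          refine (hs j s).mono ?_
          rintro t ⟨h1, h2⟩
          refine ⟨h1, ?_⟩
          exact le_antisymm ((emb_le hT j _ _).1 h2.le) ((emb_le hT j _ _).1 h2.ge)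
        · refine (hs j (hT j).root.choose).mono ?_
          rintro t ⟨_, h2⟩
          exact absurd ⟨_, h2⟩ h
      have S1 := isSpecial_glue hV
      have S2 : IsSpecial {x : ST T | x = ⊥} :=
        isSpecial_of_isAntichain (Set.subsingleton_singleton.isAntichain _)
      refine (S1.union S2).mono ?_
      rintro y ⟨hy, hyx⟩
      rcases y with _ | ⟨j, t, ht⟩
      · right; rfl
      · left
        refine ⟨j, t, ht, ⟨?_, hyx⟩, rfl⟩
        have h1 : ((⟨j, ⟨t, ht⟩⟩ : Σ j, {t : T j // ∃ s, s < t}) : ST T) = emb j t :=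
          (emb_pos ht).symm
        obtain ⟨α, hα, h3⟩ := hy
        refine ⟨α, hα, (hasHt_emb (emb j) (emb_le hT j)
          (fun b x => emb_down hT j b x) t α).1 ?_⟩
        rw [← h1]; exact h3

end sum

/-! ### the tree `ω₁` -/

theorem hasHt_W1 {t α : W1} : HasHt t α ↔ t = α := by
  constructor
  · intro h
    exact iio_iso_unique h
  · rintro rfl
    exact ⟨OrderIso.refl _⟩

theorem W1_isTree : IsTreeOmega1 W1 where
  wellOrdered t := inferInstance
  root := ⟨⊥, fun _ => bot_le⟩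
  exists_ht t := ⟨t, hasHt_W1.2 rfl⟩
  level_nonempty α := ⟨α, hasHt_W1.2 rfl⟩

theorem lev_W1 (X : Set W1) : lev W1 X = X := by
  ext t
  constructor
  · rintro ⟨α, hα, h⟩
    rw [hasHt_W1] at h
    rwa [h]
  · intro h
    exact ⟨t, h, hasHt_W1.2 rfl⟩

theorem countable_of_isSpecial_W1 {U : Set W1} (h : IsSpecial U) : U.Countable := by
  obtain ⟨A, hA, rfl⟩ := h
  refine countable_iUnion fun n => Set.Subsingleton.countable ?_
  intro a ha b hb
  by_contra hne
  rcases le_total a b with h | h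
  · exact hA n ha hb hne h
  · exact hA n hb ha (Ne.symm hne) h

theorem isNS_W1_iff (X : Set W1) : IsNS (lev W1 X) ↔ ¬ IsStationary X := by
  classical
  rw [lev_W1]
  constructor
  · rintro ⟨f, hf, hs⟩ hX
    have hb : ∀ s, ∃ b, ∀ t, t ∈ X → f t = s → t < b := by
      intro s
      obtain ⟨b, hb⟩ := exists_gt_of_countable (countable_of_isSpecial_W1 (hs s))
      exact ⟨b, fun _ ht hts => hb _ ⟨ht, hts⟩⟩
    choose b hb using hb
    have hclub : IsClub ({δ : W1 | ∀ x < δ, b x < δ} ∩ {δ : W1 | ∀ x < δ, Order.succ x < δ}) :=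
      (isClub_closurePoints₁ b).inter cof_W1_ne (isClub_closurePoints₁ _)
    -- a positive closure point
    obtain ⟨x1, hx1⟩ := exists_gt (⊥ : W1)
    have hclub2 : IsClub {δ : W1 | ∀ x < δ, (fun y => max (b y) x1) x < δ} :=
      isClub_closurePoints₁ _
    have hpos : IsClub (Ici x1) := by
      refine ⟨?_, fun a => ⟨max a x1, mem_Ici.2 (le_max_right _ _), le_max_left _ _⟩⟩
      intro s hs hne _ a ha
      obtain ⟨y, hy⟩ := hne
      exact (hs hy).trans (ha.1 hy)
    obtain ⟨δ, hδX, hδ1, hδ2⟩ := hX (hclub2.inter cof_W1_ne hpos)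
    have hδ0 : ∃ s, s < δ := ⟨⊥, lt_of_lt_of_le hx1 hδ2⟩
    have h1 := hf δ hδX hδ0
    have h2 := hb _ δ hδX rfl
    have h3 := hδ1 _ h1
    exact absurd (h2.trans_le (le_max_left _ x1)) (not_lt.2 h3.le)
  · intro hX
    rw [not_isStationary_iff] at hX
    obtain ⟨C, hC, hd⟩ := hX
    have hsel : ∀ t, ∃ s, t ∈ X → (∃ s', s' < t) → s < t ∧ ∀ c ∈ C, s < c → ¬ c < t := by
      intro t
      by_cases ht : t ∈ X ∧ ∃ s', s' < t
      · obtain ⟨h1, s0, hs0⟩ := ht
        by_contra hcon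
        push Not at hcon
        have h2 : ∀ s < t, ∃ c ∈ C, s < c ∧ c < t := by
          intro s hs
          obtain ⟨_, _, h3⟩ := hcon s
          exact h3 hs
        have h3 : t ∈ C := by
          obtain ⟨c0, hc0, _, hc2⟩ := h2 s0 hs0
          refine hC.isLUB_mem (t := C ∩ Iio t) inter_subset_left ⟨c0, hc0, hc2⟩ ?_
          refine ⟨fun x hx => le_of_lt hx.2, fun b hb => ?_⟩
          by_contra h5
          rw [not_le] at h5
          obtain ⟨x, hx, hx3, hx4⟩ := h2 b h5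
          exact absurd (hb ⟨hx, hx4⟩) (not_le.2 hx3)
        exact Set.disjoint_left.1 hd h1 h3
      · exact ⟨t, fun h1 h2 => absurd ⟨h1, h2⟩ ht⟩
    choose f hf using hsel
    refine ⟨f, fun t ht hs => (hf t ht hs).1, fun s => ?_⟩
    obtain ⟨b, hb⟩ := exists_gt s
    obtain ⟨c, hc, hbc⟩ := hC.isCofinal b
    refine isSpecial_of_countable ((countable_Iic c).mono ?_)
    rintro t ⟨ht, hts⟩
    by_cases h : ∃ s', s' < t
    · have := (hf t ht h).2 c hc (by rw [hts]; exact hb.trans_le hbc)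
      exact not_lt.1 this
    · have : t = ⊥ := by
        by_contra h0
        exact h ⟨⊥, bot_lt_iff_ne_bot.2 h0⟩
      rw [this]
      exact mem_Iic.2 bot_le

end Pool.Agent.MP2e4b78
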